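import Mathlib
import Pool.Graph.R_seed8.H256R2.SC.G1

set_option autoImplicit false

/-! # Choice of the parameters; counting in arithmetic progressions (helper622) -/

namespace Pool.Agent.H256R2.SC

open Finset Filter

open scoped Classical

/-- the statement of the theorem `survivors` -/
def SurvStmt : Prop := ∃ C : ℝ, 0 < C ∧ ∃ y₀ : ℝ, ∀ y : ℝ, y₀ ≤ y → ∀ L : ℕ, y ≤ L →
    (L : ℝ) ≤ y * (Real.log y) ^ 2 →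
    ∃ b : ℕ → ℕ, (∀ p : ℕ, p.Prime → (p : ℝ) ≤ y → 1 ≤ b p ∧ b p < p) ∧
      (((Finset.Icc 1 L).filter (fun k => ∀ p : ℕ, p.Prime → (p : ℝ) ≤ y →
        ¬ k ≡ b p [MOD p])).card : ℝ) ≤
      C * L * (Real.log (Real.log y)) ^ 2 /
        ((Real.log y) ^ 2 * Real.log (Real.log (Real.log y)))

/-- the statement of the theorem `covering` -/
def CovStmt : Prop := ∃ c : ℝ, 0 < c ∧ ∃ X₀ : ℝ, ∀ X : ℝ, X₀ ≤ X →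
    ∀ (B : Finset ℕ), (B.card : ℝ) ≤ 2 * Real.log X →
    ∀ (κ : Type) [Fintype κ] [DecidableEq κ], (Fintype.card κ : ℝ) ≤ c * Real.log X →
    ∀ (res : ℕ → κ → ℤ),
    (∀ p : ℕ, p.Prime → (Real.log X) ^ 2 < p → (p : ℝ) ≤ X ^ (1 / 10 : ℝ) → p ∉ B →
      ∀ k l, k ≠ l → ¬ ((p : ℤ) ∣ res p k - res p l)) →
    ∀ (𝒜 : Finset ℤ) (N Err : ℝ), X ^ (1 / 2 : ℝ) ≤ N → 0 ≤ Err → Err ≤ X ^ (1 / 10 : ℝ) →
    (∀ q : ℕ, Squarefree q → (q : ℝ) ≤ X ^ (1 / 4 : ℝ) →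
      (∀ p ∈ q.primeFactors, (Real.log X) ^ 2 < p ∧ p ∉ B) →
      ∀ r : ℤ, |((𝒜.filter (fun x => (q : ℤ) ∣ x - r)).card : ℝ) - N / q| ≤ Err) →
    ∃ x ∈ 𝒜, ∀ k : κ, ∃ p : ℕ, p.Prime ∧ (Real.log X) ^ 2 < p ∧ (p : ℝ) ≤ X ^ (1 / 10 : ℝ) ∧
      p ∉ B ∧ (p : ℤ) ∣ x - res p k

end Pool.Agent.H256R2.SC
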