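import Pool.Agent.H99.GX.H312R2_RG_Defs
import Pool.Graph.R_seed8.H398R2.PG.G

set_option autoImplicit false

/-! TEAM RG: assembly, preliminary facts -/

open Finset Filter

namespace Pool.Agent.H312R2.RG

open Pool.Agent.H378R2
open Pool.Agent.H398R2.PG (Et natAbs_sub_le' mem_Esup_of_le card_primeFactors_le one_sub_sum_le_prod)
open Pool.Agent.H256R2.SC (ff)

/-- the record function is below the square of the logarithm -/
theorem ev_ff (c : ℝ) (hc : 0 < c) : ∀ᶠ X : ℝ in atTop, c * ff X ≤ (Real.log X) ^ 2 ∧ 0 ≤ ff X ∧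
    2 * (c * ff X) ≤ X := by
  have t1 := Real.tendsto_log_atTop
  have t2 : Tendsto (fun X : ℝ => Real.log (Real.log X)) atTop atTop := t1.comp t1
  have t3 : Tendsto (fun X : ℝ => Real.log (Real.log (Real.log X))) atTop atTop := t1.comp t2
  have t4 : Tendsto (fun X : ℝ => Real.log (Real.log (Real.log (Real.log X)))) atTop atTop := t1.comp t3
  have hlog : ∀ᶠ t : ℝ in atTop, c * (Real.log t) ^ 2 ≤ t := by
    have h := (Real.isLittleO_pow_log_id_atTop (n := 2)).def (show (0 : ℝ) < 1 / (c + 1) by positivity)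
    filter_upwards [h, eventually_ge_atTop (1 : ℝ)] with t ht h1
    simp only [id, Real.norm_eq_abs, abs_of_nonneg (sq_nonneg (Real.log t)),
      abs_of_nonneg (by linarith : (0 : ℝ) ≤ t)] at ht
    rw [div_mul_eq_mul_div, one_mul, le_div_iff₀ (by positivity)] at ht
    nlinarith [sq_nonneg (Real.log t)]
  have hlsq : ∀ᶠ t : ℝ in atTop, 2 * (Real.log t) ^ 2 ≤ t := by
    have h := (Real.isLittleO_pow_log_id_atTop (n := 2)).def (show (0 : ℝ) < 1 / 2 by norm_num)
    filter_upwards [h, eventually_ge_atTop (1 : ℝ)] with t ht h1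
    simp only [id, Real.norm_eq_abs, abs_of_nonneg (sq_nonneg (Real.log t)),
      abs_of_nonneg (by linarith : (0 : ℝ) ≤ t)] at ht
    linarith
  filter_upwards [t1.eventually hlog, t3.eventually_ge_atTop 1, t4.eventually_ge_atTop 1, hlsq,
    t2.eventually_ge_atTop 1, t1.eventually_ge_atTop 1, eventually_ge_atTop 1] with X h1 h3 h4 h5 h6 h7 h8
  set l1 := Real.log X with hl1
  set l2 := Real.log l1 with hl2
  set l3 := Real.log l2 with hl3
  have hff : ff X = l1 * l2 ^ 2 * Real.log l3 / l3 ^ 2 := rfl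
  have h9 : Real.log l3 ≤ l3 ^ 2 := by
    have := Real.log_le_sub_one_of_pos (show (0 : ℝ) < l3 by linarith)
    nlinarith
  have h10 : Real.log l3 / l3 ^ 2 ≤ 1 := by
    rw [div_le_one (by positivity)]; exact h9
  have h11 : 0 ≤ Real.log l3 / l3 ^ 2 := by positivity
  have h12 : ff X ≤ l1 * l2 ^ 2 := by
    rw [hff, mul_div_assoc]
    calc l1 * l2 ^ 2 * (Real.log l3 / l3 ^ 2) ≤ l1 * l2 ^ 2 * 1 :=
          mul_le_mul_of_nonneg_left h10 (by positivity)
      _ = _ := by ring
  have h13 : c * ff X ≤ l1 ^ 2 := by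
    calc c * ff X ≤ c * (l1 * l2 ^ 2) := mul_le_mul_of_nonneg_left h12 hc.le
      _ = l1 * (c * l2 ^ 2) := by ring
      _ ≤ l1 * l1 := mul_le_mul_of_nonneg_left h1 (by linarith)
      _ = _ := by ring
  refine ⟨h13, ?_, by linarith⟩
  rw [hff]
  positivity

end Pool.Agent.H312R2.RG
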