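import Pool.Agent.H99.GX.H312R2_RG_Defs
import Pool.Graph.R_seed8.H378R2.LSBV2

set_option autoImplicit false

/-! TEAM RG, task C (helper935): the discrepancy in terms of primitive characters. -/

open Finset Filter

namespace Pool.Agent.H312R2.RG

section characters
open Pool.Agent.H378R2 Pool.Agent.H398R2.BV

namespace TaskC

open Classical in
/-- re-indexing of the non-principal characters by primitive characters -/
lemma sum_char_eq (m : ℕ) [NeZero m] (w : DirichletCharacter ℂ m → ℂ)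
    (W : (f : ℕ) → DirichletCharacter ℂ f → ℂ)
    (hW : ∀ f (h : f ∣ m) (ψ : DirichletCharacter ℂ f),
      w (DirichletCharacter.changeLevel h ψ) = W f ψ) :
    ∑ χ ∈ (univ : Finset (DirichletCharacter ℂ m)).filter (fun χ => χ ≠ 1), w χ =
      ∑ f ∈ m.divisors.filter (fun f => f ≠ 1), ∑ ψ ∈ Prim f, W f ψ := by
  have h1 : ∀ χ ∈ (univ : Finset (DirichletCharacter ℂ m)).filter (fun χ => χ ≠ 1),
      χ.conductor ∈ m.divisors.filter (fun f => f ≠ 1) := by
    intro χ hχ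
    rw [mem_filter] at hχ ⊢
    refine ⟨Nat.mem_divisors.mpr ⟨χ.conductor_dvd_level, NeZero.ne m⟩, ?_⟩
    intro h
    exact hχ.2 (DirichletCharacter.eq_one_iff_conductor_eq_one.mpr h)
  rw [← sum_fiberwise_of_maps_to h1]
  apply sum_congr rfl
  intro f hf
  rw [mem_filter, Nat.mem_divisors] at hf
  have hfm := hf.1.1
  have h2 : (((univ : Finset (DirichletCharacter ℂ m)).filter (fun χ => χ ≠ 1)).filter
      (fun χ => χ.conductor = f)) =
      (Prim f).image (DirichletCharacter.changeLevel hfm) := by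
    ext χ
    constructor
    · intro hχ
      rw [mem_filter] at hχ
      obtain ⟨_, hc⟩ := hχ
      subst hc
      rw [mem_image]
      exact ⟨χ.primitiveCharacter, by
        unfold Prim
        rw [mem_filter]; exact ⟨mem_univ _, χ.primitiveCharacter_isPrimitive⟩,
        χ.changeLevel_primitiveCharacter⟩
    · intro hχ
      rw [mem_image] at hχ
      obtain ⟨ψ, hψ, rfl⟩ := hχ
      unfold Prim at hψ
      rw [mem_filter] at hψ
      have hc : (DirichletCharacter.changeLevel hfm ψ).conductor = f := by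
        rw [DirichletCharacter.conductor_changeLevel]
        exact hψ.2
      rw [mem_filter, mem_filter]
      refine ⟨⟨mem_univ _, ?_⟩, hc⟩
      intro h
      rw [h, DirichletCharacter.conductor_one] at hc
      exact hf.2 hc.symm
  rw [h2, sum_image fun x _ y _ hxy => DirichletCharacter.changeLevel_injective hfm hxy]
  exact sum_congr rfl fun ψ _ => hW f hfm ψ

lemma char_inv (m a : ℕ) (ha : a.Coprime m) (χ : DirichletCharacter ℂ m) :
    χ ((a : ZMod m)⁻¹) = (χ (a : ZMod m))⁻¹ := by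
  have hu : IsUnit (a : ZMod m) := (ZMod.isUnit_iff_coprime a m).mpr ha
  apply eq_inv_of_mul_eq_one_left
  rw [← map_mul, ZMod.inv_mul_of_unit _ hu, map_one]

lemma char_changeLevel (m f a : ℕ) (h : f ∣ m) (ha : a.Coprime m) (ψ : DirichletCharacter ℂ f) :
    (DirichletCharacter.changeLevel h ψ) ((a : ZMod m)⁻¹) = ψ ((a : ZMod f)⁻¹) := by
  rw [char_inv m a ha, char_inv f a (Nat.Coprime.coprime_dvd_right h ha)]
  have h1 := DirichletCharacter.changeLevel_eq_cast_of_dvd' ψ h (a := (a : ℤ))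
        (by exact_mod_cast Nat.isCoprime_iff_coprime.mpr ha)
  push_cast at h1
  rw [h1]

lemma psiPhi_changeLevel_eq (X : ℝ) (m f : ℕ) (h : f ∣ m)
    (ψ : DirichletCharacter ℂ f) :
    psiPhi (DirichletCharacter.changeLevel h ψ) X = psiPhi ψ X -
      ∑ n ∈ (Icc 1 ⌊3 * X⌋₊).filter (fun n => ¬ n.Coprime m),
        ((Phi (n / X) * ArithmeticFunction.vonMangoldt n : ℝ) : ℂ) * ψ (n : ZMod f) := by
  unfold psiPhi
  rw [sum_filter, ← sum_sub_distrib]
  apply sum_congr rfl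
  intro n _
  by_cases hn : n.Coprime m
  · have h1 := DirichletCharacter.changeLevel_eq_cast_of_dvd' ψ h (a := (n : ℤ))
      (by exact_mod_cast Nat.isCoprime_iff_coprime.mpr hn)
    push_cast at h1
    rw [h1, if_neg (not_not.mpr hn), sub_zero]
  · rw [MulChar.map_nonunit _ (fun hu => hn ((ZMod.isUnit_iff_coprime n _).mp hu)), if_pos hn]
    ring

lemma nc_bound (X : ℝ) (hX : 1 ≤ X) (m f : ℕ) (hm : 1 ≤ m) (ψ : DirichletCharacter ℂ f) :
    ‖∑ n ∈ (Icc 1 ⌊3 * X⌋₊).filter (fun n => ¬ n.Coprime m),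
        ((Phi (n / X) * ArithmeticFunction.vonMangoldt n : ℝ) : ℂ) * ψ (n : ZMod f)‖ ≤
      m.primeFactors.card * Real.log (3 * X) := by
  refine (norm_sum_le _ _).trans ?_
  refine le_trans ?_ (LSBV.sum_ncPhi X hX m hm)
  apply sum_le_sum
  intro n hn
  rw [mem_filter] at hn
  have h2 := ψ.norm_le_one (n : ZMod f)
  have h3 : 0 ≤ Phi (n / X) * ArithmeticFunction.vonMangoldt n :=
    mul_nonneg (LSBV.Phi_nonneg _) ArithmeticFunction.vonMangoldt_nonneg
  rw [norm_mul, Complex.norm_real, Real.norm_eq_abs, abs_of_nonneg h3]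
  calc Phi (n / X) * ArithmeticFunction.vonMangoldt n * ‖ψ (n : ZMod f)‖ ≤
      Phi (n / X) * ArithmeticFunction.vonMangoldt n * 1 := mul_le_mul_of_nonneg_left h2 h3
    _ = _ := by ring

open Classical in
lemma key (X : ℝ) (m a : ℕ) [NeZero m] (ha : a.Coprime m) :
    ((∑ n ∈ (Icc 1 ⌊3 * X⌋₊).filter (fun n => n ≡ a [MOD m]),
      Phi (n / X) * ArithmeticFunction.vonMangoldt n - (1 / (Nat.totient m : ℝ)) *
      ∑ n ∈ (Icc 1 ⌊3 * X⌋₊).filter (fun n => n.Coprime m),
        Phi (n / X) * ArithmeticFunction.vonMangoldt n : ℝ) : ℂ) =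
      (1 / (Nat.totient m : ℂ)) *
      ∑ χ ∈ (univ : Finset (DirichletCharacter ℂ m)).filter (fun χ => χ ≠ 1),
        χ ((a : ZMod m)⁻¹) * psiPhi χ X := by
  have h1 : ∑ n ∈ (Icc 1 ⌊3 * X⌋₊).filter (fun n => n ≡ a [MOD m]),
      Phi (n / X) * ArithmeticFunction.vonMangoldt n - (1 / (Nat.totient m : ℝ)) *
        ∑ n ∈ (Icc 1 ⌊3 * X⌋₊).filter (fun n => n.Coprime m),
          Phi (n / X) * ArithmeticFunction.vonMangoldt n =
        ∑ n ∈ Icc 1 ⌊3 * X⌋₊, Phi (n / X) * ArithmeticFunction.vonMangoldt n *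
          ((if n ≡ a [MOD m] then (1 : ℝ) else 0) -
            (if n.Coprime m then (1 : ℝ) / (Nat.totient m : ℝ) else 0)) := by
    rw [sum_filter, sum_filter, mul_sum, ← sum_sub_distrib]
    apply sum_congr rfl
    intro n _
    split_ifs <;> ring
  rw [h1, Complex.ofReal_sum, mul_sum]
  have h2 : ∀ n ∈ Icc 1 ⌊3 * X⌋₊, ((Phi (n / X) * ArithmeticFunction.vonMangoldt n *
          ((if n ≡ a [MOD m] then (1 : ℝ) else 0) -
            (if n.Coprime m then (1 : ℝ) / (Nat.totient m : ℝ) else 0)) : ℝ) : ℂ) =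
        ∑ χ ∈ (univ : Finset (DirichletCharacter ℂ m)).filter (fun χ => χ ≠ 1),
          (1 / (Nat.totient m : ℂ)) * (χ ((a : ZMod m)⁻¹) *
            (((Phi (n / X) * ArithmeticFunction.vonMangoldt n : ℝ) : ℂ) * χ (n : ZMod m))) := by
    intro n _
    rw [Complex.ofReal_mul, Pool.Agent.Helper112.BLB.bracket m a ha n, mul_sum, mul_sum]
    apply sum_congr rfl
    intro χ _
    push_cast
    ring
  rw [sum_congr rfl h2, sum_comm]
  apply sum_congr rfl
  intro χ _
  unfold psiPhi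
  rw [mul_sum, mul_sum]

end TaskC

open TaskC

theorem EPhi_prim (X : ℝ) (hX : 1 ≤ X) (m a : ℕ) (hm : 1 ≤ m) (ha : a.Coprime m) :
    ‖((EPhi X m a : ℝ) : ℂ) - (1 / (Nat.totient m : ℂ)) *
      ∑ f ∈ m.divisors.filter (fun f => f ≠ 1), ∑ ψ ∈ Prim f, ψ ((a : ZMod f)⁻¹) * psiPhi ψ X‖ ≤
      2 * (m.primeFactors.card * Real.log (3 * X)) := by
  classical
  have : NeZero m := ⟨by omega⟩
  set E := (m.primeFactors.card : ℝ) * Real.log (3 * X) with hE
  have hlog : 0 ≤ Real.log (3 * X) := Real.log_nonneg (by linarith)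
  have hE0 : 0 ≤ E := by positivity
  have hφ : (1:ℝ) ≤ Nat.totient m := by exact_mod_cast Nat.totient_pos.mpr (by omega)
  have hφc : (Nat.totient m : ℂ) ≠ 0 := by
    have : (Nat.totient m) ≠ 0 := (Nat.totient_pos.mpr (by omega)).ne'
    exact_mod_cast this
  -- principal character
  have h5 : ∑ n ∈ Icc 1 ⌊3 * X⌋₊, Phi (n / X) * ArithmeticFunction.vonMangoldt n -
      ∑ n ∈ (Icc 1 ⌊3 * X⌋₊).filter (fun n => n.Coprime m),
        Phi (n / X) * ArithmeticFunction.vonMangoldt n =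
      ∑ n ∈ (Icc 1 ⌊3 * X⌋₊).filter (fun n => ¬ n.Coprime m),
        Phi (n / X) * ArithmeticFunction.vonMangoldt n := by
    rw [← sum_filter_add_sum_filter_not (Icc 1 ⌊3 * X⌋₊) (fun n => n.Coprime m)]
    ring
  have h6 := LSBV.sum_ncPhi X hX m hm
  have h7 : 0 ≤ ∑ n ∈ (Icc 1 ⌊3 * X⌋₊).filter (fun n => ¬ n.Coprime m),
        Phi (n / X) * ArithmeticFunction.vonMangoldt n := by
    apply sum_nonneg
    intro n _
    exact mul_nonneg (LSBV.Phi_nonneg _) ArithmeticFunction.vonMangoldt_nonneg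
  have hkey := key X m a ha
  -- re-indexing
  have h10 := sum_char_eq m (fun χ => χ ((a : ZMod m)⁻¹) * psiPhi χ X)
    (fun f ψ => ψ ((a : ZMod f)⁻¹) * (psiPhi ψ X -
      ∑ n ∈ (Icc 1 ⌊3 * X⌋₊).filter (fun n => ¬ n.Coprime m),
        ((Phi (n / X) * ArithmeticFunction.vonMangoldt n : ℝ) : ℂ) * ψ (n : ZMod f)))
    (by
      intro f h ψ
      rw [char_changeLevel m f a h ha ψ, psiPhi_changeLevel_eq X m f h ψ])
  -- number of characters
  have h11 := sum_char_eq m (fun _ => 1) (fun _ _ => 1) (fun _ _ _ => rfl)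
  have h12 : ∑ f ∈ m.divisors.filter (fun f => f ≠ 1), ((Prim f).card : ℝ) ≤ Nat.totient m := by
    have e1 : ((∑ f ∈ m.divisors.filter (fun f => f ≠ 1), ((Prim f).card : ℝ) : ℝ) : ℂ) =
        (((((univ : Finset (DirichletCharacter ℂ m)).filter (fun χ => χ ≠ 1)).card : ℝ)) : ℂ) := by
      rw [Complex.ofReal_sum]
      rw [sum_const, nsmul_eq_mul, mul_one] at h11
      push_cast
      rw [h11]
      apply sum_congr rfl
      intro f _
      rw [sum_const, nsmul_eq_mul, mul_one]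
    have e2 := Complex.ofReal_injective e1
    rw [e2]
    have h4 := DirichletCharacter.card_eq_totient_of_hasEnoughRootsOfUnity ℂ m
    rw [← h4, Nat.card_eq_fintype_card]
    exact_mod_cast (card_filter_le _ _)
  set P0 := ∑ n ∈ (Icc 1 ⌊3 * X⌋₊).filter (fun n => n.Coprime m),
        Phi (n / X) * ArithmeticFunction.vonMangoldt n with hP0
  set P1 := ∑ n ∈ Icc 1 ⌊3 * X⌋₊, Phi (n / X) * ArithmeticFunction.vonMangoldt n with hP1
  set P2 := ∑ n ∈ (Icc 1 ⌊3 * X⌋₊).filter (fun n => n ≡ a [MOD m]),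
      Phi (n / X) * ArithmeticFunction.vonMangoldt n with hP2
  have h8 : |(1 / (Nat.totient m : ℝ)) * P0 - (1 / (Nat.totient m : ℝ)) * P1| ≤ E := by
    have : (1 / (Nat.totient m : ℝ)) * P0 - (1 / (Nat.totient m : ℝ)) * P1 =
        -((P1 - P0) / (Nat.totient m : ℝ)) := by ring
    rw [this, abs_neg, h5, abs_of_nonneg (by positivity)]
    rw [div_le_iff₀ (by linarith)]
    calc _ ≤ E := h6
      _ = E * 1 := by ring
      _ ≤ E * (Nat.totient m : ℝ) := mul_le_mul_of_nonneg_left hφ hE0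
  rw [h10] at hkey
  have h13 : ((EPhi X m a : ℝ) : ℂ) - (1 / (Nat.totient m : ℂ)) *
      ∑ f ∈ m.divisors.filter (fun f => f ≠ 1), ∑ ψ ∈ Prim f, ψ ((a : ZMod f)⁻¹) * psiPhi ψ X =
      (((1 / (Nat.totient m : ℝ)) * P0 - (1 / (Nat.totient m : ℝ)) * P1 : ℝ) : ℂ) -
      (1 / (Nat.totient m : ℂ)) *
        ∑ f ∈ m.divisors.filter (fun f => f ≠ 1), ∑ ψ ∈ Prim f, ψ ((a : ZMod f)⁻¹) *
        ∑ n ∈ (Icc 1 ⌊3 * X⌋₊).filter (fun n => ¬ n.Coprime m),
        ((Phi (n / X) * ArithmeticFunction.vonMangoldt n : ℝ) : ℂ) * ψ (n : ZMod f) := by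
    have e1 : ((EPhi X m a : ℝ) : ℂ) = ((P2 - (1 / (Nat.totient m : ℝ)) * P0 : ℝ) : ℂ) +
        (((1 / (Nat.totient m : ℝ)) * P0 - (1 / (Nat.totient m : ℝ)) * P1 : ℝ) : ℂ) := by
      rw [← Complex.ofReal_add]
      congr 1
      unfold EPhi
      rw [← hP1, ← hP2]
      ring
    rw [e1, hkey]
    simp only [mul_sub, sum_sub_distrib]
    ring
  rw [h13]
  refine (norm_sub_le _ _).trans ?_
  rw [Complex.norm_real, Real.norm_eq_abs, norm_mul]
  have h14 : ‖(1 / (Nat.totient m : ℂ))‖ = 1 / (Nat.totient m : ℝ) := by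
    rw [norm_div, norm_one, Complex.norm_natCast]
  rw [h14]
  have h15 : ‖∑ f ∈ m.divisors.filter (fun f => f ≠ 1), ∑ ψ ∈ Prim f, ψ ((a : ZMod f)⁻¹) *
        ∑ n ∈ (Icc 1 ⌊3 * X⌋₊).filter (fun n => ¬ n.Coprime m),
        ((Phi (n / X) * ArithmeticFunction.vonMangoldt n : ℝ) : ℂ) * ψ (n : ZMod f)‖ ≤
      Nat.totient m * E := by
    calc _ ≤ ∑ f ∈ m.divisors.filter (fun f => f ≠ 1), ∑ ψ ∈ Prim f, E := by
          refine (norm_sum_le _ _).trans (sum_le_sum fun f _ => ?_)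
          refine (norm_sum_le _ _).trans (sum_le_sum fun ψ _ => ?_)
          rw [norm_mul]
          have i1 : ‖ψ ((a : ZMod f)⁻¹)‖ ≤ 1 := ψ.norm_le_one _
          have i2 := nc_bound X hX m f hm ψ
          calc _ ≤ 1 * E := mul_le_mul i1 i2 (norm_nonneg _) zero_le_one
            _ = E := one_mul _
      _ = (∑ f ∈ m.divisors.filter (fun f => f ≠ 1), ((Prim f).card : ℝ)) * E := by
          rw [sum_mul]
          apply sum_congr rfl
          intro f _
          rw [sum_const, nsmul_eq_mul]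
      _ ≤ _ := mul_le_mul_of_nonneg_right h12 hE0
  have h16 : 1 / (Nat.totient m : ℝ) * ‖∑ f ∈ m.divisors.filter (fun f => f ≠ 1),
        ∑ ψ ∈ Prim f, ψ ((a : ZMod f)⁻¹) *
        ∑ n ∈ (Icc 1 ⌊3 * X⌋₊).filter (fun n => ¬ n.Coprime m),
        ((Phi (n / X) * ArithmeticFunction.vonMangoldt n : ℝ) : ℂ) * ψ (n : ZMod f)‖ ≤ E := by
    calc _ ≤ 1 / (Nat.totient m : ℝ) * (Nat.totient m * E) :=
          mul_le_mul_of_nonneg_left h15 (by positivity)
      _ = E := by
          have : (Nat.totient m : ℝ) ≠ 0 := by positivity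
          field_simp
  linarith

end characters

end Pool.Agent.H312R2.RG
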