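import Pool.Agent.H99.GX.H312R2_RG_Defs
import Pool.Graph.R_seed8.H398R2.RK.Rec3

set_option autoImplicit false
set_option maxHeartbeats 4000000

/-! Task RG-COV (helper398): the covering at the record scale. -/

open Finset Filter

namespace Pool.Agent.H312R2.RG

open Pool.Agent.H378R2

/-- the eventual inequalities, in terms of `A = log log X` -/
theorem cov_ev (c : ℝ) (hc : 0 < c) : ∃ A₀ : ℝ, ∀ A : ℝ, A₀ ≤ A → 1 ≤ A ∧ 1 ≤ Real.log A ∧
    2 * Real.log 2 ≤ Real.log A ∧ 1 ≤ Real.log (Real.log A) ∧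
    2 * Real.log 2 ≤ Real.log (Real.log A) ∧ Real.log (Real.log A) ≤ Real.log A ∧
    2 * Real.log 2000 ≤ A ∧ (Real.log A) ^ 2 ≤ c * A ^ 2 ∧ 2000 ≤ Real.exp A := by
  have hlog := Real.tendsto_log_atTop
  have hll : Tendsto (fun A : ℝ => Real.log (Real.log A)) atTop atTop := hlog.comp hlog
  have h1 := Pool.Agent.H398R2.RK.ev_log_le (Real.sqrt c) (Real.sqrt_pos.2 hc)
  have h := ((((((eventually_ge_atTop (1 : ℝ)).and (hlog.eventually_ge_atTop 1)).and
    (hlog.eventually_ge_atTop (2 * Real.log 2))).and (hll.eventually_ge_atTop 1)).and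
    (hll.eventually_ge_atTop (2 * Real.log 2))).and (eventually_ge_atTop (2 * Real.log 2000))).and
    (h1.and (eventually_ge_atTop (2000 : ℝ)))
  obtain ⟨A₀, hA⟩ := eventually_atTop.1 h
  refine ⟨A₀, fun A h0 => ?_⟩
  obtain ⟨⟨⟨⟨⟨⟨a1, a2⟩, a3⟩, a4⟩, a5⟩, a6⟩, a7, a8⟩ := hA A h0
  refine ⟨a1, a2, a3, a4, a5, ?_, a6, ?_, ?_⟩
  · have := Real.log_le_sub_one_of_pos (show 0 < Real.log A by linarith)
    linarith
  · have h2 : (Real.log A) ^ 2 ≤ (Real.sqrt c * Real.sqrt A) ^ 2 := by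
      apply pow_le_pow_left₀ (by linarith) a7
    rw [mul_pow, Real.sq_sqrt hc.le, Real.sq_sqrt (by linarith)] at h2
    nlinarith
  · have := Real.add_one_le_exp A
    linarith

end Pool.Agent.H312R2.RG
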