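import Pool.Graph.R_seed8.H256R2.SC.V1
import Pool.Agent.H99.GX.H256R2_SC_Par
import Pool.Graph.R_seed8.H378R2.M7t
import Pool.Graph.R_seed8.H378R2.LSBV4

set_option autoImplicit false

/-! TEAM RG (helper312): Maynard-Tao inside the record windows of helper256 and helper410.  Definitions. -/

open Finset Filter

namespace Pool.Agent.H312R2.RG

open Pool.Agent.H256R2.SC (Col)

/-! ### the model -/

section
variable {n : ℕ} {κ : Type} [Fintype κ] [DecidableEq κ]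

/-- erase the colours of the indices in `m` -/
def cut (m : Finset (Fin n)) (x : Col n κ) : Col n κ := fun i => if i ∈ m then none else x i

/-- keep only the colours of the indices in `s` -/
def rst (s : Finset (Fin n)) (x : Col n κ) : Col n κ := fun i => if i ∈ s then x i else none

/-- weights of the Fourier bound -/
noncomputable def fw (g : Fin n → ℝ) (s : Finset (Fin n)) (x : Col n κ) : ℝ :=
  ∏ i ∈ s, (if x i = none then (Fintype.card κ : ℝ) * g i / (1 - (Fintype.card κ : ℝ) * g i) else 1)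

/-- weights of the moment bound -/
noncomputable def mw (g : Fin n → ℝ) (s : Finset (Fin n)) (t : ℝ) (k₀ : κ) (x : Col n κ) : ℝ :=
  (∏ i, (if x i = none then 1 else 1 + 2 * g i)) *
    (∏ i ∈ s, ((if x i = none then 0 else 1) + 4 * (Fintype.card κ : ℝ) * g i)) *
    ∏ i, (if x i = some k₀ then 1 + t else 1)

end

/-! ### the sieving primes -/

/-- the primes -/
noncomputable def pP (PP : Finset ℕ) (i : Fin PP.card) : ℝ := ((Pool.Agent.H256R2.SC.emb PP i : ℕ) : ℝ)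

/-- densities `1/p` -/
noncomputable def gP (PP : Finset ℕ) (i : Fin PP.card) : ℝ :=
  1 / ((Pool.Agent.H256R2.SC.emb PP i : ℕ) : ℝ)

/-- densities `1/(p-1)` -/
noncomputable def gQ (PP : Finset ℕ) (i : Fin PP.card) : ℝ :=
  1 / (((Pool.Agent.H256R2.SC.emb PP i : ℕ) : ℝ) - 1)

/-! ### the class sums of the two main sums -/

open Pool.Agent.H378R2
open Pool.Agent.H378R2.LSBV (QQ)

/-- class sums with the weight `Phi`: `G` has mean `M` (times `MPhi X / W`) in all the classes seen by the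
Maynard weights, with errors `err` -/
def ClassA {K : ℕ} (X : ℝ) (W ps : ℕ) (t : Fin K → ℕ) (G : ℤ → ℝ) (M : ℝ) (err : ℕ → ℝ) : Prop :=
  ∀ q b : ℕ, q ∈ QQ W ps ⌊Real.exp (2 * LL X)⌋₊ →
    (∀ p : ℕ, p.Prime → p ∣ q → ∃ j, (p : ℤ) ∣ (b : ℤ) + t j) →
    |∑ n ∈ (Icc 1 ⌊3 * X⌋₊).filter (fun n => n ≡ b [MOD W * q]), Phi (n / X) * G n -
      M * (MPhi X * (1 / W)) * (1 / (q : ℝ))| ≤ err q

/-- class sums with the weight `Phi * Lambda`, at the `i`-th member of the tuple -/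
def ClassB {K : ℕ} (X : ℝ) (W ps : ℕ) (t : Fin K → ℕ) (i : Fin K) (G : ℤ → ℝ) (M : ℝ) (err : ℕ → ℝ) : Prop :=
  ∀ q b : ℕ, q ∈ QQ W ps ⌊Real.exp (2 * LL X)⌋₊ → b.Coprime (W * q) →
    (∀ p : ℕ, p.Prime → p ∣ q → ∃ j, j ≠ i ∧ (p : ℤ) ∣ (b : ℤ) + t j - t i) →
    |∑ n ∈ (Icc 1 ⌊3 * X⌋₊).filter (fun n => n ≡ b [MOD W * q]),
        Phi (n / X) * ArithmeticFunction.vonMangoldt n * G ((n : ℤ) - t i) -
      M * (LPhi X * (1 / W.totient)) * (1 / (q.totient : ℝ))| ≤ err q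

/-- total error -/
noncomputable def tot (K : ℕ) (X : ℝ) (W ps : ℕ) (err : ℕ → ℝ) : ℝ :=
  ∑ q ∈ QQ W ps ⌊Real.exp (2 * LL X)⌋₊, (q.divisors.card : ℝ) ^ (2 * K) * err q

/-- the conclusion of (BV) for given `ps` and `S` -/
def BVat (A : ℕ) (X : ℝ) (W ps : ℕ) : Prop :=
  ∀ b : ℕ → ℕ, (∀ q, 1 ≤ q → (b q).Coprime (W * q)) →
      ∑ q ∈ (Icc 1 ⌊X ^ (1 / 100 : ℝ)⌋₊).filter (fun q => Squarefree q ∧ q.Coprime (W * ps)),
        (q.divisors.card : ℝ) ^ A * |EPhi X (W * q) (b q)|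
        ≤ X / ((Nat.totient W : ℝ) * (Real.log X) ^ A)

/-! ### the interfaces -/

/-- the repelling weights: `V` is a nonnegative function on the integers (the square of a sieve weight), `T` a
nonnegative function such that `T a < 1` forces all `a + k`, `k ∈ U`, to be divisible by medium primes -/
def Weights : Prop := ∀ (K B : ℕ), ∃ (A : ℕ) (c₃ : ℝ), 0 < c₃ ∧ ∀ Z : ℕ, ∀ᶠ X : ℝ in atTop,
  ∀ (ps : ℕ) (S : Finset ℕ), GoodP Z ps → GoodS X S → BVat A X (WW X S ps) ps →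
  ∀ (t : Fin K → ℕ) (U : Finset ℕ), (∀ j, (t j : ℝ) ≤ (Real.log X) ^ 2) → (∀ k ∈ U, (k : ℝ) ≤ (Real.log X) ^ 2) →
    (∀ j, t j ∉ U) → U.Nonempty → (U.card : ℝ) ≤ c₃ * Real.log X →
  ∃ (V T : ℤ → ℝ) (Z₁ M M' M₂ : ℝ) (e₁ e₂ e₃ : ℕ → ℝ),
    (∀ a, 0 ≤ V a ∧ V a ≤ X ^ (1 / 100 : ℝ)) ∧ (∀ a, 0 ≤ T a) ∧
    (∀ a, T a < 1 → ∀ k ∈ U, ∃ p : ℕ, p.Prime ∧ (p : ℝ) ≤ X ^ (1 / 100 : ℝ) ∧ (p : ℤ) ∣ a + k) ∧
    1 ≤ Z₁ ∧ 3 / 4 * Z₁ ≤ M ∧ M ≤ Z₁ ∧ 3 / 4 * M ≤ M' ∧ 0 ≤ M₂ ∧ M₂ ≤ Z₁ / (Real.log X) ^ B ∧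
    (∀ q, 0 ≤ e₁ q ∧ 0 ≤ e₂ q ∧ 0 ≤ e₃ q) ∧
    ClassA X (WW X S ps) ps t V M e₁ ∧ ClassA X (WW X S ps) ps t (fun a => V a * T a) M₂ e₂ ∧
    (∀ i, ClassB X (WW X S ps) ps t i V M' e₃) ∧
    tot K X (WW X S ps) ps e₁ ≤ Z₁ * (X / ((WW X S ps : ℝ) * (Real.log X) ^ B)) ∧
    tot K X (WW X S ps) ps e₂ ≤ Z₁ * (X / ((WW X S ps : ℝ) * (Real.log X) ^ B)) ∧
    tot K X (WW X S ps) ps e₃ ≤ Z₁ * (X / ((WW X S ps : ℝ) * (Real.log X) ^ B))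

/-- the covering at the record scale which keeps a tuple of primes alive -/
def CovR : Prop := ∀ (K : ℕ) (c₃ : ℝ), 0 < c₃ → ∃ c₂ : ℝ, 0 < c₂ ∧ ∃ Z : ℕ, ∃ X0 : ℝ, ∀ X : ℝ, X0 ≤ X →
  ∀ (ps : ℕ) (S : Finset ℕ), GoodP Z ps → GoodS X S → ∀ t : Fin K → ℕ,
  (∀ j, (t j).Prime ∧ yy X < t j ∧ (t j : ℝ) ≤ c₂ * Pool.Agent.H256R2.SC.ff X) →
  ∃ a0 : ℕ, (∀ j, (a0 + t j).Coprime (WW X S ps)) ∧
    (((range (⌊c₂ * Pool.Agent.H256R2.SC.ff X⌋₊ + 1)).filter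
      (fun s => (∀ j, s ≠ t j) ∧ (a0 + s).Coprime (WW X S ps))).card : ℝ) ≤ c₃ * Real.log X

/-- (RG) Maynard-Tao inside the record windows -/
def MTRG : Prop := ∀ r : ℕ, ∃ K : ℕ, r ≤ K ∧ ∃ c : ℝ, 0 < c ∧ ∃ X0 : ℝ, ∀ X : ℝ, X0 ≤ X →
  ∀ t : Fin K → ℕ, Function.Injective t →
  (∀ j, (t j).Prime ∧ yy X < t j ∧ (t j : ℝ) ≤ c * Pool.Agent.H256R2.SC.ff X) →
  ∀ bad : Finset ℕ, (bad.card : ℝ) ≤ X ^ (9 / 10 : ℝ) →
  ∃ n : ℕ, X < n ∧ (n : ℝ) ≤ 3 * X ∧ n ∉ bad ∧ r ≤ ((univ : Finset (Fin K)).filter (fun j => (n + t j).Prime)).card ∧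
    ∀ s : ℕ, (s : ℝ) ≤ c * Pool.Agent.H256R2.SC.ff X → (n + s).Prime → ∃ j, s = t j

end Pool.Agent.H312R2.RG
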