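import Pool.Agent.H99.GX.H312R2_RG_Defs
import Pool.Graph.R_seed8.H256R2.SC.S
import Pool.Graph.R_seed8.H256R2.SC.L
import Pool.Graph.R_seed8.Helper256.KM.Mertens

set_option autoImplicit false

/-! # Task E: the parameters of the repelling weights (helper777) -/

namespace Pool.Agent.H312R2.RG

open Finset Filter
open Pool.Agent.H256R2.SC

/-- largeness conditions -/
theorem ev_par (A B : ℕ) (C₀ CM : ℝ) (hC₀ : 1 ≤ C₀) : ∀ᶠ L : ℝ in atTop,
    1000 ≤ L ∧ 10 ≤ Real.log L ∧ 2 * CM ≤ Real.log L ∧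
    C₀ * A * Real.log L ≤ L ^ (1 / 4 : ℝ) ∧
    1000 * (4 * ((B : ℝ) + 60) * Real.log L + 4) ≤ Real.sqrt L ∧
    6 * Real.exp 1 * L ^ (B + 1) ≤ Real.exp (Real.sqrt L / 2000) := by
  have hlog : ∀ (c r : ℝ), 0 ≤ c → 0 < r → ∀ᶠ L : ℝ in atTop, c * Real.log L ≤ L ^ r := by
    intro c r hc hr
    have e1 := (isLittleO_log_rpow_atTop hr).def (show (0:ℝ) < 1 / (c + 1) by positivity)
    filter_upwards [e1, eventually_ge_atTop (1:ℝ)] with L hL hL1
    have hl0 : 0 ≤ Real.log L := Real.log_nonneg hL1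
    rw [Real.norm_eq_abs, Real.norm_eq_abs, abs_of_nonneg hl0,
      abs_of_nonneg (Real.rpow_nonneg (by linarith) _), div_mul_eq_mul_div, one_mul,
      le_div_iff₀ (by positivity)] at hL
    nlinarith
  have h6 : ∀ᶠ L : ℝ in atTop, 6 * Real.exp 1 * L ^ (B + 1) ≤ Real.exp (Real.sqrt L / 2000) := by
    have e1 := (isLittleO_pow_exp_pos_mul_atTop (k := 2 * (B + 1))
      (show (0:ℝ) < 1 / 2000 by norm_num)).def (show (0:ℝ) < 1 / (6 * Real.exp 1) by positivity)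
    have e2 : Tendsto Real.sqrt atTop atTop := Real.tendsto_sqrt_atTop
    filter_upwards [e2.eventually e1, eventually_ge_atTop (1:ℝ)] with L hL hL1
    have hs : 0 ≤ Real.sqrt L := Real.sqrt_nonneg L
    rw [Real.norm_eq_abs, Real.norm_eq_abs, abs_of_nonneg (by positivity),
      abs_of_nonneg (Real.exp_pos _).le, pow_mul, Real.sq_sqrt (by linarith), div_mul_eq_mul_div,
      one_mul, le_div_iff₀ (by positivity)] at hL
    rw [show Real.sqrt L / 2000 = 1 / 2000 * Real.sqrt L by ring]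
    linarith
  filter_upwards [eventually_ge_atTop (1000:ℝ),
    Real.tendsto_log_atTop.eventually (eventually_ge_atTop 10),
    Real.tendsto_log_atTop.eventually (eventually_ge_atTop (2 * CM)),
    hlog (C₀ * A) (1 / 4) (by positivity) (by norm_num),
    hlog (1000 * (4 * ((B : ℝ) + 60) + 4)) (1 / 2) (by positivity) (by norm_num), h6]
    with L e1 e2 e3 e4 e5 e6
  refine ⟨e1, e2, e3, e4, ?_, e6⟩
  rw [Real.sqrt_eq_rpow]
  nlinarith

/-- the cost of the sieving primes: `∏ p ≤ exp (L / 1000)` forces few primes -/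
theorem card_of_prod {n : ℕ} (p : Fin n → ℝ) (S : Finset (Fin n)) (L : ℝ)
    (hp : ∀ i, Real.exp 1 ≤ p i) (h : ∏ i ∈ S, p i ≤ Real.exp (L / 1000)) :
    (S.card : ℝ) ≤ L / 1000 := by
  have h1 : Real.exp S.card ≤ ∏ i ∈ S, p i := by
    rw [show ((S.card : ℕ) : ℝ) = ∑ _i ∈ S, (1 : ℝ) by simp, Real.exp_sum]
    exact Finset.prod_le_prod (fun _ _ => (Real.exp_pos _).le) fun i _ => hp i
  exact Real.exp_le_exp.1 (h1.trans h)

/-- tail of the sum of the inverse squares -/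
theorem sum_sq_tail (y : ℝ) (hy : 2 ≤ y) (PP : Finset ℕ) (hP : ∀ p ∈ PP, y < (p : ℝ)) :
    ∑ p ∈ PP, (1 / (p : ℝ)) ^ 2 ≤ 2 / y := by
  -- 1/p^2 ≤ 1/(p-1) - 1/p
  have h0 : ∀ M N : ℕ, 1 ≤ M → M ≤ N →
      ∑ p ∈ Finset.Ioc M N, (1 / (p : ℝ)) ^ 2 ≤ 1 / (M : ℝ) - 1 / (N : ℝ) := by
    intro M N hM hMN
    induction N, hMN using Nat.le_induction with
    | base => simp
    | succ N hMN ih =>
      rw [← Finset.insert_Ioc_right_eq_Ioc_add_one (by omega), Finset.sum_insert (by simp)]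
      have hN : (1:ℝ) ≤ N := by exact_mod_cast hM.trans hMN
      have : (1 / ((N + 1 : ℕ) : ℝ)) ^ 2 ≤ 1 / (N : ℝ) - 1 / ((N + 1 : ℕ) : ℝ) := by
        push_cast
        rw [div_sub_div _ _ (by positivity) (by positivity), div_pow, one_pow,
          div_le_div_iff₀ (by positivity) (by positivity)]
        nlinarith
      linarith
  set M : ℕ := ⌊y⌋₊ with hM
  have hM1 : 1 ≤ M := Nat.le_floor (by push_cast; linarith)
  obtain ⟨N, hMN, hN⟩ : ∃ N, M ≤ N ∧ PP ⊆ Finset.Ioc M N := by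
    refine ⟨M + PP.sup id, by omega, fun p hp => ?_⟩
    rw [Finset.mem_Ioc]
    constructor
    · exact (Nat.floor_lt (by linarith)).2 (hP p hp)
    · exact (Finset.le_sup (f := id) hp).trans (by omega)
  have h1 : ∑ p ∈ PP, (1 / (p : ℝ)) ^ 2 ≤ ∑ p ∈ Finset.Ioc M N, (1 / (p : ℝ)) ^ 2 :=
    Finset.sum_le_sum_of_subset_of_nonneg hN fun _ _ _ => by positivity
  have h2 := h0 M N hM1 hMN
  have h3 : (0:ℝ) ≤ 1 / (N : ℝ) := by positivity
  have h4 : y / 2 ≤ M := by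
    have := Nat.lt_floor_add_one y
    rw [← hM] at this
    have h5 : (1:ℝ) ≤ M := by exact_mod_cast hM1
    linarith
  have h6 : 1 / (M : ℝ) ≤ 2 / y := by
    rw [div_le_div_iff₀ (by positivity) (by positivity)]
    linarith
  linarith

/-- sums over the enumeration -/
theorem sum_emb (PP : Finset ℕ) (F : ℕ → ℝ) : ∑ i, F (emb PP i) = ∑ p ∈ PP, F p := by
  have h : PP = univ.map (emb PP) := by
    ext p
    rw [Finset.mem_map]
    constructor
    · intro hp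
      obtain ⟨i, hi⟩ := emb_surj PP hp
      exact ⟨i, Finset.mem_univ _, hi⟩
    · rintro ⟨i, _, rfl⟩
      exact emb_mem PP i
  conv_rhs => rw [h]
  rw [Finset.sum_map]

open Classical in
/-- lower bound for the sums over the scales -/
theorem Asum_ge (c₂ C₀ A l y₁ z x : ℝ) (PP : Finset ℕ) (B : Finset ℕ) (hPP : PP = PS y₁ z B)
    (hAl : c₂ * Real.log x / Real.log y₁ - 1 ≤
      ∑ s ∈ ((PS y₁ z B).powerset.filter (fun s : Finset ℕ => s.Nonempty ∧ ∏ p ∈ s, (p : ℝ) ≤ x)),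
        ∏ p ∈ s, 1 / (p : ℝ)) (j : ℕ) (hx : Real.log x = 2 ^ j * (C₀ * A * l))
    (hy : Real.log y₁ = A * l) (hA : 0 < A) (hl : 0 < l) (hc : 0 < c₂) (hcC : 4 ≤ c₂ * C₀) :
    1 ≤ Asum (pP PP) (gP PP) x ∧
      c₂ / (2 * A * l) * (2 ^ j * (C₀ * A * l)) ≤ Asum (pP PP) (gP PP) x := by
  have h1 : Asum (pP PP) (gP PP) x = ∑ s ∈ (PP.powerset.filter
      (fun s : Finset ℕ => s.Nonempty ∧ ∏ p ∈ s, (p : ℝ) ≤ x)), ∏ p ∈ s, 1 / (p : ℝ) :=
    Asum_enum PP x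
  rw [← hPP, ← h1, hx, hy] at hAl
  have h2 : c₂ * (2 ^ j * (C₀ * A * l)) / (A * l) = c₂ * C₀ * 2 ^ j := by
    field_simp
  have h3 : c₂ / (2 * A * l) * (2 ^ j * (C₀ * A * l)) = c₂ * C₀ * 2 ^ j / 2 := by
    field_simp
  have h4 : (1:ℝ) ≤ 2 ^ j := one_le_pow₀ (by norm_num)
  have h5 : 4 ≤ c₂ * C₀ * 2 ^ j := by nlinarith
  rw [h2] at hAl
  rw [h3]
  constructor <;> linarith

theorem fin1 (L : ℝ) (A B : ℕ) (hA : B + 4 ≤ A) (h1000 : 1000 ≤ L) :
    (2 / L ^ (A - 1)) ^ 2 ≤ 1 / (6 * L ^ (B + 1)) := by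
  have hL : 0 < L := by linarith
  rw [div_pow, ← pow_mul, div_le_div_iff₀ (by positivity) (by positivity)]
  have h1 : L ^ (B + 6) ≤ L ^ ((A - 1) * 2) := pow_le_pow_right₀ (by linarith) (by omega)
  have h2 : L ^ (B + 6) = L ^ (B + 1) * L ^ 5 := by rw [← pow_add]
  have h3 : 1000 ≤ L ^ 5 := by
    calc (1000:ℝ) ≤ L := h1000
      _ = L ^ 1 := (pow_one L).symm
      _ ≤ L ^ 5 := pow_le_pow_right₀ (by linarith) (by norm_num)
  have h4 : 0 < L ^ (B + 1) := by positivity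
  nlinarith

theorem fin2 (L lz c₂ Kc A u lq : ℝ) (B : ℕ) (hu : 1 ≤ u) (h1000 : 1000 ≤ L)
    (hlz1 : 1 ≤ lz) (hlzs : lz ≤ Real.sqrt L) (hc₂ : 0 < c₂) (hKcle : Kc ≤ 32 * A / c₂)
    (huc : u * (128000 * A) ≤ c₂ * L)
    (hexp : 6 * Real.exp 1 * L ^ (B + 1) ≤ Real.exp (Real.sqrt L / 2000))
    (hlq : lq = L / 1000 - lz) :
    Real.exp (2 * u * Kc / lz - lq / lz) ≤ 1 / (6 * L ^ (B + 1)) := by
  have hL : 0 < L := by linarith
  have hsqrt : Real.sqrt L * Real.sqrt L = L := Real.mul_self_sqrt hL.le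
  have h1 : 2 * u * Kc / lz - lq / lz ≤ 1 - Real.sqrt L / 2000 := by
    rw [hlq, ← sub_div, div_le_iff₀ (by linarith)]
    have h2 : 2 * u * Kc ≤ L / 2000 := by
      have h3 : 2 * u * Kc ≤ 2 * u * (32 * A / c₂) :=
        mul_le_mul_of_nonneg_left hKcle (by positivity)
      have h4 : 2 * u * (32 * A / c₂) ≤ L / 2000 := by
        rw [mul_div_assoc', div_le_div_iff₀ hc₂ (by norm_num)]
        linarith
      linarith
    have h5 : Real.sqrt L / 2000 * lz ≤ L / 2000 := by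
      have : Real.sqrt L / 2000 * lz ≤ Real.sqrt L / 2000 * Real.sqrt L :=
        mul_le_mul_of_nonneg_left hlzs (by positivity)
      rw [div_mul_eq_mul_div (Real.sqrt L) 2000 (Real.sqrt L), hsqrt] at this
      exact this
    linarith
  refine (Real.exp_le_exp.2 h1).trans ?_
  rw [Real.exp_sub, div_le_div_iff₀ (Real.exp_pos _) (by positivity)]
  linarith

theorem fin3 (L l S : ℝ) (B J₀ J : ℕ) (hLl : L = Real.exp l) (h1000 : 1000 ≤ L) (hl : 0 < l)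
    (hS : S ≤ l) (hJ1 : ((B : ℝ) + 60) * l ≤ J₀) (hJ : (J : ℝ) = 2 * J₀) :
    (1 / 8 : ℝ) ^ J * Real.exp (50 * S) ≤ 1 / (6 * L ^ (B + 1)) := by
  have hL : 0 < L := by linarith
  have h1 : Real.exp (50 * S) ≤ Real.exp (50 * l) := Real.exp_le_exp.2 (by linarith)
  have h2 : (1 / 8 : ℝ) ^ J ≤ Real.exp (-(2 * (B + 60) * l)) := by
    have h3 : (1 / 8 : ℝ) ≤ Real.exp (-1) := by
      rw [Real.exp_neg, ← one_div]
      apply one_div_le_one_div_of_le (Real.exp_pos _)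
      have : Real.exp 1 < 2.7182818286 := Real.exp_one_lt_d9
      linarith
    calc (1 / 8 : ℝ) ^ J ≤ (Real.exp (-1)) ^ J := pow_le_pow_left₀ (by norm_num) h3 _
      _ = Real.exp (-(J : ℝ)) := by rw [← Real.exp_nat_mul]; congr 1; ring
      _ ≤ _ := by
        apply Real.exp_le_exp.2
        rw [hJ]
        linarith
  have h4 : (1 / 8 : ℝ) ^ J * Real.exp (50 * S) ≤
      Real.exp (-(2 * (B + 60) * l)) * Real.exp (50 * l) :=
    mul_le_mul h2 h1 (Real.exp_pos _).le (Real.exp_pos _).le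
  refine h4.trans ?_
  rw [← Real.exp_add]
  have h5 : Real.exp (-(2 * (B + 60) * l) + 50 * l) ≤ Real.exp (-(((B + 2 : ℕ) : ℝ) * l)) := by
    apply Real.exp_le_exp.2
    push_cast
    have : 0 ≤ (B : ℝ) * l := by positivity
    linarith
  refine h5.trans ?_
  rw [Real.exp_neg, Real.exp_nat_mul, ← hLl, ← one_div]
  apply one_div_le_one_div_of_le (by positivity)
  have h6 : L ^ (B + 2) = L ^ (B + 1) * L := pow_succ _ _
  have h7 : 0 < L ^ (B + 1) := by positivity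
  rw [h6]
  nlinarith

theorem fin_all (L l lz c₂ Kc S A u lq : ℝ) (An B J₀ J : ℕ) (hA : B + 4 ≤ An) (hu : 1 ≤ u)
    (hLl : L = Real.exp l) (h1000 : 1000 ≤ L) (hl : 10 ≤ l)
    (hlz1 : 1 ≤ lz) (hlzs : lz ≤ Real.sqrt L) (hc₂ : 0 < c₂)
    (hKcle : Kc ≤ 32 * A / c₂)
    (huc : u * (128000 * A) ≤ c₂ * L) (hS : S ≤ l) (hJ1 : ((B : ℝ) + 60) * l ≤ J₀)
    (hJ : (J : ℝ) = 2 * J₀) (huL : u ≤ L)
    (hexp : 6 * Real.exp 1 * L ^ (B + 1) ≤ Real.exp (Real.sqrt L / 2000))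
    (hlq : lq = L / 1000 - lz) :
    (u + 1) * ((2 / L ^ (An - 1)) ^ 2 + Real.exp (2 * u * Kc / lz - lq / lz) +
      (1 / 8) ^ J * Real.exp (50 * S)) ≤ 1 / L ^ B := by
  have hL : 0 < L := by linarith
  have p1 := fin1 L An B hA h1000
  have p2 := fin2 L lz c₂ Kc A u lq B hu h1000 hlz1 hlzs hc₂ hKcle huc hexp hlq
  have p3 := fin3 L l S B J₀ J hLl h1000 (by linarith) hS hJ1 hJ
  have p4 : (2 / L ^ (An - 1)) ^ 2 + Real.exp (2 * u * Kc / lz - lq / lz) +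
      (1 / 8) ^ J * Real.exp (50 * S) ≤ 1 / (2 * L ^ (B + 1)) := by
    have : 1 / (2 * L ^ (B + 1)) = 3 * (1 / (6 * L ^ (B + 1))) := by
      field_simp
      norm_num
    rw [this]
    linarith
  calc _ ≤ (2 * L) * (1 / (2 * L ^ (B + 1))) :=
        mul_le_mul (by linarith) p4 (by positivity) (by positivity)
    _ = 1 / L ^ B := by
      rw [pow_succ]
      field_simp

end Pool.Agent.H312R2.RG
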