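import Pool.Graph.R_seed8.H256R2.SC.J
import Pool.Agent.H99.GX.H312R2_RG_Defs

set_option autoImplicit false

/-! Task RG-M1 (helper273): weighted second moment of the sieve weight -/

open Finset

namespace Pool.Agent.H312R2.RG

open Pool.Agent.H256R2.SC

variable {n : ℕ} {κ : Type} [Fintype κ] [DecidableEq κ]

/-- local weights of the moment bound -/
noncomputable def m1G (g t : ℝ) (b : Prop) [Decidable b] (k₀ : κ) (c : Option κ) : ℝ :=
  (if c = none then 1 else 1 + 2 * g) *
    (if b then ((if c = none then 0 else 1) + 4 * (Fintype.card κ : ℝ) * g) else 1) *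
    (if c = some k₀ then 1 + t else 1)

/-- local bound on the coordinates in `s` -/
noncomputable def m1s (κ : Type) [Fintype κ] (g t : ℝ) (c : Option κ) : ℝ :=
  match c with
  | none => 20 * (1 + t) * (Fintype.card κ : ℝ) * g
  | some _ => 8 * (1 + t) * g

/-- the local bounds -/
noncomputable def m1b (g t : ℝ) (b : Prop) [Decidable b] (k₀ : κ) (c : Option κ) : ℝ :=
  if b then m1s κ g t c else (1 + 6 * g) * bet g t k₀ c

theorem m1_facts (g : ℝ) (hg : 0 ≤ g) (hug : 4 * (Fintype.card κ : ℝ) * g ≤ 1)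
    (Y : Option κ → ℝ) :
    (Y none - g * ∑ k, Y (some k)) ^ 2 ≤
      2 * (Y none) ^ 2 + g / 2 * ∑ k, (Y (some k)) ^ 2 ∧
    ∑ l, ((Y none - g * ∑ k, Y (some k)) + Y (some l)) ^ 2 ≤
      4 * (Fintype.card κ : ℝ) * (Y none) ^ 2 + 9 / 4 * ∑ k, (Y (some k)) ^ 2 := by
  set S := ∑ k, Y (some k) with hS
  set P := ∑ k, (Y (some k)) ^ 2 with hP
  set u : ℝ := (Fintype.card κ : ℝ) with hu
  have hu0 : 0 ≤ u := Nat.cast_nonneg _
  have hP0 : 0 ≤ P := sum_nonneg fun k _ => sq_nonneg _
  have h1 : S ^ 2 ≤ u * P := by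
    have := sq_sum_le_card_mul_sum_sq (s := (univ : Finset κ)) (f := fun k => Y (some k))
    rwa [card_univ] at this
  have h2 : g ^ 2 * S ^ 2 ≤ g ^ 2 * (u * P) := mul_le_mul_of_nonneg_left h1 (sq_nonneg _)
  have h3 : 4 * u * g * (g * P) ≤ 1 * (g * P) :=
    mul_le_mul_of_nonneg_right hug (mul_nonneg hg hP0)
  have hA : (Y none - g * S) ^ 2 ≤ 2 * (Y none) ^ 2 + g / 2 * P := by
    have : (Y none - g * S) ^ 2 ≤ 2 * (Y none) ^ 2 + 2 * (g ^ 2 * S ^ 2) := by
      linarith [sq_nonneg (Y none + g * S), show (Y none - g * S) ^ 2 + (Y none + g * S) ^ 2 =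
        2 * (Y none) ^ 2 + 2 * (g ^ 2 * S ^ 2) by ring]
    linarith [this, h2, h3, show 4 * u * g * (g * P) = 4 * (g ^ 2 * (u * P)) by ring]
  refine ⟨hA, ?_⟩
  set A := Y none - g * S with hAd
  have h4 : ∑ l, (A + Y (some l)) ^ 2 ≤ ∑ l, (2 * A ^ 2 + 2 * (Y (some l)) ^ 2) :=
    sum_le_sum fun l _ => by
      linarith [sq_nonneg (A - Y (some l)), show (A + Y (some l)) ^ 2 + (A - Y (some l)) ^ 2 =
        2 * A ^ 2 + 2 * (Y (some l)) ^ 2 by ring]
  have h5 : ∑ l : κ, (2 * A ^ 2 + 2 * (Y (some l)) ^ 2) = 2 * u * A ^ 2 + 2 * P := by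
    rw [sum_add_distrib, sum_const, card_univ, nsmul_eq_mul, ← mul_sum]
    ring
  have h6 : 2 * u * A ^ 2 ≤ 2 * u * (2 * (Y none) ^ 2 + g / 2 * P) :=
    mul_le_mul_of_nonneg_left hA (by linarith)
  have h7 : 4 * u * g * P ≤ 1 * P := mul_le_mul_of_nonneg_right hug hP0
  rw [h5] at h4
  linarith [h4, h6, h7, show 2 * u * (2 * (Y none) ^ 2 + g / 2 * P) =
    4 * u * (Y none) ^ 2 + 4 * u * g * P / 4 by ring]

theorem m1_local_in (g t : ℝ) (hg : 0 ≤ g) (ht : 0 ≤ t)
    (hug : 4 * (Fintype.card κ : ℝ) * g ≤ 1) (k₀ : κ) (Y : Option κ → ℝ) :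
    ∑ c, wt g c * ((if c = none then 1 else 1 + 2 * g) *
      ((if c = none then 0 else 1) + 4 * (Fintype.card κ : ℝ) * g) *
      (if c = some k₀ then 1 + t else 1)) * (∑ a, psi1 g a c * Y a) ^ 2 ≤
      ∑ a, m1s κ g t a * (Y a) ^ 2 := by
  obtain ⟨f1, f2⟩ := m1_facts g hg hug Y
  have hu1 : 1 ≤ (Fintype.card κ : ℝ) := by
    have : 0 < Fintype.card κ := Fintype.card_pos_iff.mpr ⟨k₀⟩
    exact_mod_cast this
  set u : ℝ := (Fintype.card κ : ℝ) with hu
  have hug0 : 0 ≤ u * g := mul_nonneg (by linarith) hg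
  have hg4 : g ≤ 1 / 4 := by
    have : 1 * g ≤ u * g := mul_le_mul_of_nonneg_right hu1 hg
    linarith
  rw [Fintype.sum_option, inner_none, Fintype.sum_option]
  simp only [inner_some]
  set S := ∑ k, Y (some k) with hS
  set P := ∑ k, (Y (some k)) ^ 2 with hP
  set A := Y none - g * S with hA
  have hP0 : 0 ≤ P := sum_nonneg fun k _ => sq_nonneg _
  have hc : ∀ l : κ, wt g (some l) * ((if (some l : Option κ) = none then 1 else 1 + 2 * g) *
      ((if (some l : Option κ) = none then 0 else 1) + 4 * u * g) *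
      (if some l = some k₀ then 1 + t else 1)) * (A + Y (some l)) ^ 2 ≤
      3 * (1 + t) * g * (A + Y (some l)) ^ 2 := by
    intro l
    refine mul_le_mul_of_nonneg_right ?_ (sq_nonneg _)
    simp only [wt, reduceCtorEq, if_false]
    have e1 : (1 + 2 * g) * (1 + 4 * u * g) ≤ 3 := by
      calc (1 + 2 * g) * (1 + 4 * u * g) ≤ (3 / 2) * 2 := by
            apply mul_le_mul
            · linarith
            · linarith
            · linarith
            · norm_num
        _ = 3 := by norm_num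
    have e2 : (if some l = some k₀ then 1 + t else 1) ≤ 1 + t := by
      split_ifs <;> linarith
    have e3 : (1 + 2 * g) * (1 + 4 * u * g) * (if some l = some k₀ then 1 + t else 1) ≤
        3 * (1 + t) := by
      apply mul_le_mul e1 e2
      · split_ifs <;> linarith
      · norm_num
    calc g * ((1 + 2 * g) * (1 + 4 * u * g) * (if some l = some k₀ then 1 + t else 1)) ≤
        g * (3 * (1 + t)) := mul_le_mul_of_nonneg_left e3 hg
      _ = 3 * (1 + t) * g := by ring
  have hn : wt g (none : Option κ) * ((if (none : Option κ) = none then 1 else 1 + 2 * g) *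
      ((if (none : Option κ) = none then 0 else 1) + 4 * u * g) *
      (if (none : Option κ) = some k₀ then 1 + t else 1)) * A ^ 2 ≤ 4 * u * g * A ^ 2 := by
    refine mul_le_mul_of_nonneg_right ?_ (sq_nonneg _)
    simp only [wt, reduceCtorEq, if_false, if_true]
    have : (1 - u * g) * (4 * u * g) ≤ 1 * (4 * u * g) :=
      mul_le_mul_of_nonneg_right (by linarith) (by linarith)
    linarith
  have hsum : ∑ l : κ, wt g (some l) * ((if (some l : Option κ) = none then 1 else 1 + 2 * g) *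
      ((if (some l : Option κ) = none then 0 else 1) + 4 * u * g) *
      (if some l = some k₀ then 1 + t else 1)) * (A + Y (some l)) ^ 2 ≤
      3 * (1 + t) * g * ∑ l, (A + Y (some l)) ^ 2 := by
    rw [mul_sum]
    exact sum_le_sum fun l _ => hc l
  have hR : ∑ k : κ, m1s κ g t (some k) * (Y (some k)) ^ 2 = 8 * (1 + t) * g * P := by
    simp only [m1s]
    rw [← mul_sum]
  rw [hR]
  simp only [m1s]
  have k1 : 4 * u * g * A ^ 2 ≤ 4 * u * g * (2 * (Y none) ^ 2 + g / 2 * P) :=
    mul_le_mul_of_nonneg_left f1 (by linarith)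
  have k2 : 3 * (1 + t) * g * ∑ l, (A + Y (some l)) ^ 2 ≤
      3 * (1 + t) * g * (4 * u * (Y none) ^ 2 + 9 / 4 * P) :=
    mul_le_mul_of_nonneg_left f2 (by positivity)
  have k3 : 4 * u * g * (g * P) ≤ 1 * (g * P) :=
    mul_le_mul_of_nonneg_right hug (mul_nonneg hg hP0)
  have k4 : 0 ≤ t * (u * g) * (Y none) ^ 2 := by positivity
  have k5 : 0 ≤ t * g * P := by positivity
  have k6 : 0 ≤ g * P := by positivity
  calc _ ≤ 4 * u * g * (2 * (Y none) ^ 2 + g / 2 * P) +
        3 * (1 + t) * g * (4 * u * (Y none) ^ 2 + 9 / 4 * P) :=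
        add_le_add (hn.trans k1) (hsum.trans k2)
    _ ≤ _ := by
      linarith [k3, k4, k5, k6, show 4 * u * g * (2 * (Y none) ^ 2 + g / 2 * P) +
        3 * (1 + t) * g * (4 * u * (Y none) ^ 2 + 9 / 4 * P) =
        20 * (1 + t) * u * g * (Y none) ^ 2 - 8 * (t * (u * g) * (Y none) ^ 2) +
        4 * u * g * (g * P) / 2 + 27 / 4 * (g * P) + 27 / 4 * (t * g * P) by ring,
        show 8 * (1 + t) * g * P = 8 * (g * P) + 8 * (t * g * P) by ring]

theorem m1_local_out (g t : ℝ) (hg : 0 ≤ g) (ht : 0 ≤ t) (htg : 3 * t * g ≤ 1)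
    (hug : 4 * (Fintype.card κ : ℝ) * g ≤ 1) (k₀ : κ) (Y : Option κ → ℝ) :
    ∑ c, wt g c * ((if c = none then 1 else 1 + 2 * g) * 1 *
      (if c = some k₀ then 1 + t else 1)) * (∑ a, psi1 g a c * Y a) ^ 2 ≤
      ∑ a, (1 + 6 * g) * bet g t k₀ a * (Y a) ^ 2 := by
  obtain ⟨f1, f2⟩ := m1_facts g hg hug Y
  have hloc := local_wt g t hg ht htg k₀ Y
  have hu1 : 1 ≤ (Fintype.card κ : ℝ) := by
    have : 0 < Fintype.card κ := Fintype.card_pos_iff.mpr ⟨k₀⟩
    exact_mod_cast this
  set u : ℝ := (Fintype.card κ : ℝ) with hu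
  set S := ∑ k, Y (some k) with hS
  set P := ∑ k, (Y (some k)) ^ 2 with hP
  set A := Y none - g * S with hA
  have hP0 : 0 ≤ P := sum_nonneg fun k _ => sq_nonneg _
  -- split
  have hsplit : ∑ c, wt g c * ((if c = none then 1 else 1 + 2 * g) * 1 *
      (if c = some k₀ then 1 + t else 1)) * (∑ a, psi1 g a c * Y a) ^ 2 =
      (∑ c, wt g c * (if c = some k₀ then 1 + t else 1) * (∑ a, psi1 g a c * Y a) ^ 2) +
      2 * g ^ 2 * (∑ l, (A + Y (some l)) ^ 2 + t * (A + Y (some k₀)) ^ 2) := by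
    rw [Fintype.sum_option, inner_none, Fintype.sum_option, inner_none]
    simp only [inner_some, wt, reduceCtorEq, if_false, if_true, one_mul, mul_one]
    have h1 : ∀ l : κ, g * ((1 + 2 * g) * (if some l = some k₀ then 1 + t else 1)) *
        (Y none - g * S + Y (some l)) ^ 2 =
        g * (if some l = some k₀ then 1 + t else 1) * (Y none - g * S + Y (some l)) ^ 2 +
        2 * g ^ 2 * ((A + Y (some l)) ^ 2 +
          (if l = k₀ then t * (A + Y (some k₀)) ^ 2 else 0)) := by
      intro l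
      by_cases hl : l = k₀
      · subst hl
        simp only [if_true]
        ring
      · have hl' : ¬ (some l = some k₀) := fun e => hl (Option.some.inj e)
        simp only [if_neg hl, if_neg hl']
        ring
    rw [sum_congr rfl (fun l _ => h1 l), sum_add_distrib, ← mul_sum, sum_add_distrib,
      sum_ite_eq' univ k₀, if_pos (mem_univ _)]
    ring
  have hbet : ∑ a, bet g t k₀ a * (Y a) ^ 2 = (1 + 3 * t * g) * (Y none) ^ 2 +
      g * P + 3 * t * g * (Y (some k₀)) ^ 2 := by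
    rw [Fintype.sum_option]
    simp only [bet]
    have h1 : ∀ k : κ, (if k = k₀ then (1 + 3 * t) * g else g) * (Y (some k)) ^ 2 =
        g * (Y (some k)) ^ 2 + (if k = k₀ then 3 * t * g * (Y (some k)) ^ 2 else 0) := by
      intro k
      split_ifs
      · ring
      · ring
    rw [sum_congr rfl (fun k _ => h1 k), sum_add_distrib, sum_ite_eq' univ k₀,
      if_pos (mem_univ _), ← mul_sum]
    ring
  have hR : ∑ a, (1 + 6 * g) * bet g t k₀ a * (Y a) ^ 2 =
      (1 + 6 * g) * ∑ a, bet g t k₀ a * (Y a) ^ 2 := by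
    rw [mul_sum]
    exact sum_congr rfl fun a _ => by ring
  have hA2 : (A + Y (some k₀)) ^ 2 ≤ 4 * (Y none) ^ 2 + g * P + 2 * (Y (some k₀)) ^ 2 := by
    linarith [f1, sq_nonneg (A - Y (some k₀)), show (A + Y (some k₀)) ^ 2 +
      (A - Y (some k₀)) ^ 2 = 2 * A ^ 2 + 2 * (Y (some k₀)) ^ 2 by ring]
  have hextra : 2 * g ^ 2 * (∑ l, (A + Y (some l)) ^ 2 + t * (A + Y (some k₀)) ^ 2) ≤
      6 * g * ((1 + 3 * t * g) * (Y none) ^ 2 + g * P + 3 * t * g * (Y (some k₀)) ^ 2) := by
    have e1 : 2 * g ^ 2 * (∑ l, (A + Y (some l)) ^ 2 + t * (A + Y (some k₀)) ^ 2) ≤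
        2 * g ^ 2 * ((4 * u * (Y none) ^ 2 + 9 / 4 * P) +
          t * (4 * (Y none) ^ 2 + g * P + 2 * (Y (some k₀)) ^ 2)) := by
      apply mul_le_mul_of_nonneg_left _ (by positivity)
      exact add_le_add f2 (mul_le_mul_of_nonneg_left hA2 ht)
    have y1 : 4 * u * g * (g * (Y none) ^ 2) ≤ 1 * (g * (Y none) ^ 2) :=
      mul_le_mul_of_nonneg_right hug (by positivity)
    have y2 : 3 * t * g * (g * (Y none) ^ 2) ≤ 1 * (g * (Y none) ^ 2) :=
      mul_le_mul_of_nonneg_right htg (by positivity)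
    have y3 : 3 * t * g * (g ^ 2 * P) ≤ 1 * (g ^ 2 * P) :=
      mul_le_mul_of_nonneg_right htg (by positivity)
    have y4 : 0 ≤ t * g ^ 2 * (Y (some k₀)) ^ 2 := by positivity
    have y5 : 0 ≤ t * g ^ 2 * (Y none) ^ 2 := by positivity
    have y6 : 0 ≤ g * (Y none) ^ 2 := by positivity
    have y7 : 0 ≤ g ^ 2 * P := by positivity
    refine e1.trans ?_
    linarith [y1, y2, y3, y4, y5, y6, y7,
      show 2 * g ^ 2 * ((4 * u * (Y none) ^ 2 + 9 / 4 * P) +
          t * (4 * (Y none) ^ 2 + g * P + 2 * (Y (some k₀)) ^ 2)) =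
        2 * (4 * u * g * (g * (Y none) ^ 2)) + 9 / 2 * (g ^ 2 * P) +
        8 / 3 * (3 * t * g * (g * (Y none) ^ 2)) + 2 / 3 * (3 * t * g * (g ^ 2 * P)) +
        4 * (t * g ^ 2 * (Y (some k₀)) ^ 2) by ring,
      show 6 * g * ((1 + 3 * t * g) * (Y none) ^ 2 + g * P + 3 * t * g * (Y (some k₀)) ^ 2) =
        6 * (g * (Y none) ^ 2) + 18 * (t * g ^ 2 * (Y none) ^ 2) + 6 * (g ^ 2 * P) +
        18 * (t * g ^ 2 * (Y (some k₀)) ^ 2) by ring]
  rw [hsplit, hR, add_mul, one_mul]
  apply add_le_add hloc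
  rw [hbet]
  exact hextra

theorem m1_local (g t : ℝ) (hg : 0 ≤ g) (ht : 0 ≤ t) (htg : 3 * t * g ≤ 1)
    (hug : 4 * (Fintype.card κ : ℝ) * g ≤ 1) (b : Prop) [Decidable b] (k₀ : κ)
    (Y : Option κ → ℝ) :
    ∑ c, wt g c * m1G g t b k₀ c * (∑ a, psi1 g a c * Y a) ^ 2 ≤
      ∑ a, m1b g t b k₀ a * (Y a) ^ 2 := by
  by_cases hb : b
  · have h := m1_local_in g t hg ht hug k₀ Y
    simp only [m1G, m1b, if_pos hb]
    exact h
  · have h := m1_local_out g t hg ht htg hug k₀ Y
    simp only [m1G, m1b, if_neg hb]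
    exact h

theorem m1_yy_cut {h : Finset (Fin n) → ℝ} (h0 : ∀ s, 0 ≤ h s) (h1 : ∀ s, h s ≤ 1)
    (anti : ∀ s t, s.Nonempty → s ⊆ t → h t ≤ h s) (s : Finset (Fin n))
    (D : Col n κ) : (yy h D) ^ 2 ≤ (yy h (cut s D)) ^ 2 := by
  unfold yy
  rw [← prod_pow, ← prod_pow]
  apply prod_le_prod
  · intro l _
    positivity
  · intro l _
    have hsub : fib (cut s D) l ⊆ fib D l := by
      intro i hi
      rw [TaskF.mem_fib] at hi ⊢
      unfold cut at hi
      by_cases his : i ∈ s
      · simp [his] at hi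
      · simpa [his] using hi
    by_cases he : fib (cut s D) l = ∅
    · rw [he]
      simpa [al] using TaskF.al_sq_le h0 h1 (fib D l)
    · have hne : (fib (cut s D) l).Nonempty := Finset.nonempty_iff_ne_empty.mpr he
      have hne2 : fib D l ≠ ∅ := (hne.mono hsub).ne_empty
      have e : ∀ r : Finset (Fin n), r ≠ ∅ → (al h r) ^ 2 = (h r) ^ 2 := by
        intro r hr
        unfold al
        rw [if_neg hr, neg_sq, mul_pow, ← pow_mul, mul_comm r.card 2, pow_mul]
        norm_num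
      rw [e _ he, e _ hne2]
      exact pow_le_pow_left₀ (h0 _) (anti _ _ hne hsub) 2

theorem m1_inj (s : Finset (Fin n)) :
    Function.Injective (fun D : Col n κ => (cut s D, rst s D)) := by
  intro D E hDE
  simp only [Prod.mk.injEq] at hDE
  obtain ⟨h1, h2⟩ := hDE
  funext i
  by_cases hi : i ∈ s
  · have := congrFun h2 i
    simpa [rst, hi] using this
  · have := congrFun h1 i
    simpa [cut, hi] using this

theorem m1s_nonneg (g t : ℝ) (hg : 0 ≤ g) (ht : 0 ≤ t) (c : Option κ) : 0 ≤ m1s κ g t c := by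
  unfold m1s
  split <;> positivity

theorem m1bet_nonneg (g t : ℝ) (hg : 0 ≤ g) (ht : 0 ≤ t) (k₀ : κ) (c : Option κ) :
    0 ≤ bet g t k₀ c := by
  unfold bet
  split
  · positivity
  · split <;> positivity

/-- Task M1: weighted second moment of the sieve weight -/
theorem moment {p g : Fin n → ℝ} {h : Finset (Fin n) → ℝ} {z K : ℝ} (H : Hyp p g h z K)
    (Q t : ℝ) (ht : 0 ≤ t) (htg : ∀ i, 3 * t * g i ≤ 1)
    (hug : ∀ i, 4 * (Fintype.card κ : ℝ) * g i ≤ 1) (k₀ : κ) (s : Finset (Fin n)) :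
    EE g (fun x : Col n κ => mw g s t k₀ x * (VV g (yT p h Q) x) ^ 2) ≤
      (∏ i ∈ s, 30 * (1 + t) * (Fintype.card κ : ℝ) * g i) * Real.exp ((8 + 6 * t) * ∑ i, g i) *
        Zs κ g h := by
  have g0 : ∀ i, 0 ≤ g i := fun i => (H.g0 i).le
  have hu0 : 0 ≤ (Fintype.card κ : ℝ) := Nat.cast_nonneg _
  have hw : ∀ i (c : Option κ), 0 ≤ wt (g i) c := by
    intro i c
    apply wt_nonneg (g0 i)
    have := hug i
    have h2 : 0 ≤ (Fintype.card κ : ℝ) * g i := mul_nonneg hu0 (g0 i)
    linarith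
  -- step 1: tensorisation
  have hmw : ∀ x : Col n κ, mw g s t k₀ x = ∏ i, m1G (g i) t (i ∈ s) k₀ (x i) := by
    intro x
    unfold mw m1G
    rw [prod_mul_distrib, prod_mul_distrib]
    congr 2
    rw [Finset.prod_ite_mem, Finset.univ_inter]
  have hG0 : ∀ i (c : Option κ), 0 ≤ m1G (g i) t (i ∈ s) k₀ c := by
    intro i c
    have hg := g0 i
    have hug0 : 0 ≤ 4 * (Fintype.card κ : ℝ) * g i := by positivity
    unfold m1G
    apply mul_nonneg
    · apply mul_nonneg
      · split_ifs <;> linarith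
      · split_ifs <;> linarith
    · split_ifs <;> linarith
  have hb0 : ∀ i (c : Option κ), 0 ≤ m1b (g i) t (i ∈ s) k₀ c := by
    intro i c
    have hg := g0 i
    unfold m1b
    split_ifs
    · exact m1s_nonneg _ _ hg ht c
    · exact mul_nonneg (by linarith) (m1bet_nonneg _ _ hg ht k₀ c)
  have step1 := tensor_upper g (fun i => m1G (g i) t (i ∈ s) k₀) (fun i => m1b (g i) t (i ∈ s) k₀)
    hw hG0 hb0 (fun i Y => m1_local (g i) t (g0 i) ht (htg i) (hug i) (i ∈ s) k₀ Y)
    (yT p h Q : Col n κ → ℝ)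
  have step1' : EE g (fun x : Col n κ => mw g s t k₀ x * (VV g (yT p h Q) x) ^ 2) ≤
      ∑ D : Col n κ, (∏ i, m1b (g i) t (i ∈ s) k₀ (D i)) * (yT p h Q D) ^ 2 := by
    simp only [hmw]
    exact step1
  refine step1'.trans ?_
  -- step 2: termwise bound
  let W : Col n κ → ℝ := fun E => ∏ i, (if i ∈ s then m1s κ (g i) t (E i) else 1)
  let F : Col n κ → ℝ := fun E => (∏ i, ((1 + 6 * g i) * bet (g i) t k₀ (E i))) * (yy h E) ^ 2
  have hW0 : ∀ E, 0 ≤ W E := by
    intro E
    refine prod_nonneg fun i _ => ?_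
    split_ifs
    · exact m1s_nonneg _ _ (g0 i) ht _
    · norm_num
  have hF0 : ∀ E, 0 ≤ F E := by
    intro E
    refine mul_nonneg (prod_nonneg fun i _ => mul_nonneg ?_ (m1bet_nonneg _ _ (g0 i) ht _ _))
      (sq_nonneg _)
    have := g0 i
    linarith
  have hterm : ∀ D : Col n κ, (∏ i, m1b (g i) t (i ∈ s) k₀ (D i)) * (yT p h Q D) ^ 2 ≤
      F (cut s D) * W (rst s D) := by
    intro D
    have hy : (yT p h Q D) ^ 2 ≤ (yy h (cut s D)) ^ 2 := by
      refine le_trans ?_ (m1_yy_cut H.h0 H.h1 H.anti s D)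
      unfold yT
      split_ifs
      · exact le_refl _
      · have := sq_nonneg (yy h D)
        simpa using this
    have hb : (∏ i, m1b (g i) t (i ∈ s) k₀ (D i)) ≤
        (∏ i, ((1 + 6 * g i) * bet (g i) t k₀ (cut s D i))) * W (rst s D) := by
      simp only [W]
      rw [← prod_mul_distrib]
      apply prod_le_prod
      · intro i _
        exact hb0 i _
      · intro i _
        have hg := g0 i
        unfold m1b cut rst
        by_cases hi : i ∈ s
        · simp only [if_pos hi]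
          have e1 := m1s_nonneg (κ := κ) (g i) t hg ht (D i)
          have e2 : 1 ≤ (1 + 6 * g i) * bet (g i) t k₀ none := by
            simp only [bet]
            have e3 : 1 ≤ 1 + 6 * g i := by linarith
            have e4 : 1 ≤ 1 + 3 * t * g i := by
              have : 0 ≤ 3 * t * g i := by positivity
              linarith
            calc (1 : ℝ) = 1 * 1 := by norm_num
              _ ≤ _ := mul_le_mul e3 e4 (by norm_num) (by linarith)
          calc m1s κ (g i) t (D i) = 1 * m1s κ (g i) t (D i) := (one_mul _).symm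
            _ ≤ _ := mul_le_mul_of_nonneg_right e2 e1
        · simp only [if_neg hi, mul_one]
          exact le_refl _
    calc (∏ i, m1b (g i) t (i ∈ s) k₀ (D i)) * (yT p h Q D) ^ 2
        ≤ ((∏ i, ((1 + 6 * g i) * bet (g i) t k₀ (cut s D i))) * W (rst s D)) *
          (yy h (cut s D)) ^ 2 := by
          apply mul_le_mul hb hy (sq_nonneg _)
          refine mul_nonneg (prod_nonneg fun i _ => mul_nonneg ?_
            (m1bet_nonneg _ _ (g0 i) ht _ _)) (hW0 _)
          have := g0 i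
          linarith
      _ = F (cut s D) * W (rst s D) := by simp only [F]; ring
  -- step 3: sum
  let T : Fin n → Finset (Option κ) := fun i => if i ∈ s then univ else {none}
  have hsum : ∑ D : Col n κ, F (cut s D) * W (rst s D) ≤
      (∑ D : Col n κ, F D) * ∑ E ∈ Fintype.piFinset T, W E := by
    rw [sum_mul_sum, ← sum_product']
    have e : ∑ D : Col n κ, F (cut s D) * W (rst s D) =
        ∑ x ∈ univ.image (fun D : Col n κ => (cut s D, rst s D)), F x.1 * W x.2 := by
      rw [sum_image]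
      intro a _ b _ hab
      exact m1_inj s hab
    rw [e]
    apply sum_le_sum_of_subset_of_nonneg
    · intro x hx
      rw [mem_image] at hx
      obtain ⟨D, _, rfl⟩ := hx
      rw [mem_product]
      refine ⟨mem_univ _, ?_⟩
      rw [Fintype.mem_piFinset]
      intro i
      by_cases hi : i ∈ s
      · simp [T, hi]
      · simp [T, hi, rst]
    · intro x _ _
      exact mul_nonneg (hF0 _) (hW0 _)
  have hWs : ∑ E ∈ Fintype.piFinset T, W E =
      ∏ i ∈ s, (28 * (1 + t) * (Fintype.card κ : ℝ) * g i) := by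
    simp only [W]
    rw [← Finset.prod_univ_sum T (fun i c => if i ∈ s then m1s κ (g i) t c else 1)]
    rw [← Finset.prod_ite_mem_eq s (fun i => 28 * (1 + t) * (Fintype.card κ : ℝ) * g i)]
    refine prod_congr rfl fun i _ => ?_
    by_cases hi : i ∈ s
    · simp only [T, if_pos hi]
      rw [Fintype.sum_option]
      simp only [m1s, sum_const, card_univ, nsmul_eq_mul]
      ring
    · simp only [T, if_neg hi, sum_singleton]
  have hFs : ∑ D : Col n κ, F D = (∏ i, (1 + 6 * g i)) *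
      ∑ D : Col n κ, (∏ i, bet (g i) t k₀ (D i)) * (yy h D) ^ 2 := by
    rw [mul_sum]
    refine sum_congr rfl fun D _ => ?_
    simp only [F]
    rw [prod_mul_distrib]
    ring
  have hws := weighted_sum (κ := κ) H t ht k₀
  have e1 : ∏ i, (1 + 6 * g i) ≤ Real.exp (6 * ∑ i, g i) := by
    rw [mul_sum, Real.exp_sum]
    apply prod_le_prod
    · intro i _
      have := g0 i
      positivity
    · intro i _
      have := Real.add_one_le_exp (6 * g i)
      linarith
  have hnu0 : ∀ D : Col n κ, 0 ≤ nu g D := by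
    intro D
    refine prod_nonneg fun i _ => ?_
    unfold nu1
    split
    · norm_num
    · exact g0 i
  have hZ0 : 0 ≤ Zs κ g h := sum_nonneg fun D _ => mul_nonneg (sq_nonneg _) (hnu0 D)
  have hFs2 : ∑ D : Col n κ, F D ≤ Real.exp ((8 + 6 * t) * ∑ i, g i) * Zs κ g h := by
    rw [hFs]
    calc _ ≤ Real.exp (6 * ∑ i, g i) * (Real.exp ((2 + 6 * t) * ∑ i, g i) * Zs κ g h) := by
          apply mul_le_mul e1 hws _ (Real.exp_pos _).le
          exact sum_nonneg fun D _ => mul_nonneg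
            (prod_nonneg fun i _ => m1bet_nonneg _ _ (g0 i) ht _ _) (sq_nonneg _)
      _ = Real.exp ((8 + 6 * t) * ∑ i, g i) * Zs κ g h := by
          rw [← mul_assoc, ← Real.exp_add]
          congr 2
          ring
  have hpr : ∏ i ∈ s, (28 * (1 + t) * (Fintype.card κ : ℝ) * g i) ≤
      ∏ i ∈ s, (30 * (1 + t) * (Fintype.card κ : ℝ) * g i) := by
    apply prod_le_prod
    · intro i _
      have := g0 i
      positivity
    · intro i _
      have h1 : 0 ≤ (1 + t) * (Fintype.card κ : ℝ) * g i := by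
        have := g0 i
        positivity
      linarith
  have hpr0 : 0 ≤ ∏ i ∈ s, (28 * (1 + t) * (Fintype.card κ : ℝ) * g i) := by
    refine prod_nonneg fun i _ => ?_
    have := g0 i
    positivity
  calc ∑ D : Col n κ, (∏ i, m1b (g i) t (i ∈ s) k₀ (D i)) * (yT p h Q D) ^ 2
      ≤ ∑ D : Col n κ, F (cut s D) * W (rst s D) := sum_le_sum fun D _ => hterm D
    _ ≤ (∑ D : Col n κ, F D) * ∑ E ∈ Fintype.piFinset T, W E := hsum
    _ ≤ (Real.exp ((8 + 6 * t) * ∑ i, g i) * Zs κ g h) *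
        ∏ i ∈ s, (30 * (1 + t) * (Fintype.card κ : ℝ) * g i) := by
        rw [hWs]
        apply mul_le_mul hFs2 hpr hpr0
        exact mul_nonneg (Real.exp_pos _).le hZ0
    _ = _ := by ring

end Pool.Agent.H312R2.RG
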