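import Pool.Agent.H99.GX.H312R2_RG_Defs
import Pool.Graph.R_seed8.H256R2.SC.H3

set_option autoImplicit false
set_option linter.unusedVariables false
set_option linter.unusedSectionVars false

/-! TEAM RG, task V1 (helper778): class sums with the weight `Phi` of a function of the colouring. -/

open Finset Filter

namespace Pool.Agent.H312R2.RG

open Pool.Agent.H378R2
open Pool.Agent.H256R2.SC (Col emb emb_mem colr colr_eq qn qn_cast nu_eq event_iff ind supp mem_supp Lv)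

variable {κ : Type} [Fintype κ] [DecidableEq κ]

lemma coprime_qn (PP : Finset ℕ) (hP : ∀ p ∈ PP, p.Prime) (N₀ : ℕ) (D : Col PP.card κ)
    (hD : ∀ i, D i ≠ none → ¬ (emb PP i) ∣ N₀) : Nat.Coprime N₀ (qn PP D) := by
  unfold Pool.Agent.H256R2.SC.qn
  apply Nat.Coprime.prod_right
  intro i hi
  rw [Nat.coprime_comm]
  exact (Nat.Prime.coprime_iff_not_dvd (hP _ (emb_mem PP i))).mpr (hD i (mem_supp.mp hi))

lemma qn_pos (PP : Finset ℕ) (hP : ∀ p ∈ PP, p.Prime) (D : Col PP.card κ) : 0 < qn PP D := by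
  unfold Pool.Agent.H256R2.SC.qn
  exact Finset.prod_pos (fun i _ => (hP _ (emb_mem PP i)).pos)

/-- Task V1 -/
theorem class_iff (PP : Finset ℕ) (hP : ∀ p ∈ PP, p.Prime) (res : ℕ → κ → ℤ)
    (hinj : ∀ p ∈ PP, ∀ k l, k ≠ l → ¬ ((p : ℤ) ∣ res p k - res p l)) (N₀ b : ℕ) (hN₀ : 0 < N₀)
    (D : Col PP.card κ) (hD : ∀ i, D i ≠ none → ¬ (Pool.Agent.H256R2.SC.emb PP i) ∣ N₀) :
    ∃ bD : ℕ, ∀ a : ℕ, ((a ≡ b [MOD N₀] ∧
        ∀ i, D i ≠ none → Pool.Agent.H256R2.SC.colr PP res (a : ℤ) i = D i) ↔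
      a ≡ bD [MOD N₀ * Pool.Agent.H256R2.SC.qn PP D]) := by
  obtain ⟨r, hr⟩ := event_iff hP hinj D
  have hq := qn_pos PP hP D
  have hcop := coprime_qn PP hP N₀ D hD
  have hq' : ((qn PP D : ℕ) : ℤ) ≠ 0 := by exact_mod_cast hq.ne'
  set rn : ℕ := (r % ((qn PP D : ℕ) : ℤ)).toNat with hrn
  have hrn' : ((rn : ℕ) : ℤ) = r % ((qn PP D : ℕ) : ℤ) :=
    Int.toNat_of_nonneg (Int.emod_nonneg _ hq')
  have key : ∀ a : ℕ, ((∀ i, D i ≠ none → colr PP res (a : ℤ) i = D i) ↔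
      a ≡ rn [MOD qn PP D]) := by
    intro a
    rw [hr, Nat.modEq_iff_dvd, hrn']
    have h1 : ((qn PP D : ℕ) : ℤ) ∣ r % ((qn PP D : ℕ) : ℤ) - r := by
      rw [← dvd_neg, neg_sub]
      exact Int.dvd_self_sub_emod
    constructor
    · intro h
      have := dvd_sub h1 h
      have e : r % ((qn PP D : ℕ) : ℤ) - r - ((a : ℤ) - r) = r % ((qn PP D : ℕ) : ℤ) - a := by ring
      rwa [e] at this
    · intro h
      have := dvd_sub h1 h
      have e : r % ((qn PP D : ℕ) : ℤ) - r - (r % ((qn PP D : ℕ) : ℤ) - a) = (a : ℤ) - r := by ring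
      rwa [e] at this
  obtain ⟨k, hk1, hk2⟩ := Nat.chineseRemainder hcop b rn
  refine ⟨k, fun a => ?_⟩
  rw [key a, ← Nat.modEq_and_modEq_iff_modEq_mul hcop]
  constructor
  · rintro ⟨h1, h2⟩
    exact ⟨h1.trans hk1.symm, h2.trans hk2.symm⟩
  · rintro ⟨h1, h2⟩
    exact ⟨h1.trans hk1, h2.trans hk2⟩

/-- assignments without colours in `m` -/
def DD {n : ℕ} (m : Finset (Fin n)) : Finset (Col n κ) := univ.filter (fun D => ∀ i ∈ m, D i = none)

lemma mem_DD {n : ℕ} {m : Finset (Fin n)} {D : Col n κ} : D ∈ DD m ↔ ∀ i ∈ m, D i = none := by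
  simp [DD]

lemma G_cut {n : ℕ} (m : Finset (Fin n)) (f : Col n κ → ℝ) (x : Col n κ) :
    ∑ D, f D * ind D (cut m x) = ∑ D ∈ DD m, f D * ind D x := by
  classical
  have h1 : ∀ D, f D * ind D (cut m x) = if D ∈ DD m then f D * ind D x else 0 := by
    intro D
    by_cases hD : D ∈ DD m
    · rw [if_pos hD]
      congr 1
      have h2 := mem_DD.mp hD
      unfold Pool.Agent.H256R2.SC.ind
      have h3 : (∀ i, D i ≠ none → cut m x i = D i) ↔ (∀ i, D i ≠ none → x i = D i) := by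
        apply forall_congr'
        intro i
        constructor
        · intro h hi
          have := h hi
          unfold cut at this
          rwa [if_neg (fun him => hi (h2 i him))] at this
        · intro h hi
          unfold cut
          rw [if_neg (fun him => hi (h2 i him))]
          exact h hi
      by_cases h4 : ∀ i, D i ≠ none → x i = D i
      · rw [if_pos h4, if_pos (h3.mpr h4)]
      · rw [if_neg h4, if_neg (fun h => h4 (h3.mp h))]
    · rw [if_neg hD]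
      rw [mem_DD] at hD
      push Not at hD
      obtain ⟨i, hi, hne⟩ := hD
      unfold Pool.Agent.H256R2.SC.ind
      rw [if_neg, mul_zero]
      intro h
      have := h i hne
      unfold cut at this
      rw [if_pos hi] at this
      exact hne this.symm
  rw [Finset.sum_congr rfl (fun D _ => h1 D), Finset.sum_ite_mem, Finset.univ_inter]

lemma EE_cut_eq {n : ℕ} (g : Fin n → ℝ) (m : Finset (Fin n)) (f G : Col n κ → ℝ)
    (hG : ∀ x, G x = ∑ D, f D * ind D x) :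
    Pool.Agent.H256R2.SC.EE g (fun x => G (cut m x)) =
      ∑ D ∈ DD m, f D * Pool.Agent.H256R2.SC.nu g D := by
  have h1 : (fun x => G (cut m x)) = fun x => ∑ D ∈ DD m, f D * ind D x := by
    funext x
    rw [hG, G_cut]
  rw [h1]
  unfold Pool.Agent.H256R2.SC.EE
  simp_rw [Finset.mul_sum]
  rw [Finset.sum_comm]
  apply Finset.sum_congr rfl
  intro D _
  rw [← Pool.Agent.H256R2.SC.EE_ind]
  unfold Pool.Agent.H256R2.SC.EE
  rw [Finset.mul_sum]
  apply Finset.sum_congr rfl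
  intro x _
  ring

lemma cut_colr (PP : Finset ℕ) (res : ℕ → κ → ℤ)
    (hinj : ∀ p ∈ PP, ∀ k l, k ≠ l → ¬ ((p : ℤ) ∣ res p k - res p l)) (N₀ b : ℕ)
    (m : Finset (Fin PP.card)) (hm : ∀ i, i ∈ m ↔ (Pool.Agent.H256R2.SC.emb PP i) ∣ N₀)
    (hb : ∀ i ∈ m, ∀ k, ¬ (((Pool.Agent.H256R2.SC.emb PP i : ℕ) : ℤ) ∣
      (b : ℤ) - res (Pool.Agent.H256R2.SC.emb PP i) k)) (n : ℕ) (hn : n ≡ b [MOD N₀]) :
    cut m (colr PP res (n : ℤ)) = colr PP res (n : ℤ) := by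
  funext i
  unfold cut
  by_cases hi : i ∈ m
  · rw [if_pos hi]
    by_contra hne
    obtain ⟨k, hk⟩ := Option.ne_none_iff_exists'.mp (fun h => hne h.symm)
    rw [colr_eq hinj] at hk
    have h1 : ((emb PP i : ℕ) : ℤ) ∣ ((N₀ : ℕ) : ℤ) := by exact_mod_cast (hm i).mp hi
    have h2 := h1.trans (Nat.modEq_iff_dvd.mp hn)
    apply hb i hi k
    have := dvd_add h2 hk
    have e : (b : ℤ) - n + ((n : ℤ) - res (emb PP i) k) = (b : ℤ) - res (emb PP i) k := by ring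
    rwa [e] at this
  · rw [if_neg hi]

/-- class sums of a function of the colouring in terms of elementary events -/
lemma class_expand (PP : Finset ℕ) (hP : ∀ p ∈ PP, p.Prime) (res : ℕ → κ → ℤ)
    (hinj : ∀ p ∈ PP, ∀ k l, k ≠ l → ¬ ((p : ℤ) ∣ res p k - res p l)) (N₀ b : ℕ) (hN₀ : 0 < N₀)
    (m : Finset (Fin PP.card)) (hm : ∀ i, i ∈ m ↔ (Pool.Agent.H256R2.SC.emb PP i) ∣ N₀)
    (hb : ∀ i ∈ m, ∀ k, ¬ (((Pool.Agent.H256R2.SC.emb PP i : ℕ) : ℤ) ∣
      (b : ℤ) - res (Pool.Agent.H256R2.SC.emb PP i) k))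
    (f G : Col PP.card κ → ℝ) (hG : ∀ x, G x = ∑ D, f D * ind D x)
    (bD : Col PP.card κ → ℕ) (hbD : ∀ D ∈ DD m, ∀ a : ℕ, ((a ≡ b [MOD N₀] ∧
        ∀ i, D i ≠ none → Pool.Agent.H256R2.SC.colr PP res (a : ℤ) i = D i) ↔
      a ≡ bD D [MOD N₀ * Pool.Agent.H256R2.SC.qn PP D])) (I : Finset ℕ) (w : ℕ → ℝ) :
    ∑ n ∈ I.filter (fun n => n ≡ b [MOD N₀]), w n * G (colr PP res (n : ℤ)) =
      ∑ D ∈ DD m, f D * ∑ n ∈ I.filter (fun n => n ≡ bD D [MOD N₀ * qn PP D]), w n := by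
  have h1 : ∀ n ∈ I.filter (fun n => n ≡ b [MOD N₀]), w n * G (colr PP res (n : ℤ)) =
      ∑ D ∈ DD m, f D * (w n * ind D (colr PP res (n : ℤ))) := by
    intro n hn
    have hn2 := (Finset.mem_filter.mp hn).2
    rw [← cut_colr PP res hinj N₀ b m hm hb n hn2, hG, G_cut, Finset.mul_sum,
      cut_colr PP res hinj N₀ b m hm hb n hn2]
    apply Finset.sum_congr rfl
    intro D _
    ring
  rw [Finset.sum_congr rfl h1, Finset.sum_comm]
  apply Finset.sum_congr rfl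
  intro D hD
  rw [← Finset.mul_sum]
  congr 1
  rw [Finset.sum_filter, Finset.sum_filter]
  apply Finset.sum_congr rfl
  intro n _
  have h2 := hbD D hD n
  unfold Pool.Agent.H256R2.SC.ind
  by_cases h3 : n ≡ bD D [MOD N₀ * qn PP D]
  · obtain ⟨h4, h5⟩ := h2.mpr h3
    rw [if_pos h4, if_pos h5, if_pos h3, mul_one]
  · rw [if_neg h3]
    by_cases h4 : n ≡ b [MOD N₀]
    · rw [if_pos h4, if_neg (fun h => h3 (h2.mp ⟨h4, h⟩)), mul_zero]
    · rw [if_neg h4]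

/-- Task V1 -/
theorem class_phi (X : ℝ) (hX : 4 ≤ X) (PP : Finset ℕ) (hP : ∀ p ∈ PP, p.Prime) (res : ℕ → κ → ℤ)
    (hinj : ∀ p ∈ PP, ∀ k l, k ≠ l → ¬ ((p : ℤ) ∣ res p k - res p l)) (N₀ b : ℕ) (hN₀ : 0 < N₀)
    (m : Finset (Fin PP.card)) (hm : ∀ i, i ∈ m ↔ (Pool.Agent.H256R2.SC.emb PP i) ∣ N₀)
    (hb : ∀ i ∈ m, ∀ k, ¬ (((Pool.Agent.H256R2.SC.emb PP i : ℕ) : ℤ) ∣
      (b : ℤ) - res (Pool.Agent.H256R2.SC.emb PP i) k))
    (G : Col PP.card κ → ℝ) (Q B : ℝ) (hG : Pool.Agent.H256R2.SC.Lv (pP PP) Q B G)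
    (hsize : (N₀ : ℝ) * Q ≤ X) :
    |∑ n ∈ (Icc 1 ⌊3 * X⌋₊).filter (fun n => n ≡ b [MOD N₀]),
        Phi (n / X) * G (Pool.Agent.H256R2.SC.colr PP res (n : ℤ)) -
      (MPhi X * (1 / (N₀ : ℝ))) * Pool.Agent.H256R2.SC.EE (gP PP) (fun x => G (cut m x))| ≤
      5 * B := by
  classical
  obtain ⟨f, hf1, hf2, hf3⟩ := hG
  have hex : ∀ D : Col PP.card κ, ∃ bD : ℕ, D ∈ DD m → ∀ a : ℕ, ((a ≡ b [MOD N₀] ∧
        ∀ i, D i ≠ none → colr PP res (a : ℤ) i = D i) ↔ a ≡ bD [MOD N₀ * qn PP D]) := by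
    intro D
    by_cases hD : D ∈ DD m
    · obtain ⟨bD, h⟩ := class_iff PP hP res hinj N₀ b hN₀ D (fun i hi h =>
        hi ((mem_DD.mp hD) i ((hm i).mpr h)))
      exact ⟨bD, fun _ => h⟩
    · exact ⟨0, fun h => absurd h hD⟩
  choose bD hbD using hex
  rw [class_expand PP hP res hinj N₀ b hN₀ m hm hb f G hf1 bD hbD _ (fun n => Phi (n / X)),
    EE_cut_eq (gP PP) m f G hf1, Finset.mul_sum, ← Finset.sum_sub_distrib]
  calc |∑ D ∈ DD m, (f D * ∑ n ∈ (Icc 1 ⌊3 * X⌋₊).filter (fun n => n ≡ bD D [MOD N₀ * qn PP D]),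
          Phi (n / X) - (MPhi X * (1 / (N₀ : ℝ))) *
          (f D * Pool.Agent.H256R2.SC.nu (gP PP) D))|
      ≤ ∑ D ∈ DD m, |f D * ∑ n ∈ (Icc 1 ⌊3 * X⌋₊).filter (fun n => n ≡ bD D [MOD N₀ * qn PP D]),
          Phi (n / X) - (MPhi X * (1 / (N₀ : ℝ))) *
          (f D * Pool.Agent.H256R2.SC.nu (gP PP) D)| := Finset.abs_sum_le_sum_abs _ _
    _ ≤ ∑ D ∈ DD m, |f D| * 5 := by
        apply Finset.sum_le_sum
        intro D _
        by_cases hD : f D = 0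
        · simp [hD]
        · have h1 := hf3 D hD
          have hq := qn_pos PP hP D
          have e1 : ((N₀ * qn PP D : ℕ) : ℝ) ≤ X := by
            rw [Nat.cast_mul, qn_cast]
            refine le_trans (mul_le_mul_of_nonneg_left h1 (Nat.cast_nonneg _)) hsize
          have h2 := phi_sum_class X hX (N₀ * qn PP D) (bD D) (Nat.mul_pos hN₀ hq) e1
          have e2 : Pool.Agent.H256R2.SC.nu (gP PP) D = 1 / ((qn PP D : ℕ) : ℝ) := nu_eq PP D
          rw [e2]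
          have e3 : (MPhi X * (1 / (N₀ : ℝ))) * (f D * (1 / ((qn PP D : ℕ) : ℝ))) =
              f D * (MPhi X * (1 / ((N₀ * qn PP D : ℕ) : ℝ))) := by
            rw [Nat.cast_mul, one_div, one_div, one_div, mul_inv]
            ring
          rw [e3, ← mul_sub, abs_mul]
          exact mul_le_mul_of_nonneg_left h2 (abs_nonneg _)
    _ ≤ ∑ D, |f D| * 5 := Finset.sum_le_univ_sum_of_nonneg (fun D => by positivity)
    _ = (∑ D, |f D|) * 5 := by rw [Finset.sum_mul]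
    _ ≤ B * 5 := mul_le_mul_of_nonneg_right hf2 (by norm_num)
    _ = 5 * B := mul_comm _ _

end Pool.Agent.H312R2.RG
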