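import Pool.Agent.H99.GX.H312R2_RG_C
import Pool.Graph.R_seed8.H312R2.RG.V2a
import Pool.Graph.R_seed8.H398R2.RK.Rec1
import Pool.Graph.R_seed8.H256R2.SC.H3

set_option autoImplicit false
set_option maxHeartbeats 4000000

/-! Task RG-V2 (helper398), part b: one residue class. -/

open Finset Filter

namespace Pool.Agent.H312R2.RG

open Pool.Agent.H378R2 Pool.Agent.H398R2.BV
open Pool.Agent.H256R2.SC (Col)

open Classical in
/-- divisors not dividing `N` -/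
theorem sum_div_not {M ι : Type*} [AddCommMonoid M] (e : ι → ℕ) (T : Finset ι)
    (he : ∀ i ∈ T, (e i).Prime) (hinj : ∀ i ∈ T, ∀ j ∈ T, e i = e j → i = j) (N : ℕ) (hN : 0 < N)
    (hc : ∀ i ∈ T, ¬ e i ∣ N) (F : ℕ → M) :
    ∑ f ∈ (N * ∏ i ∈ T, e i).divisors.filter (fun f => ¬ f ∣ N), F f =
      ∑ s ∈ T.powerset.filter (fun s => s.Nonempty), ∑ f ∈ N.divisors, F (f * ∏ i ∈ s, e i) := by
  have h := sum_div_prod e T he hinj N hN hc (fun f => if f ∣ N then 0 else F f)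
  rw [sum_filter]
  have h1 : ∀ f ∈ (N * ∏ i ∈ T, e i).divisors, (if ¬ f ∣ N then F f else 0) = (if f ∣ N then 0 else F f) := by
    intro f _
    by_cases hf : f ∣ N <;> simp [hf]
  rw [sum_congr rfl h1, h, sum_filter]
  apply sum_congr rfl
  intro s hs
  rw [mem_powerset] at hs
  by_cases hne : s.Nonempty
  · rw [if_pos hne]
    apply sum_congr rfl
    intro f _
    rw [if_neg]
    intro hd
    obtain ⟨i, hi⟩ := hne
    exact hc i (hs hi) (((dvd_prod_of_mem e hi).trans (dvd_mul_left _ _)).trans hd)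
  · rw [if_neg hne]
    rw [Finset.not_nonempty_iff_eq_empty] at hne
    subst hne
    apply sum_eq_zero
    intro f hf
    rw [Nat.mem_divisors] at hf
    simp [hf.1]

open Classical in
theorem perD (X : ℝ) (hX : 4 ≤ X) (N₀ b q β : ℕ) (hN₀ : 0 < N₀) (hq : 0 < q) (hcop : N₀.Coprime q)
    (hb : b.Coprime N₀) (hβ : β.Coprime (N₀ * q)) (hββ : β ≡ b [MOD N₀])
    (hsize : ((N₀ * q : ℕ) : ℝ) ≤ X) :
    ‖((EPhi X (N₀ * q) β - EPhi X N₀ b * (1 / (q.totient : ℝ)) : ℝ) : ℂ) -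
      (1 / (N₀.totient : ℂ)) * ((1 / (q.totient : ℝ) : ℝ) : ℂ) *
        (∑ f ∈ (N₀ * q).divisors.filter (fun f => ¬ f ∣ N₀), ∑ ψ ∈ Prim f,
          ψ ((β : ZMod f)⁻¹) * psiPhi ψ X)‖ ≤ 8 * (Real.log (3 * X)) ^ 2 := by
  have hX1 : (1 : ℝ) ≤ X := by linarith
  have hNq : 0 < N₀ * q := Nat.mul_pos hN₀ hq
  have h1 := EPhi_prim X hX1 (N₀ * q) β hNq hβ
  have h2 := EPhi_prim X hX1 N₀ b hN₀ hb
  have hφq : (1 : ℝ) ≤ q.totient := by exact_mod_cast Nat.totient_pos.2 hq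
  have hφN : (1 : ℝ) ≤ N₀.totient := by exact_mod_cast Nat.totient_pos.2 hN₀
  -- split the divisors
  have hsplit : ∑ f ∈ (N₀ * q).divisors.filter (fun f => f ≠ 1), ∑ ψ ∈ Prim f,
      ψ ((β : ZMod f)⁻¹) * psiPhi ψ X =
      ∑ f ∈ (N₀ * q).divisors.filter (fun f => ¬ f ∣ N₀), ∑ ψ ∈ Prim f,
          ψ ((β : ZMod f)⁻¹) * psiPhi ψ X +
      ∑ f ∈ N₀.divisors.filter (fun f => f ≠ 1), ∑ ψ ∈ Prim f, ψ ((b : ZMod f)⁻¹) * psiPhi ψ X := by
    rw [← sum_filter_add_sum_filter_not ((N₀ * q).divisors.filter (fun f => f ≠ 1)) (fun f => ¬ f ∣ N₀)]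
    congr 1
    · apply sum_congr _ (fun _ _ => rfl)
      ext f
      simp only [mem_filter]
      constructor
      · rintro ⟨⟨h3, _⟩, h4⟩; exact ⟨h3, h4⟩
      · rintro ⟨h3, h4⟩
        refine ⟨⟨h3, ?_⟩, h4⟩
        rintro rfl
        exact h4 (one_dvd _)
    · apply sum_congr
      · ext f
        simp only [mem_filter, not_not, Nat.mem_divisors]
        constructor
        · rintro ⟨⟨_, h3⟩, h4⟩; exact ⟨⟨h4, hN₀.ne'⟩, h3⟩
        · rintro ⟨⟨h4, _⟩, h3⟩; exact ⟨⟨⟨h4.mul_right q, hNq.ne'⟩, h3⟩, h4⟩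
      · intro f hf
        simp only [mem_filter, Nat.mem_divisors] at hf
        have h5 : (β : ZMod f) = (b : ZMod f) := (ZMod.natCast_eq_natCast_iff _ _ _).2 (hββ.of_dvd hf.1.1)
        rw [h5]
  rw [hsplit] at h1
  set U1 : ℂ := ∑ f ∈ (N₀ * q).divisors.filter (fun f => ¬ f ∣ N₀), ∑ ψ ∈ Prim f,
          ψ ((β : ZMod f)⁻¹) * psiPhi ψ X with hU1
  set U2 : ℂ := ∑ f ∈ N₀.divisors.filter (fun f => f ≠ 1), ∑ ψ ∈ Prim f, ψ ((b : ZMod f)⁻¹) * psiPhi ψ X with hU2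
  have htot : ((N₀ * q).totient : ℂ) = (N₀.totient : ℂ) * (q.totient : ℂ) := by
    rw [Nat.totient_mul hcop]; push_cast; rfl
  rw [htot] at h1
  have hne1 : (N₀.totient : ℂ) ≠ 0 := by
    have : N₀.totient ≠ 0 := (Nat.totient_pos.2 hN₀).ne'
    exact_mod_cast this
  have hne2 : (q.totient : ℂ) ≠ 0 := by
    have : q.totient ≠ 0 := (Nat.totient_pos.2 hq).ne'
    exact_mod_cast this
  have e : ((EPhi X (N₀ * q) β - EPhi X N₀ b * (1 / (q.totient : ℝ)) : ℝ) : ℂ) -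
      (1 / (N₀.totient : ℂ)) * ((1 / (q.totient : ℝ) : ℝ) : ℂ) * U1 =
      (((EPhi X (N₀ * q) β : ℝ) : ℂ) - (1 / ((N₀.totient : ℂ) * (q.totient : ℂ))) * (U1 + U2)) -
      (1 / (q.totient : ℂ)) * (((EPhi X N₀ b : ℝ) : ℂ) - (1 / (N₀.totient : ℂ)) * U2) := by
    push_cast
    field_simp
    ring
  rw [e]
  have hlog3 : Real.log X ≤ Real.log (3 * X) := Real.log_le_log (by linarith) (by linarith)
  have hlogX : 0 ≤ Real.log X := Real.log_nonneg hX1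
  have hω : ∀ N : ℕ, 0 < N → (N : ℝ) ≤ X → 2 * ((N.primeFactors.card : ℝ) * Real.log (3 * X)) ≤
      4 * (Real.log (3 * X)) ^ 2 := by
    intro N hN hNX
    have h3 := Pool.Agent.H398R2.RK.card_primeFactors_le N hN
    have h4 : Real.log N ≤ Real.log X := Real.log_le_log (by exact_mod_cast hN) hNX
    nlinarith
  have hN₀X : (N₀ : ℝ) ≤ X := by
    refine le_trans ?_ hsize
    exact_mod_cast Nat.le_mul_of_pos_right N₀ hq
  have h3 := hω (N₀ * q) hNq hsize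
  have h4 := hω N₀ hN₀ hN₀X
  have hn : ‖(1 / (q.totient : ℂ))‖ ≤ 1 := by
    rw [norm_div, norm_one, Complex.norm_natCast, div_le_one (by linarith)]
    exact hφq
  calc _ ≤ ‖((EPhi X (N₀ * q) β : ℝ) : ℂ) - (1 / ((N₀.totient : ℂ) * (q.totient : ℂ))) * (U1 + U2)‖ +
      ‖(1 / (q.totient : ℂ)) * (((EPhi X N₀ b : ℝ) : ℂ) - (1 / (N₀.totient : ℂ)) * U2)‖ := norm_sub_le _ _
    _ ≤ 4 * (Real.log (3 * X)) ^ 2 + 1 * (4 * (Real.log (3 * X)) ^ 2) := by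
        rw [norm_mul]
        apply add_le_add (h1.trans h3)
        exact mul_le_mul hn (h2.trans h4) (norm_nonneg _) (by norm_num)
    _ = _ := by ring

end Pool.Agent.H312R2.RG
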