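import Pool.Agent.H99.GX.H312R2_RG_VW5
import Pool.Agent.H99.GX.H312R2_RG_E

set_option autoImplicit false

/-! TEAM RG, task VW: the repelling weights -/

open Finset Filter

namespace Pool.Agent.H312R2.RG

open Pool.Agent.H378R2
open Pool.Agent.H378R2.LSBV (QQ mem_QQ TT TT_nonneg sum_wt)
open Pool.Agent.H256R2.SC (Col emb colr Lv emb_mem emb_surj colr_eq qq Hyp Zs Zs_ge_one SS tail_bound second_lower)

/-- lower bound for the totient of the big modulus -/
theorem ev_totient : ∀ᶠ X : ℝ in atTop, ∀ (S : Finset ℕ) (ps : ℕ),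
    (WW X S ps : ℝ) / Real.log X ≤ ((WW X S ps).totient : ℝ) := by
  obtain ⟨c0, hc0, X1, hset⟩ := setfacts
  have h1 : ∀ᶠ t : ℝ in atTop, Real.log t ≤ c0 * t := by
    have h2 := Real.isLittleO_log_id_atTop.def hc0
    filter_upwards [h2, eventually_ge_atTop 1] with t ht ht1
    rw [Real.norm_of_nonneg (Real.log_nonneg ht1), id, Real.norm_of_nonneg (by linarith)] at ht
    exact ht
  have hll : Tendsto (fun X : ℝ => Real.log (Real.log X)) atTop atTop :=
    Real.tendsto_log_atTop.comp Real.tendsto_log_atTop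
  filter_upwards [Real.tendsto_log_atTop.eventually h1, eventually_ge_atTop X1, EE_facts 0,
    hll.eventually_gt_atTop 0, Real.tendsto_log_atTop.eventually_gt_atTop 0] with X h2 h3 h4 h5 h6
  intro S ps
  have hPWsub : PW X S ps ⊆ Esup X ps := by
    refine Finset.Subset.trans ?_ (EE_sub h4.2.2 (S := S))
    unfold EE
    exact Finset.subset_union_left
  have h7 := (hset X h3 ps (PW X S ps) hPWsub).2.2
  rw [totient_WW, div_eq_mul_inv]
  apply mul_le_mul_of_nonneg_left _ (Nat.cast_nonneg _)
  refine le_trans ?_ h7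
  rw [inv_eq_one_div, div_le_div_iff₀ h6 h5]
  linarith

end Pool.Agent.H312R2.RG
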