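import Pool.Agent.H99.GX.H312R2_RG_M1
import Pool.Agent.H99.GX.H312R2_RG_M2

set_option autoImplicit false
set_option linter.unusedSectionVars false

/-! TEAM RG, task VW, part 1: estimates in the model -/

open Finset Filter

namespace Pool.Agent.H312R2.RG

open Pool.Agent.H256R2.SC

section
variable {n : ℕ} {κ : Type} [Fintype κ] [DecidableEq κ]

/-- square of the sieve weight -/
noncomputable def V2 (p g : Fin n → ℝ) (h : Finset (Fin n) → ℝ) (Q : ℝ) (x : Col n κ) : ℝ :=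
  (VV g (yT p h Q) x) ^ 2

/-- the weights of the moment bound without the change of densities -/
noncomputable def mv (g : Fin n → ℝ) (s : Finset (Fin n)) (t : ℝ) (k₀ : κ) (x : Col n κ) : ℝ :=
  (∏ i ∈ s, ((if x i = none then 0 else 1) + 4 * (Fintype.card κ : ℝ) * g i)) *
    ∏ i, (if x i = some k₀ then 1 + t else 1)

theorem V2_nonneg (p g : Fin n → ℝ) (h : Finset (Fin n) → ℝ) (Q : ℝ) (x : Col n κ) :
    0 ≤ V2 p g h Q x := sq_nonneg _

theorem mv_nonneg (g : Fin n → ℝ) (hg : ∀ i, 0 ≤ g i) (s : Finset (Fin n)) (t : ℝ) (ht : 0 ≤ t) (k₀ : κ)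
    (x : Col n κ) : 0 ≤ mv g s t k₀ x := by
  unfold mv
  apply mul_nonneg
  · apply Finset.prod_nonneg
    intro i _
    have h1 := hg i
    have h2 : (0 : ℝ) ≤ (if x i = none then 0 else 1) := by split_ifs <;> norm_num
    positivity
  · apply Finset.prod_nonneg
    intro i _
    split_ifs <;> linarith

theorem mw_eq (g : Fin n → ℝ) (s : Finset (Fin n)) (t : ℝ) (k₀ : κ) (x : Col n κ) :
    mw g s t k₀ x = (∏ i, (if x i = none then 1 else 1 + 2 * g i)) * mv g s t k₀ x := by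
  unfold mw mv
  ring

theorem one_le_ratio (g : Fin n → ℝ) (hg : ∀ i, 0 ≤ g i) (x : Col n κ) :
    1 ≤ ∏ i, (if x i = none then 1 else 1 + 2 * g i) := by
  have h : ∏ i : Fin n, (1 : ℝ) ≤ ∏ i, (if x i = none then 1 else 1 + 2 * g i) := by
    apply Finset.prod_le_prod
    · intro i _; norm_num
    · intro i _
      have := hg i
      split_ifs <;> linarith
  rw [Finset.prod_const_one] at h
  exact h

/-- the moment bound for `mv` -/
theorem EE_mv_le {p g : Fin n → ℝ} {h : Finset (Fin n) → ℝ} {z K : ℝ} (H : Hyp p g h z K)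
    (Q t : ℝ) (ht : 0 ≤ t) (htg : ∀ i, 3 * t * g i ≤ 1)
    (hug : ∀ i, 4 * (Fintype.card κ : ℝ) * g i ≤ 1) (k₀ : κ) (s : Finset (Fin n)) :
    EE g (fun x : Col n κ => mv g s t k₀ x * V2 p g h Q x) ≤
      (∏ i ∈ s, 30 * (1 + t) * (Fintype.card κ : ℝ) * g i) * Real.exp ((8 + 6 * t) * ∑ i, g i) *
        Zs κ g h := by
  have hg : ∀ i, 0 ≤ g i := fun i => (H.g0 i).le
  have hw : ∀ i (c : Option κ), 0 ≤ wt (g i) c := fun i c =>
    wt_nonneg (hg i) (by
      have := hug i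
      have h2 : 0 ≤ (Fintype.card κ : ℝ) * g i := mul_nonneg (Nat.cast_nonneg _) (hg i)
      nlinarith) c
  refine le_trans (EE_mono hw fun x => ?_) (moment H Q t ht htg hug k₀ s)
  rw [mw_eq]
  apply mul_le_mul_of_nonneg_right _ (V2_nonneg p g h Q x)
  exact le_mul_of_one_le_left (mv_nonneg g hg s t ht k₀ x) (one_le_ratio g hg x)

/-- the moment bound for `mv` with changed densities -/
theorem EEQ_mv_le {p g : Fin n → ℝ} {h : Finset (Fin n) → ℝ} {z K : ℝ} (H : Hyp p g h z K)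
    (g' : Fin n → ℝ) (h1 : ∀ i, g i ≤ g' i) (h2 : ∀ i, g' i ≤ g i * (1 + 2 * g i))
    (hug' : ∀ i, (Fintype.card κ : ℝ) * g' i ≤ 1)
    (Q t : ℝ) (ht : 0 ≤ t) (htg : ∀ i, 3 * t * g i ≤ 1)
    (hug : ∀ i, 4 * (Fintype.card κ : ℝ) * g i ≤ 1) (k₀ : κ) (s : Finset (Fin n)) :
    EE g' (fun x : Col n κ => mv g s t k₀ x * V2 p g h Q x) ≤
      (∏ i ∈ s, 30 * (1 + t) * (Fintype.card κ : ℝ) * g i) * Real.exp ((8 + 6 * t) * ∑ i, g i) *
        Zs κ g h := by
  have hg : ∀ i, 0 ≤ g i := fun i => (H.g0 i).le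
  refine (ratio_upper g g' hg h1 h2 hug' _ (fun x => mul_nonneg (mv_nonneg g hg s t ht k₀ x)
    (V2_nonneg p g h Q x))).trans ?_
  refine le_trans (le_of_eq ?_) (moment H Q t ht htg hug k₀ s)
  congr 1
  funext x
  rw [mw_eq]
  unfold V2
  ring

theorem mv_empty (g : Fin n → ℝ) (k₀ : κ) (x : Col n κ) : mv g ∅ 0 k₀ x = 1 := by
  unfold mv
  simp

theorem mv_single_ge (g : Fin n → ℝ) (hg : ∀ i, 0 ≤ g i) (i : Fin n) (t : ℝ) (ht : 0 ≤ t) (k₀ : κ)
    (x : Col n κ) : (if x i = none then 0 else 1) * ∏ i, (if x i = some k₀ then 1 + t else 1) ≤ mv g {i} t k₀ x := by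
  unfold mv
  rw [Finset.prod_singleton]
  apply mul_le_mul_of_nonneg_right
  · have := hg i
    have h2 : 0 ≤ 4 * (Fintype.card κ : ℝ) * g i := by positivity
    linarith
  · apply Finset.prod_nonneg
    intro i _
    split_ifs <;> linarith

theorem prod_zero_t (k₀ : κ) (x : Col n κ) : ∏ i : Fin n, (if x i = some k₀ then 1 + (0 : ℝ) else 1) = 1 := by
  apply Finset.prod_eq_one
  intro i _
  split_ifs <;> norm_num

/-- second moment at most `Zs` -/
theorem EEV_le {p g : Fin n → ℝ} {h : Finset (Fin n) → ℝ} {z K : ℝ} (H : Hyp p g h z K) (Q : ℝ)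
    (hug : ∀ i, (Fintype.card κ : ℝ) * g i ≤ 1) :
    EE g (fun x : Col n κ => V2 p g h Q x) ≤ Zs κ g h := by
  have hg : ∀ i, 0 ≤ g i := fun i => (H.g0 i).le
  have hw : ∀ i (c : Option κ), 0 ≤ wt (g i) c := fun i c => wt_nonneg (hg i) (hug i) c
  have hn1 : ∀ i (c : Option κ), 0 ≤ nu1 (g i) c := by
    intro i c
    cases c with
    | none => exact zero_le_one
    | some k => exact hg i
  have h1 := tensor_upper g (fun _ _ => (1 : ℝ)) (fun i => nu1 (g i)) hw (fun _ _ => zero_le_one) hn1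
    (fun i Y => by
      have h2 := local_upper (g i) (hg i) Y
      simp only [mul_one]
      exact h2) (yT p h Q : Col n κ → ℝ)
  have h2 : (fun x : Col n κ => (∏ i : Fin n, (fun (_ : Fin n) (_ : Option κ) => (1 : ℝ)) i (x i)) *
      (VV g (yT p h Q) x) ^ 2) = fun x => V2 p g h Q x := by
    funext x
    simp [V2]
  rw [h2] at h1
  refine h1.trans ?_
  unfold Zs
  apply Finset.sum_le_sum
  intro D _
  have h3 : (yT p h Q D) ^ 2 ≤ (Pool.Agent.H256R2.SC.yy h D) ^ 2 := by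
    unfold yT
    split_ifs
    · exact le_rfl
    · rw [zero_pow (by norm_num)]; exact sq_nonneg _
  have h4 : 0 ≤ ∏ i, nu1 (g i) (D i) := Finset.prod_nonneg fun i _ => hn1 i _
  unfold nu
  rw [mul_comm]
  exact mul_le_mul_of_nonneg_right h3 h4

theorem EEQ_le {p g : Fin n → ℝ} {h : Finset (Fin n) → ℝ} {z K : ℝ} (H : Hyp p g h z K)
    (g' : Fin n → ℝ) (h1 : ∀ i, g i ≤ g' i) (h2 : ∀ i, g' i ≤ g i * (1 + 2 * g i))
    (hug' : ∀ i, (Fintype.card κ : ℝ) * g' i ≤ 1)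
    (Q : ℝ) (hug : ∀ i, 4 * (Fintype.card κ : ℝ) * g i ≤ 1) (k₀ : κ) :
    EE g' (fun x : Col n κ => V2 p g h Q x) ≤ Real.exp (8 * ∑ i, g i) * Zs κ g h := by
  have h3 := EEQ_mv_le H g' h1 h2 hug' Q 0 le_rfl (fun i => by norm_num) hug k₀ ∅
  rw [Finset.prod_empty, one_mul] at h3
  refine le_trans (le_of_eq ?_) (h3.trans (le_of_eq ?_))
  · congr 1
    funext x
    rw [mv_empty, one_mul]
  · norm_num

theorem EEQ_ne_le {p g : Fin n → ℝ} {h : Finset (Fin n) → ℝ} {z K : ℝ} (H : Hyp p g h z K)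
    (g' : Fin n → ℝ) (h1 : ∀ i, g i ≤ g' i) (h2 : ∀ i, g' i ≤ g i * (1 + 2 * g i))
    (hug' : ∀ i, (Fintype.card κ : ℝ) * g' i ≤ 1)
    (Q : ℝ) (hug : ∀ i, 4 * (Fintype.card κ : ℝ) * g i ≤ 1) (k₀ : κ) (i : Fin n) :
    EE g' (fun x : Col n κ => if x i = none then 0 else V2 p g h Q x) ≤
      30 * (Fintype.card κ : ℝ) * g i * Real.exp (8 * ∑ i, g i) * Zs κ g h := by
  have hg : ∀ i, 0 ≤ g i := fun i => (H.g0 i).le
  have hg' : ∀ i, 0 ≤ g' i := fun i => (hg i).trans (h1 i)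
  have hw' : ∀ i (c : Option κ), 0 ≤ wt (g' i) c := fun i c => wt_nonneg (hg' i) (hug' i) c
  have h3 := EEQ_mv_le H g' h1 h2 hug' Q 0 le_rfl (fun i => by norm_num) hug k₀ {i}
  rw [Finset.prod_singleton] at h3
  refine le_trans (EE_mono hw' fun x => ?_) (h3.trans (le_of_eq ?_))
  · have h4 := mv_single_ge g hg i 0 le_rfl k₀ x
    rw [prod_zero_t, mul_one] at h4
    have h5 := mul_le_mul_of_nonneg_right h4 (V2_nonneg p g h Q x)
    refine le_trans (le_of_eq ?_) h5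
    split_ifs
    · rw [zero_mul]
    · rw [one_mul]
  · norm_num

theorem EEQ_fw_le {p g : Fin n → ℝ} {h : Finset (Fin n) → ℝ} {z K : ℝ} (H : Hyp p g h z K)
    (g' : Fin n → ℝ) (h1 : ∀ i, g i ≤ g' i) (h2 : ∀ i, g' i ≤ g i * (1 + 2 * g i))
    (hug' : ∀ i, (Fintype.card κ : ℝ) * g' i ≤ 1 / 2) (hg2 : ∀ i, g' i ≤ 2 * g i)
    (Q : ℝ) (hug : ∀ i, 4 * (Fintype.card κ : ℝ) * g i ≤ 1) (k₀ : κ) (s : Finset (Fin n)) :
    EE g' (fun x : Col n κ => V2 p g h Q x * fw g' s x) ≤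
      (∏ i ∈ s, 30 * (Fintype.card κ : ℝ) * g i) * Real.exp (8 * ∑ i, g i) * Zs κ g h := by
  have hg : ∀ i, 0 ≤ g i := fun i => (H.g0 i).le
  have hg' : ∀ i, 0 ≤ g' i := fun i => (hg i).trans (h1 i)
  have hug'' : ∀ i, (Fintype.card κ : ℝ) * g' i ≤ 1 := fun i => by linarith [hug' i]
  have hw' : ∀ i (c : Option κ), 0 ≤ wt (g' i) c := fun i c => wt_nonneg (hg' i) (hug'' i) c
  have h3 := EEQ_mv_le H g' h1 h2 hug'' Q 0 le_rfl (fun i => by norm_num) hug k₀ s
  refine le_trans (EE_mono hw' fun x => ?_) (h3.trans (le_of_eq ?_))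
  · rw [mul_comm]
    apply mul_le_mul_of_nonneg_right _ (V2_nonneg p g h Q x)
    unfold mv fw
    rw [prod_zero_t, mul_one]
    apply Finset.prod_le_prod
    · intro i _
      split_ifs
      · have h4 := hug' i
        have h5 := hg' i
        apply div_nonneg (by positivity) (by linarith)
      · norm_num
    · intro i _
      split_ifs
      · have h4 := hug' i
        have h5 := hg' i
        have h6 := hg2 i
        have hu : (0 : ℝ) ≤ (Fintype.card κ : ℝ) := Nat.cast_nonneg _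
        rw [div_le_iff₀ (by linarith), zero_add]
        have h7 : 0 ≤ (Fintype.card κ : ℝ) * g' i := mul_nonneg hu h5
        have h8 : (Fintype.card κ : ℝ) * g' i ≤ (Fintype.card κ : ℝ) * (2 * g i) := mul_le_mul_of_nonneg_left h6 hu
        have h9 : 0 ≤ (Fintype.card κ : ℝ) * g i := mul_nonneg hu (hg i)
        nlinarith
      · have h9 : 0 ≤ (Fintype.card κ : ℝ) * g i := mul_nonneg (Nat.cast_nonneg _) (hg i)
        linarith
  · norm_num

/-- bound for `SS` -/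
theorem SS_le_two (J : ℕ) (hJ : Even J) (k : κ) (x : Col n κ) :
    SS J k x ≤ 2 * ∏ i, (if x i = some k then 1 + (8 : ℝ) else 1) := by
  have h1 := SS_upper J hJ 8 (by norm_num) k x
  have h2 : (1 : ℝ) ≤ ∏ i, (if x i = some k then 1 + (8 : ℝ) else 1) := by
    have h : ∏ i : Fin n, (1 : ℝ) ≤ ∏ i, (if x i = some k then 1 + (8 : ℝ) else 1) := by
      apply Finset.prod_le_prod
      · intro i _; norm_num
      · intro i _
        split_ifs <;> norm_num
    rw [Finset.prod_const_one] at h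
    exact h
  have h4 : (1 / (8 : ℝ)) ^ J ≤ 1 := pow_le_one₀ (by norm_num) (by norm_num)
  have h5 := mul_le_mul_of_nonneg_right h4 (show (0 : ℝ) ≤ ∏ i, (if x i = some k then 1 + (8 : ℝ) else 1) by linarith)
  refine h1.trans ?_
  refine le_trans (add_le_add (b := (1 : ℝ)) ?_ h5) (by linarith)
  split_ifs <;> norm_num

theorem SS_nonneg' (J : ℕ) (hJ : Even J) (k : κ) (x : Col n κ) : 0 ≤ SS J k x := by
  refine le_trans ?_ (SS_lower J hJ k x)
  split_ifs <;> norm_num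

theorem EE_SS_ne_le {p g : Fin n → ℝ} {h : Finset (Fin n) → ℝ} {z K : ℝ} (H : Hyp p g h z K)
    (Q : ℝ) (J : ℕ) (hJ : Even J) (htg : ∀ i, 24 * g i ≤ 1)
    (hug : ∀ i, 4 * (Fintype.card κ : ℝ) * g i ≤ 1) (k : κ) (i : Fin n) :
    EE g (fun x : Col n κ => if x i = none then 0 else V2 p g h Q x * SS J k x) ≤
      540 * (Fintype.card κ : ℝ) * g i * Real.exp (56 * ∑ i, g i) * Zs κ g h := by
  have hg : ∀ i, 0 ≤ g i := fun i => (H.g0 i).le
  have hw : ∀ i (c : Option κ), 0 ≤ wt (g i) c := fun i c =>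
    wt_nonneg (hg i) (by
      have := hug i
      have h2 : 0 ≤ (Fintype.card κ : ℝ) * g i := mul_nonneg (Nat.cast_nonneg _) (hg i)
      nlinarith) c
  have h1 := EE_mv_le H Q 8 (by norm_num) (fun i => by linarith [htg i]) hug k {i}
  rw [Finset.prod_singleton] at h1
  have h0 : EE g (fun x : Col n κ => 2 * (mv g {i} 8 k x * V2 p g h Q x)) =
      2 * EE g (fun x : Col n κ => mv g {i} 8 k x * V2 p g h Q x) := EE_smul g 2 _
  refine le_trans (EE_mono (G := fun x : Col n κ => 2 * (mv g {i} 8 k x * V2 p g h Q x)) hw fun x => ?_) ?_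
  · have h2 := mv_single_ge g hg i 8 (by norm_num) k x
    have h3 := SS_le_two J hJ k x
    have hV := V2_nonneg p g h Q x
    split_ifs with hx
    · exact mul_nonneg (by norm_num) (mul_nonneg (mv_nonneg g hg _ _ (by norm_num) _ _) hV)
    · rw [if_neg hx, one_mul] at h2
      calc V2 p g h Q x * SS J k x ≤ V2 p g h Q x * (2 * mv g {i} 8 k x) := by
            apply mul_le_mul_of_nonneg_left _ hV
            linarith
        _ = _ := by ring
  · rw [h0]
    calc 2 * EE g (fun x : Col n κ => mv g {i} 8 k x * V2 p g h Q x) ≤ 2 *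
        ((30 * (1 + 8) * (Fintype.card κ : ℝ) * g i) * Real.exp ((8 + 6 * 8) * ∑ i, g i) * Zs κ g h) := by
          linarith
      _ = _ := by norm_num; ring

/-- the total mass of the repelled part -/
theorem EE_SS_sum {p g : Fin n → ℝ} {h : Finset (Fin n) → ℝ} {z K : ℝ} (H : Hyp p g h z K)
    (Q δ : ℝ) (J : ℕ) (hJ : Even J) (hQ0 : 0 < Q) (htg : ∀ i, 24 * g i ≤ 1)
    (hug : ∀ i, 4 * (Fintype.card κ : ℝ) * g i ≤ 1)
    (hδ : ∀ D : Col n κ, qq p D ≤ Q → 2 * ∑ i with D i ≠ none, g i ≤ δ) (η : ℝ)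
    (hη : ((Fintype.card κ : ℝ) + 1) * (δ ^ 2 + Real.exp (2 * (Fintype.card κ : ℝ) * K / Real.log z -
        Real.log (Q / z) / Real.log z) + (1 / 8) ^ J * Real.exp (50 * ∑ i, g i)) ≤ η) :
    EE g (fun x : Col n κ => V2 p g h Q x * ∑ k, SS J k x) ≤ Zs κ g h * η := by
  have hg : ∀ i, 0 ≤ g i := fun i => (H.g0 i).le
  have hu0 : (0 : ℝ) ≤ (Fintype.card κ : ℝ) := Nat.cast_nonneg _
  have hug1 : ∀ i, (Fintype.card κ : ℝ) * g i ≤ 1 := fun i => by
    have := hug i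
    have h2 : 0 ≤ (Fintype.card κ : ℝ) * g i := mul_nonneg hu0 (hg i)
    nlinarith
  have hZ := Zs_ge_one (κ := κ) H
  have hz := H.z1
  have hT := tail_bound (κ := κ) H (Q / z) (by positivity)
  have h1 : (fun x : Col n κ => V2 p g h Q x * ∑ k, SS J k x) =
      fun x : Col n κ => ∑ k, V2 p g h Q x * SS J k x := by
    funext x; rw [Finset.mul_sum]
  rw [h1, EE_sum g univ (fun k (x : Col n κ) => V2 p g h Q x * SS J k x)]
  have h2 : ∀ k ∈ (univ : Finset κ), EE g (fun x : Col n κ => V2 p g h Q x * SS J k x) ≤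
      Zs κ g h * (δ ^ 2 + Real.exp (2 * (Fintype.card κ : ℝ) * K / Real.log z -
        Real.log (Q / z) / Real.log z) + (1 / 8) ^ J * Real.exp (50 * ∑ i, g i)) := by
    intro k _
    have h3 := second_upper H Q δ 8 _ J hJ (by norm_num) (fun i => by linarith [htg i]) hug1 hQ0 hδ hT k
    refine h3.trans (le_of_eq ?_)
    norm_num
    ring
  refine (Finset.sum_le_sum h2).trans ?_
  rw [Finset.sum_const, Finset.card_univ, nsmul_eq_mul]
  have h3 : 0 ≤ δ ^ 2 + Real.exp (2 * (Fintype.card κ : ℝ) * K / Real.log z -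
        Real.log (Q / z) / Real.log z) + (1 / 8) ^ J * Real.exp (50 * ∑ i, g i) := by positivity
  have hZ0 : 0 ≤ Zs κ g h := by linarith
  calc (Fintype.card κ : ℝ) * (Zs κ g h * (δ ^ 2 + Real.exp (2 * (Fintype.card κ : ℝ) * K / Real.log z -
        Real.log (Q / z) / Real.log z) + (1 / 8) ^ J * Real.exp (50 * ∑ i, g i)))
      ≤ ((Fintype.card κ : ℝ) + 1) * (Zs κ g h * (δ ^ 2 + Real.exp (2 * (Fintype.card κ : ℝ) * K / Real.log z -
        Real.log (Q / z) / Real.log z) + (1 / 8) ^ J * Real.exp (50 * ∑ i, g i))) :=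
        mul_le_mul_of_nonneg_right (by linarith) (mul_nonneg hZ0 h3)
    _ = Zs κ g h * (((Fintype.card κ : ℝ) + 1) * (δ ^ 2 + Real.exp (2 * (Fintype.card κ : ℝ) * K / Real.log z -
        Real.log (Q / z) / Real.log z) + (1 / 8) ^ J * Real.exp (50 * ∑ i, g i))) := by ring
    _ ≤ _ := mul_le_mul_of_nonneg_left hη hZ0

/-- level of the weight -/
theorem V2_Lv {p g : Fin n → ℝ} {h : Finset (Fin n) → ℝ} {z K : ℝ} (H : Hyp p g h z K) (Q : ℝ) (hQ : 0 < Q)
    (hg1 : ∀ i, g i ≤ 1) (hs : 2 * (Fintype.card κ : ℝ) * ∑ i, 1 / (p i) ^ 2 ≤ 1) :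
    Lv p (Q * Q) (9 * Q ^ 4) (fun x : Col n κ => V2 p g h Q x) := by
  have hp : ∀ i, 1 ≤ p i := fun i => (H.p1 i).le
  have h1 : Lv p Q (3 * Q ^ 2) (VV g (yT p h Q) : Col n κ → ℝ) := by
    refine Lv_mono le_rfl (count_assign p hp hs Q hQ) (Lv_VV p g hp (fun i => (H.g0 i).le) hg1 (yT p h Q) ?_ Q ?_)
    · intro D
      unfold yT
      split_ifs
      · exact yy_abs_le H.h0 H.h1 D
      · simp
    · intro D hD
      unfold yT at hD
      by_contra hcon
      rw [if_neg hcon] at hD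
      exact hD rfl
  have h2 := Lv_mul hp h1 h1
  have h3 : (fun x : Col n κ => VV g (yT p h Q) x * VV g (yT p h Q) x) = fun x => V2 p g h Q x := by
    funext x
    unfold V2
    ring
  rw [h3] at h2
  exact Lv_mono le_rfl (by ring_nf; exact le_rfl) h2

theorem V2SS_Lv {p g : Fin n → ℝ} {h : Finset (Fin n) → ℝ} {z K : ℝ} (H : Hyp p g h z K) (Q : ℝ) (hQ : 0 < Q)
    (hg1 : ∀ i, g i ≤ 1) (hs : 2 * (Fintype.card κ : ℝ) * ∑ i, 1 / (p i) ^ 2 ≤ 1) (hpz : ∀ i, p i ≤ z) (J : ℕ) :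
    Lv p (Q * Q * z ^ J) (9 * Q ^ 4 * ((Fintype.card κ : ℝ) * ((n : ℝ) + 1) ^ J))
      (fun x : Col n κ => V2 p g h Q x * ∑ k, SS J k x) := by
  have hp : ∀ i, 1 ≤ p i := fun i => (H.p1 i).le
  have h1 : Lv p (z ^ J) (∑ _k : κ, ((n : ℝ) + 1) ^ J) (fun x : Col n κ => ∑ k, SS J k x) :=
    Lv_sum univ (fun _ => ((n : ℝ) + 1) ^ J) (fun k => (SS J k : Col n κ → ℝ))
      (fun k _ => Lv_SS p hp z hpz H.z1.le J k)
  have h2 := Lv_mul hp (V2_Lv H Q hQ hg1 hs) h1
  rw [Finset.sum_const, Finset.card_univ, nsmul_eq_mul] at h2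
  exact h2

/-- sup bound from the level structure -/
theorem Lv_abs_le {p : Fin n → ℝ} {Q B : ℝ} {F : Col n κ → ℝ} (hF : Lv p Q B F) (x : Col n κ) : |F x| ≤ B := by
  obtain ⟨f, hf, hB, _⟩ := hF
  rw [hf x]
  refine (Finset.abs_sum_le_sum_abs _ _).trans (le_trans (Finset.sum_le_sum fun D _ => ?_) hB)
  rw [abs_mul]
  have h1 : |ind D x| ≤ 1 := by
    unfold ind
    split_ifs <;> simp
  calc |f D| * |ind D x| ≤ |f D| * 1 := mul_le_mul_of_nonneg_left h1 (abs_nonneg _)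
    _ = _ := mul_one _

end

end Pool.Agent.H312R2.RG
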