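import Pool.Agent.H99.GX.H312R2_RG_VW1
import Pool.Agent.H99.GX.H312R2_RG_V1
import Pool.Agent.H99.GX.H312R2_RG_V2

set_option autoImplicit false

/-! TEAM RG, task VW, part 2: class sums -/

open Finset Filter

namespace Pool.Agent.H312R2.RG

open Pool.Agent.H378R2
open Pool.Agent.H378R2.LSBV (QQ mem_QQ TT)
open Pool.Agent.H256R2.SC (Col emb colr Lv emb_mem emb_surj colr_eq qq wt_nonneg)

/-- the sieving primes dividing `N` -/
noncomputable def mq (PP : Finset ℕ) (N : ℕ) : Finset (Fin PP.card) :=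
  univ.filter (fun i => (emb PP i : ℕ) ∣ N)

/-- the residues killing the shifts `k` -/
def resU (U : Finset ℕ) (s : ℤ) : ℕ → ↥U → ℤ := fun _ k => s - ((k : ℕ) : ℤ)

/-- the sieving primes are medium -/
def MedP (ps : ℕ) (y : ℝ) (PP : Finset ℕ) : Prop :=
  ∀ p ∈ PP, p.Prime ∧ y < p ∧ p ≠ ps

theorem natAbs_lt {a b : ℕ} {y : ℝ} (ha : (a : ℝ) ≤ y) (hb : (b : ℝ) ≤ y) :
    |((a : ℤ) - b : ℤ)| ≤ ⌊y⌋₊ := by
  have h1 : a ≤ ⌊y⌋₊ := Nat.le_floor ha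
  have h2 : b ≤ ⌊y⌋₊ := Nat.le_floor hb
  rw [abs_le]
  constructor <;> omega

theorem not_dvd_diff {a b p : ℕ} {y : ℝ} (ha : (a : ℝ) ≤ y) (hb : (b : ℝ) ≤ y) (hp : y < p) (hab : a ≠ b) :
    ¬ ((p : ℤ) ∣ (a : ℤ) - b) := by
  intro h
  have hne : (a : ℤ) - b ≠ 0 := by
    intro h0
    apply hab
    omega
  have h1 := Int.le_of_dvd (abs_pos.2 hne) ((dvd_abs _ _).2 h)
  have h2 := natAbs_lt ha hb
  have h3 : (p : ℤ) ≤ ⌊y⌋₊ := h1.trans h2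
  have h4 : p ≤ ⌊y⌋₊ := by exact_mod_cast h3
  have hy : 0 ≤ y := le_trans (Nat.cast_nonneg a) ha
  have h5 : (p : ℝ) ≤ y := (Nat.le_floor_iff hy).1 h4
  linarith

open Classical in
/-- the error of the class sums with the weight `Phi * Lambda` -/
noncomputable def errB (X : ℝ) (W : ℕ) (PP : Finset ℕ) {κ : Type} [Fintype κ] [DecidableEq κ]
    (G : Col PP.card κ → ℝ) (Q₁ B₁ : ℝ) (Bc : ℕ → ℕ) (q : ℕ) : ℝ :=
  |EPhi X (W * q) (Bc q)| * |Pool.Agent.H256R2.SC.EE (gQ PP) (fun x => G (cut (mq PP (W * q)) x))| +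
  LPhi X * (1 / (W.totient : ℝ)) * (1 / (q.totient : ℝ)) *
    |Pool.Agent.H256R2.SC.EE (gQ PP) (fun x => G (cut (mq PP (W * q)) x)) -
          Pool.Agent.H256R2.SC.EE (gQ PP) G| +
  (1 / (Nat.totient (W * q) : ℝ)) *
        ∑ s ∈ (univ : Finset (Fin PP.card)).powerset.filter
          (fun s => s.Nonempty ∧ Disjoint s (mq PP (W * q)) ∧ ∏ i ∈ s, pP PP i ≤ Q₁),
          Pool.Agent.H256R2.SC.EE (gQ PP) (fun x => |G (cut (mq PP (W * q)) x)| * fw (gQ PP) s x) *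
            ∑ f ∈ (W * q).divisors, TT X (f * ∏ i ∈ s, emb PP i) +
  B₁ * (8 * (Real.log (3 * X)) ^ 2)

end Pool.Agent.H312R2.RG
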