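import Pool.Agent.H99.GX.H312R2_RG_VW2
import Pool.Graph.R_seed8.H312R2.RG.DS
import Pool.Agent.H99.GX.H312R2_RG_A1

set_option autoImplicit false

/-! TEAM RG, task VW, part 3: the errors -/

open Finset Filter

namespace Pool.Agent.H312R2.RG

open Pool.Agent.H378R2
open Pool.Agent.H378R2.LSBV (QQ mem_QQ TT TT_nonneg sum_wt)
open Pool.Agent.H256R2.SC (Col emb colr Lv emb_mem emb_surj colr_eq qq wt_nonneg Hyp Zs Zs_ge_one SS EE_sum EE_mono)

/-- standing hypotheses at a single `X` -/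
structure VHyp (X : ℝ) (A ps : ℕ) (U PP : Finset ℕ) (h : Finset (Fin PP.card) → ℝ) (z Kc : ℝ) : Prop where
  hL : 100 ≤ Real.log X
  hX : 4 ≤ X
  hA : 12 ≤ A
  med : MedP ps ((Real.log X) ^ A) PP
  H : Hyp (pP PP) (gP PP) h z Kc
  une : U.Nonempty
  uL : (U.card : ℝ) ≤ Real.log X
  sg : ∑ i, gP PP i ≤ Real.log (Real.log X)
  sq : 4 * (U.card : ℝ) * ∑ i, (gP PP i) ^ 2 ≤ 1 / 4

section
variable {X : ℝ} {A ps : ℕ} {U PP : Finset ℕ} {h : Finset (Fin PP.card) → ℝ} {z Kc : ℝ}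

theorem VHyp.L0 (V : VHyp X A ps U PP h z Kc) : 0 < Real.log X := by linarith [V.hL]

theorem VHyp.LA (V : VHyp X A ps U PP h z Kc) : 100 * Real.log X ≤ (Real.log X) ^ A := by
  have h1 := V.hL
  have h2 : (Real.log X) ^ 2 ≤ (Real.log X) ^ A := pow_le_pow_right₀ (by linarith) (by linarith [V.hA])
  nlinarith

theorem VHyp.pL (V : VHyp X A ps U PP h z Kc) (i : Fin PP.card) : (Real.log X) ^ A < pP PP i :=
  (V.med _ (emb_mem PP i)).2.1

theorem VHyp.p100 (V : VHyp X A ps U PP h z Kc) (i : Fin PP.card) : 100 * Real.log X < pP PP i :=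
  lt_of_le_of_lt V.LA (V.pL i)

theorem gP_eq (i : Fin PP.card) : gP PP i = 1 / pP PP i := rfl

theorem gQ_eq (i : Fin PP.card) : gQ PP i = 1 / (pP PP i - 1) := rfl

theorem VHyp.g0 (V : VHyp X A ps U PP h z Kc) (i : Fin PP.card) : 0 < gP PP i := V.H.g0 i

theorem VHyp.gle (V : VHyp X A ps U PP h z Kc) (i : Fin PP.card) : gP PP i ≤ 1 / (Real.log X) ^ A := by
  rw [gP_eq]
  have := V.L0
  exact one_div_le_one_div_of_le (by positivity) (V.pL i).le

theorem VHyp.gle' (V : VHyp X A ps U PP h z Kc) (i : Fin PP.card) : gP PP i * (100 * Real.log X) ≤ 1 := by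
  rw [gP_eq]
  have h1 := V.p100 i
  have h2 := V.L0
  rw [div_mul_eq_mul_div, one_mul, div_le_one (by linarith)]
  exact h1.le

theorem VHyp.ug (V : VHyp X A ps U PP h z Kc) (i : Fin PP.card) : (U.card : ℝ) * gP PP i ≤ 1 / 100 := by
  have h1 := V.gle' i
  have h2 := mul_le_mul_of_nonneg_right V.uL (V.g0 i).le
  linarith

theorem VHyp.g1 (V : VHyp X A ps U PP h z Kc) (i : Fin PP.card) : gP PP i ≤ 1 / 10000 := by
  have h1 := V.gle' i
  have h2 := V.g0 i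
  have h3 := V.hL
  nlinarith

theorem VHyp.gQ_le (V : VHyp X A ps U PP h z Kc) (i : Fin PP.card) : gQ PP i ≤ gP PP i * (1 + 2 * gP PP i) := by
  rw [gQ_eq, gP_eq]
  have h1 := V.p100 i
  have h2 := V.hL
  set p := pP PP i with hp
  have hp0 : 10000 < p := by linarith
  have h4 : 1 / p * (1 + 2 * (1 / p)) = (p + 2) / p ^ 2 := by
    field_simp
  rw [h4, div_le_div_iff₀ (by linarith) (by positivity)]
  nlinarith

theorem VHyp.le_gQ (V : VHyp X A ps U PP h z Kc) (i : Fin PP.card) : gP PP i ≤ gQ PP i := by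
  rw [gQ_eq, gP_eq]
  have h1 := V.p100 i
  have h2 := V.hL
  exact one_div_le_one_div_of_le (by linarith) (by linarith)

theorem VHyp.gQ2 (V : VHyp X A ps U PP h z Kc) (i : Fin PP.card) : gQ PP i ≤ 2 * gP PP i := by
  have h1 := V.gQ_le i
  have h2 := V.g0 i
  have h3 := V.g1 i
  nlinarith

theorem VHyp.gQ0 (V : VHyp X A ps U PP h z Kc) (i : Fin PP.card) : 0 ≤ gQ PP i :=
  (V.g0 i).le.trans (V.le_gQ i)

theorem cardU (U : Finset ℕ) : (Fintype.card ↥U : ℝ) = (U.card : ℝ) := by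
  rw [Fintype.card_coe]

theorem VHyp.hug (V : VHyp X A ps U PP h z Kc) (i : Fin PP.card) : (Fintype.card ↥U : ℝ) * gP PP i ≤ 1 := by
  rw [cardU]; linarith [V.ug i]

theorem VHyp.hug4 (V : VHyp X A ps U PP h z Kc) (i : Fin PP.card) : 4 * (Fintype.card ↥U : ℝ) * gP PP i ≤ 1 := by
  rw [cardU, mul_assoc]; linarith [V.ug i]

theorem VHyp.hugQ (V : VHyp X A ps U PP h z Kc) (i : Fin PP.card) : (Fintype.card ↥U : ℝ) * gQ PP i ≤ 1 / 2 := by
  rw [cardU]
  have h1 := V.ug i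
  have h2 := mul_le_mul_of_nonneg_left (V.gQ2 i) (Nat.cast_nonneg U.card : (0 : ℝ) ≤ U.card)
  linarith

theorem VHyp.hugQ1 (V : VHyp X A ps U PP h z Kc) (i : Fin PP.card) : (Fintype.card ↥U : ℝ) * gQ PP i ≤ 1 := by
  linarith [V.hugQ i]

theorem VHyp.expk (V : VHyp X A ps U PP h z Kc) (k : ℕ) : Real.exp ((k : ℝ) * ∑ i, gP PP i) ≤ (Real.log X) ^ k := by
  have h1 : Real.exp ((k : ℝ) * ∑ i, gP PP i) ≤ Real.exp ((k : ℝ) * Real.log (Real.log X)) := by
    apply Real.exp_le_exp.2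
    exact mul_le_mul_of_nonneg_left V.sg (Nat.cast_nonneg k)
  refine h1.trans (le_of_eq ?_)
  rw [Real.exp_nat_mul, Real.exp_log V.L0]

theorem VHyp.exp8 (V : VHyp X A ps U PP h z Kc) : Real.exp (8 * ∑ i, gP PP i) ≤ (Real.log X) ^ 8 := by
  have := V.expk 8
  push_cast at this
  exact this

theorem VHyp.exp56 (V : VHyp X A ps U PP h z Kc) : Real.exp (56 * ∑ i, gP PP i) ≤ (Real.log X) ^ 56 := by
  have := V.expk 56
  push_cast at this
  exact this

theorem VHyp.Z1 (V : VHyp X A ps U PP h z Kc) : 1 ≤ Zs ↥U (gP PP) h := Zs_ge_one V.H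

/-- the number of sieving primes dividing `W q` -/
theorem VHyp.mcard (V : VHyp X A ps U PP h z Kc) (S : Finset ℕ) {q : ℕ} (hq1 : 1 ≤ q)
    (hq : (q : ℝ) ≤ X ^ (1 / 100 : ℝ)) : ((mq PP (WW X S ps * q)).card : ℝ) ≤ Real.log X := by
  have h1 : (mq PP (WW X S ps * q)).card ≤ q.primeFactors.card := by
    apply Finset.card_le_card_of_injOn (fun i => (emb PP i : ℕ))
    · intro i hi
      rw [Finset.mem_coe] at hi ⊢
      unfold mq at hi
      rw [mem_filter] at hi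
      obtain ⟨hp, hyp, _⟩ := V.med _ (emb_mem PP i)
      rw [Nat.mem_primeFactors]
      refine ⟨hp, ?_, by omega⟩
      rcases (Nat.Prime.dvd_mul hp).1 hi.2 with h | h
      · exfalso
        have h2 := (mem_PW.1 ((prime_dvd_WW hp).1 h)).1
        have h3 : ((emb PP i : ℕ) : ℝ) ≤ yy X := by exact_mod_cast h2
        have h4 : (yy X : ℝ) ≤ Real.log X / 1000 := Nat.floor_le (by linarith [V.L0])
        have h5 := V.LA
        have h6 := V.L0
        linarith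
      · exact h
    · intro i _ j _ hij
      exact (emb PP).injective hij
  have h2 := Pool.Agent.H398R2.PG.card_primeFactors_le q
  have h3 : Real.log ((q : ℝ) + 1) ≤ Real.log X / 100 + 1 := by
    have hX := V.hX
    have h4 : (q : ℝ) + 1 ≤ 2 * X ^ (1 / 100 : ℝ) := by
      have : (1 : ℝ) ≤ q := by exact_mod_cast hq1
      linarith
    calc Real.log ((q : ℝ) + 1) ≤ Real.log (2 * X ^ (1 / 100 : ℝ)) := Real.log_le_log (by positivity) h4
      _ = Real.log 2 + 1 / 100 * Real.log X := by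
          rw [Real.log_mul (by norm_num) (by positivity), Real.log_rpow (by linarith)]
      _ ≤ _ := by have := Real.log_two_lt_d9; linarith
  have h4 : ((mq PP (WW X S ps * q)).card : ℝ) ≤ q.primeFactors.card := by exact_mod_cast h1
  have := V.hL
  linarith

theorem VHyp.sm (V : VHyp X A ps U PP h z Kc) (S : Finset ℕ) {q : ℕ} (hq1 : 1 ≤ q)
    (hq : (q : ℝ) ≤ X ^ (1 / 100 : ℝ)) :
    ∑ i ∈ mq PP (WW X S ps * q), gP PP i ≤ Real.log X / (Real.log X) ^ A := by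
  have h1 := V.mcard S hq1 hq
  have h2 : ∑ i ∈ mq PP (WW X S ps * q), gP PP i ≤
      (mq PP (WW X S ps * q)).card • (1 / (Real.log X) ^ A) := Finset.sum_le_card_nsmul _ _ _ fun i _ => V.gle i
  rw [nsmul_eq_mul] at h2
  refine h2.trans ?_
  have h0 := V.L0
  have h3 : 0 ≤ 1 / (Real.log X) ^ A := by positivity
  calc _ ≤ Real.log X * (1 / (Real.log X) ^ A) := mul_le_mul_of_nonneg_right h1 h3
    _ = _ := by ring

theorem VHyp.smQ (V : VHyp X A ps U PP h z Kc) (S : Finset ℕ) {q : ℕ} (hq1 : 1 ≤ q)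
    (hq : (q : ℝ) ≤ X ^ (1 / 100 : ℝ)) :
    ∑ i ∈ mq PP (WW X S ps * q), gQ PP i ≤ 2 * (Real.log X / (Real.log X) ^ A) := by
  have h1 := V.sm S hq1 hq
  have h2 : ∑ i ∈ mq PP (WW X S ps * q), gQ PP i ≤ ∑ i ∈ mq PP (WW X S ps * q), 2 * gP PP i :=
    Finset.sum_le_sum fun i _ => V.gQ2 i
  rw [← Finset.mul_sum] at h2
  linarith

theorem VHyp.usm (V : VHyp X A ps U PP h z Kc) : 8 * (U.card : ℝ) * (Real.log X / (Real.log X) ^ A) ≤ 1 := by
  have h0 := V.L0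
  have h1 := V.hL
  have h2 : 8 * (U.card : ℝ) * (Real.log X / (Real.log X) ^ A) ≤
      8 * Real.log X * (Real.log X / (Real.log X) ^ A) := by
    have := V.uL
    gcongr
  refine h2.trans ?_
  have h3 : (Real.log X) ^ 12 ≤ (Real.log X) ^ A := pow_le_pow_right₀ (by linarith) V.hA
  have h4 : (Real.log X) ^ 3 ≤ (Real.log X) ^ 12 := pow_le_pow_right₀ (by linarith) (by norm_num)
  have h5 : 8 * Real.log X * (Real.log X / (Real.log X) ^ A) = 8 * (Real.log X) ^ 2 / (Real.log X) ^ A := by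
    ring
  rw [h5, div_le_one (by positivity)]
  nlinarith [sq_nonneg (Real.log X)]

/-- deviation caused by erasing coordinates, weight `V² T`, densities `1/p` -/
theorem VHyp.devA2 (V : VHyp X A ps U PP h z Kc) (Q : ℝ) (J : ℕ) (hJ : Even J) (S : Finset ℕ) {q : ℕ} (hq1 : 1 ≤ q)
    (hq : (q : ℝ) ≤ X ^ (1 / 100 : ℝ))
    (hM₂ : Pool.Agent.H256R2.SC.EE (gP PP) (fun x : Col PP.card ↥U => V2 (pP PP) (gP PP) h Q x * ∑ k, SS J k x) ≤
      Zs ↥U (gP PP) h) :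
    |Pool.Agent.H256R2.SC.EE (gP PP) (fun x : Col PP.card ↥U =>
        V2 (pP PP) (gP PP) h Q (cut (mq PP (WW X S ps * q)) x) * ∑ k, SS J k (cut (mq PP (WW X S ps * q)) x)) -
      Pool.Agent.H256R2.SC.EE (gP PP) (fun x : Col PP.card ↥U => V2 (pP PP) (gP PP) h Q x * ∑ k, SS J k x)| ≤
      542 * (Real.log X) ^ 59 / (Real.log X) ^ A * Zs ↥U (gP PP) h := by
  set m := mq PP (WW X S ps * q) with hm
  have hsm := V.sm S hq1 hq
  rw [← hm] at hsm
  have hZ := V.Z1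
  have h0 := V.L0
  have hL := V.hL
  have hu0 : (0 : ℝ) ≤ U.card := Nat.cast_nonneg _
  have hu1 : (1 : ℝ) ≤ U.card := by exact_mod_cast Finset.card_pos.2 V.une
  have hsm0 : 0 ≤ ∑ i ∈ m, gP PP i := Finset.sum_nonneg fun i _ => (V.g0 i).le
  have hnn : ∀ x : Col PP.card ↥U, 0 ≤ V2 (pP PP) (gP PP) h Q x * ∑ k, SS J k x := fun x =>
    mul_nonneg (V2_nonneg _ _ _ _ _) (Finset.sum_nonneg fun k _ => SS_nonneg' J hJ k x)
  have h1 := cut_dev (gP PP) (fun i => (V.g0 i).le) (κ := ↥U) V.hug m (by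
    rw [cardU]
    have h2 := V.usm
    have h3 := mul_le_mul_of_nonneg_left hsm hu0
    have : (U.card : ℝ) * ∑ i ∈ m, gP PP i ≤ 1 / 8 := by linarith
    linarith) (fun x => V2 (pP PP) (gP PP) h Q x * ∑ k, SS J k x) hnn
  refine h1.trans ?_
  rw [cardU]
  have hZ0 : 0 ≤ Zs ↥U (gP PP) h := by linarith
  have h3 : ∑ i ∈ m, Pool.Agent.H256R2.SC.EE (gP PP)
      (fun x : Col PP.card ↥U => if x i = none then 0 else V2 (pP PP) (gP PP) h Q x * ∑ k, SS J k x) ≤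
      ∑ i ∈ m, (U.card : ℝ) * (540 * (U.card : ℝ) * gP PP i * (Real.log X) ^ 56 * Zs ↥U (gP PP) h) := by
    apply Finset.sum_le_sum
    intro i _
    have h4 : (fun x : Col PP.card ↥U => if x i = none then 0 else V2 (pP PP) (gP PP) h Q x * ∑ k, SS J k x) =
        fun x : Col PP.card ↥U => ∑ k, (if x i = none then 0 else V2 (pP PP) (gP PP) h Q x * SS J k x) := by
      funext x
      split_ifs
      · rw [Finset.sum_const_zero]
      · rw [Finset.mul_sum]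
    rw [h4, EE_sum (gP PP) univ (fun k (x : Col PP.card ↥U) =>
      if x i = none then 0 else V2 (pP PP) (gP PP) h Q x * SS J k x)]
    have h5 : ∀ k ∈ (univ : Finset ↥U), Pool.Agent.H256R2.SC.EE (gP PP)
        (fun x : Col PP.card ↥U => if x i = none then 0 else V2 (pP PP) (gP PP) h Q x * SS J k x) ≤
        540 * (U.card : ℝ) * gP PP i * (Real.log X) ^ 56 * Zs ↥U (gP PP) h := by
      intro k _
      have h6 := EE_SS_ne_le V.H Q J hJ (fun i => by linarith [V.g1 i]) V.hug4 k i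
      rw [cardU] at h6
      refine h6.trans ?_
      have h7 := V.exp56
      have h8 := V.g0 i
      gcongr
    refine (Finset.sum_le_sum h5).trans (le_of_eq ?_)
    rw [Finset.sum_const, Finset.card_univ, nsmul_eq_mul, cardU]
  have h4 : ∑ i ∈ m, (U.card : ℝ) * (540 * (U.card : ℝ) * gP PP i * (Real.log X) ^ 56 * Zs ↥U (gP PP) h) =
      540 * (U.card : ℝ) ^ 2 * (Real.log X) ^ 56 * Zs ↥U (gP PP) h * ∑ i ∈ m, gP PP i := by
    rw [Finset.mul_sum]
    apply Finset.sum_congr rfl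
    intro i _
    ring
  rw [h4] at h3
  have h5 : 1 ≤ (Real.log X) ^ 56 := one_le_pow₀ (by linarith)
  have h6 : 2 * (U.card : ℝ) * (∑ i ∈ m, gP PP i) *
      Pool.Agent.H256R2.SC.EE (gP PP) (fun x : Col PP.card ↥U => V2 (pP PP) (gP PP) h Q x * ∑ k, SS J k x) ≤
      2 * (U.card : ℝ) ^ 2 * (∑ i ∈ m, gP PP i) * ((Real.log X) ^ 56 * Zs ↥U (gP PP) h) := by
    apply mul_le_mul
    · apply mul_le_mul_of_nonneg_right _ hsm0
      nlinarith
    · refine hM₂.trans ?_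
      exact le_mul_of_one_le_left hZ0 h5
    · unfold Pool.Agent.H256R2.SC.EE
      exact Finset.sum_nonneg fun x _ => mul_nonneg (Finset.prod_nonneg fun i _ =>
        wt_nonneg (V.g0 i).le (V.hug i) _) (hnn x)
    · positivity
  have h7 : 2 * (U.card : ℝ) ^ 2 * (∑ i ∈ m, gP PP i) * ((Real.log X) ^ 56 * Zs ↥U (gP PP) h) +
      540 * (U.card : ℝ) ^ 2 * (Real.log X) ^ 56 * Zs ↥U (gP PP) h * ∑ i ∈ m, gP PP i =
      542 * (U.card : ℝ) ^ 2 * (Real.log X) ^ 56 * Zs ↥U (gP PP) h * ∑ i ∈ m, gP PP i := by ring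
  have h8 : 542 * (U.card : ℝ) ^ 2 * (Real.log X) ^ 56 * Zs ↥U (gP PP) h * ∑ i ∈ m, gP PP i ≤
      542 * (Real.log X) ^ 2 * (Real.log X) ^ 56 * Zs ↥U (gP PP) h * (Real.log X / (Real.log X) ^ A) := by
    have := V.uL
    gcongr
  have h9 : 542 * (Real.log X) ^ 2 * (Real.log X) ^ 56 * Zs ↥U (gP PP) h * (Real.log X / (Real.log X) ^ A) =
      542 * (Real.log X) ^ 59 / (Real.log X) ^ A * Zs ↥U (gP PP) h := by ring
  linarith

/-- the second moment with the densities `1/(p-1)` -/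
theorem VHyp.EEQ8 (V : VHyp X A ps U PP h z Kc) (Q : ℝ) :
    Pool.Agent.H256R2.SC.EE (gQ PP) (fun x : Col PP.card ↥U => V2 (pP PP) (gP PP) h Q x) ≤
      (Real.log X) ^ 8 * Zs ↥U (gP PP) h := by
  obtain ⟨k₀, hk₀⟩ := V.une
  have h1 := EEQ_le V.H (gQ PP) V.le_gQ V.gQ_le V.hugQ1 Q V.hug4 (⟨k₀, hk₀⟩ : ↥U)
  refine h1.trans ?_
  have h2 := V.exp8
  have hZ := V.Z1
  have hZ0 : 0 ≤ Zs ↥U (gP PP) h := by linarith
  gcongr

theorem VHyp.EEQnn (V : VHyp X A ps U PP h z Kc) (F : Col PP.card ↥U → ℝ) (hF : ∀ x, 0 ≤ F x) :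
    0 ≤ Pool.Agent.H256R2.SC.EE (gQ PP) F := by
  unfold Pool.Agent.H256R2.SC.EE
  exact Finset.sum_nonneg fun x _ => mul_nonneg (Finset.prod_nonneg fun i _ =>
    wt_nonneg (V.gQ0 i) (V.hugQ1 i) _) (hF x)

theorem VHyp.cutcond (V : VHyp X A ps U PP h z Kc) (S : Finset ℕ) {q : ℕ} (hq1 : 1 ≤ q)
    (hq : (q : ℝ) ≤ X ^ (1 / 100 : ℝ)) :
    2 * (Fintype.card ↥U : ℝ) * ∑ i ∈ mq PP (WW X S ps * q), gQ PP i ≤ 1 := by
  rw [cardU]
  have h2 := V.usm
  have hu0 : (0 : ℝ) ≤ U.card := Nat.cast_nonneg _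
  have h3 := mul_le_mul_of_nonneg_left (V.smQ S hq1 hq) hu0
  have h4 : 2 * (U.card : ℝ) * ∑ i ∈ mq PP (WW X S ps * q), gQ PP i =
    2 * ((U.card : ℝ) * ∑ i ∈ mq PP (WW X S ps * q), gQ PP i) := by ring
  rw [h4]
  have h5 : 2 * ((U.card : ℝ) * (2 * (Real.log X / (Real.log X) ^ A))) ≤ 1 := by
    have h0 := V.L0
    have : 0 ≤ (U.card : ℝ) * (Real.log X / (Real.log X) ^ A) := by positivity
    linarith
  linarith

/-- deviation caused by erasing coordinates, weight `V²`, densities `1/(p-1)` -/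
theorem VHyp.devB (V : VHyp X A ps U PP h z Kc) (Q : ℝ) (S : Finset ℕ) {q : ℕ} (hq1 : 1 ≤ q)
    (hq : (q : ℝ) ≤ X ^ (1 / 100 : ℝ)) :
    |Pool.Agent.H256R2.SC.EE (gQ PP) (fun x : Col PP.card ↥U => V2 (pP PP) (gP PP) h Q (cut (mq PP (WW X S ps * q)) x)) -
      Pool.Agent.H256R2.SC.EE (gQ PP) (fun x : Col PP.card ↥U => V2 (pP PP) (gP PP) h Q x)| ≤
      34 * (Real.log X) ^ 10 / (Real.log X) ^ A * Zs ↥U (gP PP) h := by
  obtain ⟨k₀, hk₀⟩ := V.une
  set m := mq PP (WW X S ps * q) with hm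
  have hsm := V.sm S hq1 hq
  have hsmQ := V.smQ S hq1 hq
  have hcc := V.cutcond S hq1 hq
  rw [← hm] at hsm hsmQ hcc
  have hZ := V.Z1
  have h0 := V.L0
  have hL := V.hL
  have hu0 : (0 : ℝ) ≤ U.card := Nat.cast_nonneg _
  have hsm0 : 0 ≤ ∑ i ∈ m, gP PP i := Finset.sum_nonneg fun i _ => (V.g0 i).le
  have hsmQ0 : 0 ≤ ∑ i ∈ m, gQ PP i := Finset.sum_nonneg fun i _ => V.gQ0 i
  have h1 := cut_dev (gQ PP) V.gQ0 (κ := ↥U) V.hugQ1 m hcc
    (fun x => V2 (pP PP) (gP PP) h Q x) (fun x => V2_nonneg _ _ _ _ _)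
  refine h1.trans ?_
  rw [cardU]
  have h2 := V.EEQ8 Q
  have hZ0 : 0 ≤ Zs ↥U (gP PP) h := by linarith
  have h3 : ∑ i ∈ m, Pool.Agent.H256R2.SC.EE (gQ PP)
      (fun x : Col PP.card ↥U => if x i = none then 0 else V2 (pP PP) (gP PP) h Q x) ≤
      ∑ i ∈ m, 30 * (U.card : ℝ) * gP PP i * (Real.log X) ^ 8 * Zs ↥U (gP PP) h := by
    apply Finset.sum_le_sum
    intro i _
    have h4 := EEQ_ne_le V.H (gQ PP) V.le_gQ V.gQ_le V.hugQ1 Q V.hug4 (⟨k₀, hk₀⟩ : ↥U) i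
    rw [cardU] at h4
    refine h4.trans ?_
    have h5 := V.exp8
    have h6 := V.g0 i
    gcongr
  have h4 : ∑ i ∈ m, 30 * (U.card : ℝ) * gP PP i * (Real.log X) ^ 8 * Zs ↥U (gP PP) h =
      30 * (U.card : ℝ) * (Real.log X) ^ 8 * Zs ↥U (gP PP) h * ∑ i ∈ m, gP PP i := by
    rw [Finset.mul_sum]
    apply Finset.sum_congr rfl
    intro i _
    ring
  rw [h4] at h3
  have h6 : 2 * (U.card : ℝ) * (∑ i ∈ m, gQ PP i) *
      Pool.Agent.H256R2.SC.EE (gQ PP) (fun x : Col PP.card ↥U => V2 (pP PP) (gP PP) h Q x) ≤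
      2 * (U.card : ℝ) * (2 * (Real.log X / (Real.log X) ^ A)) * ((Real.log X) ^ 8 * Zs ↥U (gP PP) h) := by
    have h7 := V.EEQnn (fun x : Col PP.card ↥U => V2 (pP PP) (gP PP) h Q x) (fun x => V2_nonneg _ _ _ _ _)
    gcongr
  have h8 : 30 * (U.card : ℝ) * (Real.log X) ^ 8 * Zs ↥U (gP PP) h * ∑ i ∈ m, gP PP i ≤
      30 * (U.card : ℝ) * (Real.log X) ^ 8 * Zs ↥U (gP PP) h * (Real.log X / (Real.log X) ^ A) := by
    gcongr
  have h9 : 2 * (U.card : ℝ) * (2 * (Real.log X / (Real.log X) ^ A)) * ((Real.log X) ^ 8 * Zs ↥U (gP PP) h) +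
      30 * (U.card : ℝ) * (Real.log X) ^ 8 * Zs ↥U (gP PP) h * (Real.log X / (Real.log X) ^ A) =
      34 * (U.card : ℝ) * (Real.log X) ^ 8 * Zs ↥U (gP PP) h * (Real.log X / (Real.log X) ^ A) := by ring
  have h10 : 34 * (U.card : ℝ) * (Real.log X) ^ 8 * Zs ↥U (gP PP) h * (Real.log X / (Real.log X) ^ A) ≤
      34 * Real.log X * (Real.log X) ^ 8 * Zs ↥U (gP PP) h * (Real.log X / (Real.log X) ^ A) := by
    have := V.uL
    gcongr
  have h11 : 34 * Real.log X * (Real.log X) ^ 8 * Zs ↥U (gP PP) h * (Real.log X / (Real.log X) ^ A) =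
      34 * (Real.log X) ^ 10 / (Real.log X) ^ A * Zs ↥U (gP PP) h := by ring
  linarith

/-- mean of the erased weight -/
theorem VHyp.cutB (V : VHyp X A ps U PP h z Kc) (Q : ℝ) (S : Finset ℕ) {q : ℕ} (hq1 : 1 ≤ q)
    (hq : (q : ℝ) ≤ X ^ (1 / 100 : ℝ)) :
    |Pool.Agent.H256R2.SC.EE (gQ PP) (fun x : Col PP.card ↥U => V2 (pP PP) (gP PP) h Q (cut (mq PP (WW X S ps * q)) x))| ≤
      2 * ((Real.log X) ^ 8 * Zs ↥U (gP PP) h) := by
  have h1 := cut_upper (gQ PP) V.gQ0 (κ := ↥U) V.hugQ1 _ (V.cutcond S hq1 hq)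
    (fun x => V2 (pP PP) (gP PP) h Q x) (fun x => V2_nonneg _ _ _ _ _)
  rw [abs_of_nonneg (V.EEQnn _ fun x => V2_nonneg _ _ _ _ _)]
  have h2 := V.EEQ8 Q
  linarith

theorem fw_cut {g : Fin PP.card → ℝ} {s m : Finset (Fin PP.card)} (hd : Disjoint s m) (x : Col PP.card ↥U) :
    fw g s (cut m x) = fw g s x := by
  unfold fw
  apply Finset.prod_congr rfl
  intro i hi
  have : i ∉ m := Finset.disjoint_left.1 hd hi
  have h2 : cut m x i = x i := by
    unfold cut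
    rw [if_neg this]
  rw [h2]

/-- the Fourier weights -/
theorem VHyp.fwB (V : VHyp X A ps U PP h z Kc) (Q : ℝ) (S : Finset ℕ) {q : ℕ} (hq1 : 1 ≤ q)
    (hq : (q : ℝ) ≤ X ^ (1 / 100 : ℝ)) (s : Finset (Fin PP.card)) (hd : Disjoint s (mq PP (WW X S ps * q))) :
    Pool.Agent.H256R2.SC.EE (gQ PP) (fun x : Col PP.card ↥U =>
      |V2 (pP PP) (gP PP) h Q (cut (mq PP (WW X S ps * q)) x)| * fw (gQ PP) s x) ≤
      2 * ((Real.log X) ^ 8 * Zs ↥U (gP PP) h) * (1 / (∏ i ∈ s, pP PP i) ^ (3 / 4 : ℝ)) := by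
  obtain ⟨k₀, hk₀⟩ := V.une
  set m := mq PP (WW X S ps * q) with hm
  have h0 := V.L0
  have hL := V.hL
  have hfw0 : ∀ x : Col PP.card ↥U, 0 ≤ fw (gQ PP) s x := by
    intro x
    unfold fw
    apply Finset.prod_nonneg
    intro i _
    split_ifs
    · have h4 := V.hugQ i
      have h5 := V.gQ0 i
      exact div_nonneg (by positivity) (by linarith)
    · norm_num
  have h1 := cut_upper (gQ PP) V.gQ0 (κ := ↥U) V.hugQ1 m (V.cutcond S hq1 hq)
    (fun x => V2 (pP PP) (gP PP) h Q x * fw (gQ PP) s x)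
    (fun x => mul_nonneg (V2_nonneg _ _ _ _ _) (hfw0 x))
  have h2 : (fun x : Col PP.card ↥U => |V2 (pP PP) (gP PP) h Q (cut m x)| * fw (gQ PP) s x) =
      fun x : Col PP.card ↥U => V2 (pP PP) (gP PP) h Q (cut m x) * fw (gQ PP) s (cut m x) := by
    funext x
    rw [abs_of_nonneg (V2_nonneg _ _ _ _ _), fw_cut hd]
  rw [h2]
  refine h1.trans ?_
  have h3 := EEQ_fw_le V.H (gQ PP) V.le_gQ V.gQ_le V.hugQ V.gQ2 Q V.hug4 (⟨k₀, hk₀⟩ : ↥U) s
  rw [cardU] at h3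
  have hZ := V.Z1
  have hZ0 : 0 ≤ Zs ↥U (gP PP) h := by linarith
  have h4 : ∏ i ∈ s, 30 * (U.card : ℝ) * gP PP i ≤ 1 / (∏ i ∈ s, pP PP i) ^ (3 / 4 : ℝ) := by
    have hp0 : ∀ i, 0 < pP PP i := fun i => by linarith [V.p100 i]
    have h5 : ∏ i ∈ s, 30 * (U.card : ℝ) * gP PP i ≤ ∏ i ∈ s, (pP PP i) ^ (-(3 / 4) : ℝ) := by
      apply Finset.prod_le_prod
      · intro i _
        have := V.g0 i
        positivity
      · intro i _
        have hp := hp0 i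
        have h6 : 30 * (U.card : ℝ) ≤ (pP PP i) ^ (1 / 4 : ℝ) := by
          have h7 : (Real.log X) ^ 12 ≤ (Real.log X) ^ A := pow_le_pow_right₀ (by linarith) V.hA
          have h8 : ((Real.log X) ^ 12) ^ (1 / 4 : ℝ) ≤ (pP PP i) ^ (1 / 4 : ℝ) :=
            Real.rpow_le_rpow (by positivity) (h7.trans (V.pL i).le) (by norm_num)
          have h9 : ((Real.log X) ^ 12) ^ (1 / 4 : ℝ) = (Real.log X) ^ 3 := by
            rw [← Real.rpow_natCast, ← Real.rpow_mul h0.le]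
            norm_num
          rw [h9] at h8
          refine le_trans ?_ h8
          have h10 := V.uL
          have h11 : (Real.log X) ^ 3 = (Real.log X) ^ 2 * Real.log X := by ring
          rw [h11]
          have h12 : (30 : ℝ) ≤ (Real.log X) ^ 2 := by nlinarith
          nlinarith
        rw [gP_eq, mul_one_div, div_le_iff₀ hp]
        refine h6.trans (le_of_eq ?_)
        have h7 : (pP PP i) ^ (-(3 / 4) : ℝ) * pP PP i = (pP PP i) ^ (-(3 / 4) : ℝ) * (pP PP i) ^ (1 : ℝ) := by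
          rw [Real.rpow_one]
        rw [h7, ← Real.rpow_add hp]
        norm_num
    refine h5.trans (le_of_eq ?_)
    rw [← Real.finsetProd_rpow _ _ (fun i _ => (hp0 i).le), one_div, ← Finset.prod_inv_distrib]
    apply Finset.prod_congr rfl
    intro i _
    rw [Real.rpow_neg (hp0 i).le]
  have h5 : (∏ i ∈ s, 30 * (U.card : ℝ) * gP PP i) * Real.exp (8 * ∑ i, gP PP i) * Zs ↥U (gP PP) h ≤
      (1 / (∏ i ∈ s, pP PP i) ^ (3 / 4 : ℝ)) * (Real.log X) ^ 8 * Zs ↥U (gP PP) h := by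
    have h6 := V.exp8
    have h7 : 0 ≤ ∏ i ∈ s, 30 * (U.card : ℝ) * gP PP i := Finset.prod_nonneg fun i _ => by
      have := V.g0 i
      positivity
    have h8 : 0 ≤ 1 / (∏ i ∈ s, pP PP i) ^ (3 / 4 : ℝ) := h7.trans h4
    gcongr
  calc 2 * Pool.Agent.H256R2.SC.EE (gQ PP) (fun x : Col PP.card ↥U => V2 (pP PP) (gP PP) h Q x * fw (gQ PP) s x)
      ≤ 2 * ((1 / (∏ i ∈ s, pP PP i) ^ (3 / 4 : ℝ)) * (Real.log X) ^ 8 * Zs ↥U (gP PP) h) := by
        linarith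
    _ = _ := by ring

end

end Pool.Agent.H312R2.RG
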