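import Pool.Agent.H99.GX.H312R2_RG_VW4

set_option autoImplicit false

/-! TEAM RG, task VW, part 5: the three totals -/

open Finset Filter

namespace Pool.Agent.H312R2.RG

open Pool.Agent.H378R2
open Pool.Agent.H378R2.LSBV (QQ mem_QQ TT TT_nonneg sum_wt)
open Pool.Agent.H256R2.SC (Col emb colr Lv emb_mem emb_surj colr_eq qq Hyp Zs Zs_ge_one SS)

theorem LPhi_nonneg' (X : ℝ) : 0 ≤ LPhi X := by
  unfold LPhi
  exact Finset.sum_nonneg fun n _ => mul_nonneg (Phi_nonneg _) ArithmeticFunction.vonMangoldt_nonneg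

theorem MPhi_nonneg' (X : ℝ) : 0 ≤ MPhi X := by
  unfold MPhi
  exact Finset.sum_nonneg fun n _ => Phi_nonneg _

theorem LPhi_le_triv (X : ℝ) (hX : 4 ≤ X) : LPhi X ≤ 3 * X * Real.log X := by
  have hX0 : 0 < X := by linarith
  have hlog : Real.log (3 * X) ≤ 2 * Real.log X := by
    rw [Real.log_mul (by norm_num) hX0.ne']
    have : Real.log 3 ≤ Real.log X := Real.log_le_log (by norm_num) (by linarith)
    linarith
  have hlog0 : 0 ≤ Real.log X := Real.log_nonneg (by linarith)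
  unfold LPhi
  have h1 : ∀ n ∈ Icc 1 ⌊3 * X⌋₊, Phi (n / X) * ArithmeticFunction.vonMangoldt n ≤ Real.log X := by
    intro n hn
    rw [mem_Icc] at hn
    have h2 := Phi_le_half ((n : ℝ) / X)
    have h3 := Phi_nonneg ((n : ℝ) / X)
    have h4 : ArithmeticFunction.vonMangoldt n ≤ Real.log n := ArithmeticFunction.vonMangoldt_le_log
    have h5 : (ArithmeticFunction.vonMangoldt n : ℝ) ≤ 2 * Real.log X := by
      refine h4.trans (le_trans ?_ hlog)
      have hn1 : (1 : ℝ) ≤ n := by exact_mod_cast hn.1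
      apply Real.log_le_log (by linarith)
      exact (Nat.le_floor_iff (by linarith)).1 hn.2
    have h6 : (0 : ℝ) ≤ ArithmeticFunction.vonMangoldt n := ArithmeticFunction.vonMangoldt_nonneg
    calc Phi (n / X) * ArithmeticFunction.vonMangoldt n ≤ 1 / 2 * (2 * Real.log X) :=
          mul_le_mul h2 h5 h6 (by norm_num)
      _ = Real.log X := by ring
  refine (Finset.sum_le_sum h1).trans ?_
  rw [Finset.sum_const, Nat.card_Icc, Nat.add_sub_cancel, nsmul_eq_mul]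
  apply mul_le_mul_of_nonneg_right _ hlog0
  exact Nat.floor_le (by linarith)

section
variable {X : ℝ} {A ps : ℕ} {U PP : Finset ℕ} {h : Finset (Fin PP.card) → ℝ} {z Kc : ℝ}

/-- first total -/
theorem VHyp.totA (V : VHyp X A ps U PP h z Kc) (K B E : ℕ) (hE : E = 2 ^ (2 * K + 1)) (S : Finset ℕ)
    (G : Col PP.card ↥U → ℝ) (B₁ C₁ : ℝ) (hB₁ : 0 ≤ B₁) (hC₁ : 0 ≤ C₁)
    (hdev : ∀ q : ℕ, 1 ≤ q → (q : ℝ) ≤ X ^ (1 / 100 : ℝ) →
      |Pool.Agent.H256R2.SC.EE (gP PP) (fun x => G (cut (mq PP (WW X S ps * q)) x)) -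
          Pool.Agent.H256R2.SC.EE (gP PP) G| ≤ C₁ / (Real.log X) ^ A * Zs ↥U (gP PP) h)
    (h1 : 2 * C₁ * (2 * Real.log X) ^ E * (4 * (Real.log X) ^ B) ≤ (Real.log X) ^ A)
    (h2 : 5 * B₁ * X ^ (1 / 100 : ℝ) * (2 * Real.log X) ^ E * (4 * (Real.log X) ^ B) * (WW X S ps : ℝ) ≤ X) :
    tot K X (WW X S ps) ps (fun q => MPhi X * (1 / (WW X S ps : ℝ)) * (1 / (q : ℝ)) *
        |Pool.Agent.H256R2.SC.EE (gP PP) (fun x => G (cut (mq PP (WW X S ps * q)) x)) -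
          Pool.Agent.H256R2.SC.EE (gP PP) G| + 5 * B₁) ≤
      Zs ↥U (gP PP) h * (X / ((WW X S ps : ℝ) * (Real.log X) ^ B)) := by
  have hX := V.hX
  have hX0 : 0 < X := by linarith
  have hL0 := V.L0
  have hZ := V.Z1
  have hZ0 : 0 ≤ Zs ↥U (gP PP) h := by linarith
  have hWpos : 0 < WW X S ps := WW_pos X S ps
  have hWr : (0 : ℝ) < (WW X S ps : ℝ) := by exact_mod_cast hWpos
  set W := WW X S ps with hW
  set Z := Zs ↥U (gP PP) h with hZdef
  set α : ℝ := 2 * X * (1 / (W : ℝ)) * (C₁ / (Real.log X) ^ A * Z) with hα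
  have hα0 : 0 ≤ α := by rw [hα]; positivity
  have hMP := MPhi_le X hX
  have hMP0 := MPhi_nonneg' X
  refine (tot_split K X hX W ps α (5 * B₁) hα0 (by positivity) _ ?_).trans ?_
  · intro q hq
    rw [mem_QQ] at hq
    have hq1 : 1 ≤ q := hq.1.1
    have hqR : (q : ℝ) ≤ X ^ (1 / 100 : ℝ) := by
      have := hq.1.2
      rw [exp_two_LL X hX0] at this
      exact (Nat.le_floor_iff (by positivity)).1 this
    have hd := hdev q hq1 hqR
    have hφ : (0 : ℝ) < q.totient := by exact_mod_cast Nat.totient_pos.2 hq1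
    have hφq : (q.totient : ℝ) ≤ q := by exact_mod_cast Nat.totient_le q
    have hinv : 1 / (q : ℝ) ≤ 1 / (q.totient : ℝ) := one_div_le_one_div_of_le hφ hφq
    apply add_le_add_left
    calc MPhi X * (1 / (W : ℝ)) * (1 / (q : ℝ)) * |Pool.Agent.H256R2.SC.EE (gP PP) (fun x => G (cut (mq PP (W * q)) x)) -
          Pool.Agent.H256R2.SC.EE (gP PP) G| ≤
        2 * X * (1 / (W : ℝ)) * (1 / (q.totient : ℝ)) * (C₁ / (Real.log X) ^ A * Z) := by
          gcongr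
      _ = α * (1 / (q.totient : ℝ)) := by rw [hα]; ring
  · rw [← hE]
    have h3 := close_tot X W (Real.log X) Z (2 * C₁ / (Real.log X) ^ A) (5 * B₁) α E B hX0 hWr hL0 hZ
      (X ^ (1 / 100 : ℝ)) (le_of_eq (by rw [hα]; ring)) (by
        have h4 : 2 * C₁ / (Real.log X) ^ A * (2 * Real.log X) ^ E * (4 * (Real.log X) ^ B) =
            2 * C₁ * (2 * Real.log X) ^ E * (4 * (Real.log X) ^ B) / (Real.log X) ^ A := by ring
        rw [h4, div_le_one (by positivity)]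
        exact h1) h2
    refine h3.trans ?_
    have : 0 ≤ Z * (X / ((W : ℝ) * (Real.log X) ^ B)) := by positivity
    linarith

/-- the total of the errors with `Lambda` -/
theorem VHyp.totB (V : VHyp X A ps U PP h z Kc) (K B E D : ℕ) (hE : E = 2 ^ (2 * K + 1)) (hAD : A = 4 * D)
    (hKA : 2 * K ≤ A) (S : Finset ℕ) {Z₀ : ℕ} (hps : GoodP Z₀ ps) (Q Q₁ B₁ C : ℝ) (hB₁ : 0 ≤ B₁) (hC : 0 ≤ C)
    (hQ₁ : Q₁ ≤ X ^ (1 / 200 : ℝ)) (Bc : ℕ → ℕ)
    (hBc1 : ∀ q, 1 ≤ q → (Bc q).Coprime (WW X S ps * q))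
    (hBV : BVat A X (WW X S ps) ps)
    (hφ : (WW X S ps : ℝ) / Real.log X ≤ ((WW X S ps).totient : ℝ))
    (hDS : ∀ (y₁ : ℝ) (F₂ : Finset ℕ), 1 ≤ y₁ →
    (∀ f ∈ F₂, 1 < f ∧ y₁ ≤ (f : ℝ) ∧ (f : ℝ) ≤ X ^ (1 / 200 : ℝ) ∧ Squarefree f ∧
      f.Coprime (WW X S ps * ps)) →
    ∑ q ∈ QQ (WW X S ps) ps ⌊X ^ (1 / 100 : ℝ)⌋₊, (q.divisors.card : ℝ) ^ (2 * K) *
      ((1 / (Nat.totient (WW X S ps * q) : ℝ)) *
        ∑ f₂ ∈ F₂.filter (fun f => f.Coprime q), (1 / (f₂ : ℝ) ^ (3 / 4 : ℝ)) *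
          ∑ f ∈ (WW X S ps * q).divisors, TT X (f * f₂)) ≤
      X / (Nat.totient (WW X S ps) : ℝ) * (C * (Real.log X) ^ (2 ^ (2 * K + 1) + 8) / y₁ ^ (1 / 4 : ℝ)))
    (h1 : 102 * (Real.log X) ^ 12 * (2 * Real.log X) ^ E * (4 * (Real.log X) ^ B) ≤ (Real.log X) ^ A)
    (h2 : (B₁ * (8 * (Real.log (3 * X)) ^ 2)) * X ^ (1 / 100 : ℝ) * (2 * Real.log X) ^ E *
      (4 * (Real.log X) ^ B) * (WW X S ps : ℝ) ≤ X)
    (h3 : 8 * (Real.log X) ^ (9 + B) ≤ (Real.log X) ^ A)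
    (h4 : 8 * C * (Real.log X) ^ (E + 17 + B) ≤ (Real.log X) ^ D) :
    tot K X (WW X S ps) ps (errB X (WW X S ps) PP (fun x : Col PP.card ↥U => V2 (pP PP) (gP PP) h Q x) Q₁ B₁ Bc) ≤
      Zs ↥U (gP PP) h * (X / ((WW X S ps : ℝ) * (Real.log X) ^ B)) := by
  have hX := V.hX
  have hX0 : 0 < X := by linarith
  have hL0 := V.L0
  have hL := V.hL
  have hZ := V.Z1
  have hZ0 : 0 ≤ Zs ↥U (gP PP) h := by linarith
  have hWpos : 0 < WW X S ps := WW_pos X S ps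
  have hWr : (0 : ℝ) < (WW X S ps : ℝ) := by exact_mod_cast hWpos
  have hφpos : (0 : ℝ) < ((WW X S ps).totient : ℝ) := by exact_mod_cast Nat.totient_pos.2 hWpos
  set W := WW X S ps with hW
  set Z := Zs ↥U (gP PP) h with hZdef
  set L := Real.log X with hLdef
  have hR : Real.exp (2 * LL X) = X ^ (1 / 100 : ℝ) := exp_two_LL X hX0
  set P := X / ((W : ℝ) * L ^ B) with hP
  have hP0 : 0 ≤ P := by rw [hP]; positivity
  -- X/phi(W)
  have hφinv : X / (W.totient : ℝ) ≤ X * L / W := by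
    rw [div_le_div_iff₀ hφpos hWr]
    have : (W : ℝ) ≤ L * W.totient := by
      rw [div_le_iff₀ hL0] at hφ
      linarith
    calc X * W ≤ X * (L * W.totient) := mul_le_mul_of_nonneg_left this hX0.le
      _ = _ := by ring
  -- part (i)
  have p1 : ∑ q ∈ QQ W ps ⌊X ^ (1 / 100 : ℝ)⌋₊, (q.divisors.card : ℝ) ^ (2 * K) *
      (|EPhi X (W * q) (Bc q)| * |Pool.Agent.H256R2.SC.EE (gQ PP)
        (fun x : Col PP.card ↥U => V2 (pP PP) (gP PP) h Q (cut (mq PP (W * q)) x))|) ≤ 1 / 4 * (Z * P) := by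
    have k1 : ∀ q ∈ QQ W ps ⌊X ^ (1 / 100 : ℝ)⌋₊, (q.divisors.card : ℝ) ^ (2 * K) *
      (|EPhi X (W * q) (Bc q)| * |Pool.Agent.H256R2.SC.EE (gQ PP)
        (fun x : Col PP.card ↥U => V2 (pP PP) (gP PP) h Q (cut (mq PP (W * q)) x))|) ≤
        (2 * (L ^ 8 * Z)) * ((q.divisors.card : ℝ) ^ A * |EPhi X (W * q) (Bc q)|) := by
      intro q hq
      rw [mem_QQ] at hq
      have hq1 : 1 ≤ q := hq.1.1
      have hqR : (q : ℝ) ≤ X ^ (1 / 100 : ℝ) := (Nat.le_floor_iff (by positivity)).1 hq.1.2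
      have k2 := V.cutB Q S hq1 hqR
      have k3 : (1 : ℝ) ≤ (q.divisors.card : ℝ) := by
        have : 0 < q.divisors.card := Finset.card_pos.2 ⟨1, Nat.one_mem_divisors.2 (by omega)⟩
        exact_mod_cast this
      have k4 : (q.divisors.card : ℝ) ^ (2 * K) ≤ (q.divisors.card : ℝ) ^ A := pow_le_pow_right₀ k3 hKA
      calc _ ≤ (q.divisors.card : ℝ) ^ A * (|EPhi X (W * q) (Bc q)| * (2 * (L ^ 8 * Z))) := by
            apply mul_le_mul k4 _ (by positivity) (by positivity)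
            exact mul_le_mul_of_nonneg_left k2 (abs_nonneg _)
        _ = _ := by ring
    refine (Finset.sum_le_sum k1).trans ?_
    rw [← Finset.mul_sum]
    have k5 := hBV Bc hBc1
    have k6 : ∑ q ∈ QQ W ps ⌊X ^ (1 / 100 : ℝ)⌋₊, (q.divisors.card : ℝ) ^ A * |EPhi X (W * q) (Bc q)| ≤
        X / ((Nat.totient W : ℝ) * L ^ A) := k5
    calc (2 * (L ^ 8 * Z)) * ∑ q ∈ QQ W ps ⌊X ^ (1 / 100 : ℝ)⌋₊, (q.divisors.card : ℝ) ^ A * |EPhi X (W * q) (Bc q)|
        ≤ (2 * (L ^ 8 * Z)) * (X / ((Nat.totient W : ℝ) * L ^ A)) := mul_le_mul_of_nonneg_left k6 (by positivity)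
      _ = (2 * (L ^ 8 * Z)) * ((X / (W.totient : ℝ)) / L ^ A) := by rw [div_div]
      _ ≤ (2 * (L ^ 8 * Z)) * ((X * L / W) / L ^ A) := by gcongr
      _ = (Z * P / 4) * (8 * L ^ (9 + B) / L ^ A) := by
          rw [hP, pow_add]
          field_simp
          norm_num
      _ ≤ (Z * P / 4) * 1 := by
          apply mul_le_mul_of_nonneg_left _ (by positivity)
          rw [div_le_one (by positivity)]
          exact h3
      _ = _ := by ring
  -- part (iii)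
  have p3 : ∑ q ∈ QQ W ps ⌊X ^ (1 / 100 : ℝ)⌋₊, (q.divisors.card : ℝ) ^ (2 * K) *
      ((1 / (Nat.totient (W * q) : ℝ)) *
        ∑ s ∈ (univ : Finset (Fin PP.card)).powerset.filter
          (fun s => s.Nonempty ∧ Disjoint s (mq PP (W * q)) ∧ ∏ i ∈ s, pP PP i ≤ Q₁),
          Pool.Agent.H256R2.SC.EE (gQ PP) (fun x : Col PP.card ↥U =>
            |V2 (pP PP) (gP PP) h Q (cut (mq PP (W * q)) x)| * fw (gQ PP) s x) *
            ∑ f ∈ (W * q).divisors, TT X (f * ∏ i ∈ s, (emb PP i : ℕ))) ≤ 1 / 4 * (Z * P) := by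
    have k1 : ∀ q ∈ QQ W ps ⌊X ^ (1 / 100 : ℝ)⌋₊, (q.divisors.card : ℝ) ^ (2 * K) *
      ((1 / (Nat.totient (W * q) : ℝ)) *
        ∑ s ∈ (univ : Finset (Fin PP.card)).powerset.filter
          (fun s => s.Nonempty ∧ Disjoint s (mq PP (W * q)) ∧ ∏ i ∈ s, pP PP i ≤ Q₁),
          Pool.Agent.H256R2.SC.EE (gQ PP) (fun x : Col PP.card ↥U =>
            |V2 (pP PP) (gP PP) h Q (cut (mq PP (W * q)) x)| * fw (gQ PP) s x) *
            ∑ f ∈ (W * q).divisors, TT X (f * ∏ i ∈ s, (emb PP i : ℕ))) ≤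
        (2 * (L ^ 8 * Z)) * ((q.divisors.card : ℝ) ^ (2 * K) * ((1 / (Nat.totient (W * q) : ℝ)) *
          ∑ f₂ ∈ (F2 PP Q₁).filter (fun f => f.Coprime q), (1 / (f₂ : ℝ) ^ (3 / 4 : ℝ)) *
          ∑ f ∈ (W * q).divisors, TT X (f * f₂))) := by
      intro q hq
      rw [mem_QQ] at hq
      have hq1 : 1 ≤ q := hq.1.1
      have hqR : (q : ℝ) ≤ X ^ (1 / 100 : ℝ) := (Nat.le_floor_iff (by positivity)).1 hq.1.2
      have k2 := V.partLS Q Q₁ S hq1 hqR
      calc _ ≤ (q.divisors.card : ℝ) ^ (2 * K) * ((1 / (Nat.totient (W * q) : ℝ)) *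
          ((2 * (L ^ 8 * Z)) * ∑ f₂ ∈ (F2 PP Q₁).filter (fun f => f.Coprime q), (1 / (f₂ : ℝ) ^ (3 / 4 : ℝ)) *
          ∑ f ∈ (W * q).divisors, TT X (f * f₂))) := by
            apply mul_le_mul_of_nonneg_left _ (by positivity)
            exact mul_le_mul_of_nonneg_left k2 (by positivity)
        _ = _ := by ring
    refine (Finset.sum_le_sum k1).trans ?_
    rw [← Finset.mul_sum]
    have k5 := hDS (L ^ A) (F2 PP Q₁) (one_le_pow₀ (by linarith))
      (F2_facts V.med hX (by linarith [V.hA]) hL S hps Q₁ hQ₁)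
    have k6 : (L ^ A) ^ (1 / 4 : ℝ) = L ^ D := by
      rw [hAD, ← Real.rpow_natCast, ← Real.rpow_mul hL0.le, ← Real.rpow_natCast]
      congr 1
      push_cast
      ring
    rw [k6, ← hE] at k5
    calc (2 * (L ^ 8 * Z)) * ∑ q ∈ QQ W ps ⌊X ^ (1 / 100 : ℝ)⌋₊, (q.divisors.card : ℝ) ^ (2 * K) *
        ((1 / (Nat.totient (W * q) : ℝ)) * ∑ f₂ ∈ (F2 PP Q₁).filter (fun f => f.Coprime q),
          (1 / (f₂ : ℝ) ^ (3 / 4 : ℝ)) * ∑ f ∈ (W * q).divisors, TT X (f * f₂))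
        ≤ (2 * (L ^ 8 * Z)) * (X / (W.totient : ℝ) * (C * L ^ (E + 8) / L ^ D)) :=
          mul_le_mul_of_nonneg_left k5 (by positivity)
      _ ≤ (2 * (L ^ 8 * Z)) * (X * L / W * (C * L ^ (E + 8) / L ^ D)) := by gcongr
      _ = (Z * P / 4) * (8 * C * L ^ (E + 17 + B) / L ^ D) := by
          rw [hP, show E + 17 + B = 8 + 1 + (E + 8) + B by omega, pow_add, pow_add, pow_add]
          field_simp
          ring
      _ ≤ (Z * P / 4) * 1 := by
          apply mul_le_mul_of_nonneg_left _ (by positivity)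
          rw [div_le_one (by positivity)]
          exact h4
      _ = _ := by ring
  -- parts (ii) and (iv)
  have p24 : tot K X W ps (fun q => LPhi X * (1 / (W.totient : ℝ)) * (1 / (q.totient : ℝ)) *
    |Pool.Agent.H256R2.SC.EE (gQ PP) (fun x : Col PP.card ↥U => V2 (pP PP) (gP PP) h Q (cut (mq PP (W * q)) x)) -
          Pool.Agent.H256R2.SC.EE (gQ PP) (fun x : Col PP.card ↥U => V2 (pP PP) (gP PP) h Q x)| +
      B₁ * (8 * (Real.log (3 * X)) ^ 2)) ≤ 1 / 2 * (Z * P) := by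
    set α : ℝ := LPhi X * (1 / (W.totient : ℝ)) * (34 * L ^ 10 / L ^ A * Z) with hα
    have hLP0 := LPhi_nonneg' X
    have hLP := LPhi_le_triv X hX
    have hα0 : 0 ≤ α := by rw [hα]; positivity
    refine (tot_split K X hX W ps α (B₁ * (8 * (Real.log (3 * X)) ^ 2)) hα0 (by positivity) _ ?_).trans ?_
    · intro q hq
      rw [mem_QQ, hR] at hq
      have hq1 : 1 ≤ q := hq.1.1
      have hqR : (q : ℝ) ≤ X ^ (1 / 100 : ℝ) := (Nat.le_floor_iff (by positivity)).1 hq.1.2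
      have hd := V.devB Q S hq1 hqR
      apply add_le_add_left
      calc LPhi X * (1 / (W.totient : ℝ)) * (1 / (q.totient : ℝ)) *
          |Pool.Agent.H256R2.SC.EE (gQ PP) (fun x : Col PP.card ↥U => V2 (pP PP) (gP PP) h Q (cut (mq PP (W * q)) x)) -
          Pool.Agent.H256R2.SC.EE (gQ PP) (fun x : Col PP.card ↥U => V2 (pP PP) (gP PP) h Q x)| ≤
          LPhi X * (1 / (W.totient : ℝ)) * (1 / (q.totient : ℝ)) * (34 * L ^ 10 / L ^ A * Z) :=
            mul_le_mul_of_nonneg_left hd (by positivity)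
        _ = α * (1 / (q.totient : ℝ)) := by rw [hα]; ring
    · rw [← hE]
      have hαle : α ≤ Z * (X / W) * (102 * L ^ 12 / L ^ A) := by
        have k1 : LPhi X * (1 / (W.totient : ℝ)) ≤ 3 * X * L * (L / W) := by
          have k2 : 1 / (W.totient : ℝ) ≤ L / W := by
            rw [div_le_div_iff₀ hφpos hWr, one_mul]
            rw [div_le_iff₀ hL0] at hφ
            linarith
          exact mul_le_mul hLP k2 (by positivity) (by positivity)
        calc α ≤ 3 * X * L * (L / W) * (34 * L ^ 10 / L ^ A * Z) := by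
              rw [hα]
              exact mul_le_mul_of_nonneg_right k1 (by positivity)
          _ = _ := by ring
      exact close_tot X W L Z (102 * L ^ 12 / L ^ A) (B₁ * (8 * (Real.log (3 * X)) ^ 2)) α E B hX0 hWr hL0 hZ
        (X ^ (1 / 100 : ℝ)) hαle (by
          have k4 : 102 * L ^ 12 / L ^ A * (2 * L) ^ E * (4 * L ^ B) =
              102 * L ^ 12 * (2 * L) ^ E * (4 * L ^ B) / L ^ A := by ring
          rw [k4, div_le_one (by positivity)]
          exact h1) h2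
  -- combination
  unfold tot at p24 ⊢
  rw [hR] at p24 ⊢
  have hsplit : ∑ q ∈ QQ W ps ⌊X ^ (1 / 100 : ℝ)⌋₊, (q.divisors.card : ℝ) ^ (2 * K) *
      errB X W PP (fun x : Col PP.card ↥U => V2 (pP PP) (gP PP) h Q x) Q₁ B₁ Bc q =
      ∑ q ∈ QQ W ps ⌊X ^ (1 / 100 : ℝ)⌋₊, (q.divisors.card : ℝ) ^ (2 * K) *
      (|EPhi X (W * q) (Bc q)| * |Pool.Agent.H256R2.SC.EE (gQ PP)
        (fun x : Col PP.card ↥U => V2 (pP PP) (gP PP) h Q (cut (mq PP (W * q)) x))|) +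
      ∑ q ∈ QQ W ps ⌊X ^ (1 / 100 : ℝ)⌋₊, (q.divisors.card : ℝ) ^ (2 * K) *
      ((1 / (Nat.totient (W * q) : ℝ)) *
        ∑ s ∈ (univ : Finset (Fin PP.card)).powerset.filter
          (fun s => s.Nonempty ∧ Disjoint s (mq PP (W * q)) ∧ ∏ i ∈ s, pP PP i ≤ Q₁),
          Pool.Agent.H256R2.SC.EE (gQ PP) (fun x : Col PP.card ↥U =>
            |V2 (pP PP) (gP PP) h Q (cut (mq PP (W * q)) x)| * fw (gQ PP) s x) *
            ∑ f ∈ (W * q).divisors, TT X (f * ∏ i ∈ s, (emb PP i : ℕ))) +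
      ∑ q ∈ QQ W ps ⌊X ^ (1 / 100 : ℝ)⌋₊, (q.divisors.card : ℝ) ^ (2 * K) *
      (LPhi X * (1 / (W.totient : ℝ)) * (1 / (q.totient : ℝ)) *
    |Pool.Agent.H256R2.SC.EE (gQ PP) (fun x : Col PP.card ↥U => V2 (pP PP) (gP PP) h Q (cut (mq PP (W * q)) x)) -
          Pool.Agent.H256R2.SC.EE (gQ PP) (fun x : Col PP.card ↥U => V2 (pP PP) (gP PP) h Q x)| +
      B₁ * (8 * (Real.log (3 * X)) ^ 2)) := by
    rw [← Finset.sum_add_distrib, ← Finset.sum_add_distrib]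
    apply Finset.sum_congr rfl
    intro q _
    unfold errB
    ring
  rw [hsplit]
  linarith

end

end Pool.Agent.H312R2.RG
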