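import Pool.Agent.H99.GX.H312R2_RG_VW

set_option autoImplicit false

/-! # The class sums of the repelling weights for arbitrary residues

Variants of `classA_of`, `classB_of`, `weights_at` of `Pool.Agent.H312R2.RG` (helper312's team): one residue class
modulo the big modulus, arbitrary residues `res p k` modulo the sieving primes. -/

open Finset Filter

namespace Pool.Agent.TH101.RG

open Pool.Agent.H312R2.RG
open Pool.Agent.H378R2
open Pool.Agent.H378R2.LSBV (QQ mem_QQ TT TT_nonneg sum_wt)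
open Pool.Agent.H256R2.SC (Col emb colr Lv emb_mem emb_surj colr_eq qq Hyp Zs Zs_ge_one SS tail_bound second_lower
  wt_nonneg)

theorem mq_empty {X : ℝ} (ps : ℕ) (S : Finset ℕ) {y : ℝ} {PP : Finset ℕ} (hPP : MedP ps y PP)
    (hyy : (yy X : ℝ) ≤ y) (i : Fin PP.card) : i ∉ mq PP (WW X S ps * 1) := by
  intro hi
  unfold mq at hi
  rw [mem_filter, mul_one] at hi
  obtain ⟨hp, hyp, _⟩ := hPP _ (emb_mem PP i)
  have h2 := (mem_PW.1 ((prime_dvd_WW hp).1 hi.2)).1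
  have h3 : ((emb PP i : ℕ) : ℝ) ≤ yy X := by exact_mod_cast h2
  linarith

/-- class sums with the weight `Phi` -/
theorem classA_res (X : ℝ) (hX : 4 ≤ X) (U : Finset ℕ) (ps : ℕ) (S : Finset ℕ) (y : ℝ)
    (PP : Finset ℕ) (hPP : MedP ps y PP) (hyy : (yy X : ℝ) ≤ y) (res : ℕ → ↥U → ℤ)
    (hinj : ∀ p ∈ PP, ∀ k l, k ≠ l → ¬ ((p : ℤ) ∣ res p k - res p l)) (r : ℕ)
    (G : Col PP.card ↥U → ℝ) (Q₁ B₁ : ℝ)
    (hG : Lv (pP PP) Q₁ B₁ G) (hsize : (WW X S ps : ℝ) * Q₁ ≤ X) :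
    |∑ n ∈ (Icc 1 ⌊3 * X⌋₊).filter (fun n => n ≡ r [MOD WW X S ps]), Phi (n / X) * G (colr PP res (n : ℤ)) -
      Pool.Agent.H256R2.SC.EE (gP PP) G * (MPhi X * (1 / (WW X S ps : ℝ)))| ≤
      (fun q : ℕ => MPhi X * (1 / (WW X S ps : ℝ)) * (1 / (q : ℝ)) *
        |Pool.Agent.H256R2.SC.EE (gP PP) (fun x => G (cut (mq PP (WW X S ps * q)) x)) -
          Pool.Agent.H256R2.SC.EE (gP PP) G| + 5 * B₁) 1 := by
  set W := WW X S ps with hW
  have hWpos : 0 < W := WW_pos X S ps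
  have hWr : (0 : ℝ) < W := by exact_mod_cast hWpos
  have h1 := class_phi X hX PP (fun p hp => (hPP p hp).1) res hinj (W * 1) r (by omega) (mq PP (W * 1))
    (fun i => by unfold mq; rw [mem_filter]; exact ⟨fun h => h.2, fun h => ⟨mem_univ _, h⟩⟩)
    (fun i hi => absurd hi (mq_empty ps S hPP hyy i))
    G Q₁ B₁ hG (by push_cast; rw [mul_one]; exact hsize)
  set Ec := Pool.Agent.H256R2.SC.EE (gP PP) (fun x => G (cut (mq PP (W * 1)) x)) with hEc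
  set E0 := Pool.Agent.H256R2.SC.EE (gP PP) G with hE0
  have hMnn : 0 ≤ MPhi X := by
    unfold MPhi
    exact Finset.sum_nonneg fun n _ => Phi_nonneg _
  set A1 := ∑ n ∈ (Icc 1 ⌊3 * X⌋₊).filter (fun n => n ≡ r [MOD W]),
      Phi (n / X) * G (colr PP res (n : ℤ)) with hA1
  have eA1 : ∑ n ∈ (Icc 1 ⌊3 * X⌋₊).filter (fun n => n ≡ r [MOD W * 1]),
      Phi (n / X) * G (colr PP res (n : ℤ)) = A1 := by
    rw [mul_one]
  have e1 : ((W * 1 : ℕ) : ℝ) = (W : ℝ) := by push_cast; ring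
  rw [eA1, e1] at h1
  set P := MPhi X * (1 / (W : ℝ)) with hP
  have hPnn : 0 ≤ P := by rw [hP]; positivity
  have h7 : P * |Ec - E0| + 5 * B₁ = (fun q : ℕ => P * (1 / (q : ℝ)) *
        |Pool.Agent.H256R2.SC.EE (gP PP) (fun x => G (cut (mq PP (W * q)) x)) - E0| + 5 * B₁) 1 := by
    show P * |Ec - E0| + 5 * B₁ = P * (1 / ((1 : ℕ) : ℝ)) * |Ec - E0| + 5 * B₁
    push_cast
    ring
  rw [← h7]
  have h6 : A1 - E0 * P = (A1 - P * Ec) + P * (Ec - E0) := by ring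
  rw [h6]
  refine (abs_add_le _ _).trans ?_
  rw [abs_mul, abs_of_nonneg hPnn]
  linarith

/-- class sums with the weight `Phi * Lambda` -/
theorem classB_res (X : ℝ) (hX : 4 ≤ X) (U : Finset ℕ) (ps : ℕ) (S : Finset ℕ) (y : ℝ)
    (PP : Finset ℕ) (hPP : MedP ps y PP) (hyy : (yy X : ℝ) ≤ y) (res : ℕ → ↥U → ℤ)
    (hinj : ∀ p ∈ PP, ∀ k l, k ≠ l → ¬ ((p : ℤ) ∣ res p k - res p l))
    (hres : ∀ p ∈ PP, ∀ k, ¬ ((p : ℤ) ∣ res p k)) (r : ℕ) (hr : r.Coprime (WW X S ps))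
    (hPu : ∀ i, (Fintype.card ↥U : ℝ) * gQ PP i < 1)
    (Bc : ℕ → ℕ) (hBc : ∀ q, 1 ≤ q → ∀ b' : ℕ, b'.Coprime (WW X S ps * q) →
      |EPhi X (WW X S ps * q) b'| ≤ |EPhi X (WW X S ps * q) (Bc q)|)
    (G : Col PP.card ↥U → ℝ) (Q₁ B₁ : ℝ)
    (hG : Lv (pP PP) Q₁ B₁ G) (hsize : (WW X S ps : ℝ) * Q₁ ≤ X) :
    |∑ n ∈ (Icc 1 ⌊3 * X⌋₊).filter (fun n => n ≡ r [MOD WW X S ps]),
        Phi (n / X) * ArithmeticFunction.vonMangoldt n * G (colr PP res (n : ℤ)) -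
      Pool.Agent.H256R2.SC.EE (gQ PP) G * (LPhi X * (1 / ((WW X S ps).totient : ℝ)))| ≤
      Pool.Agent.H312R2.RG.errB X (WW X S ps) PP G Q₁ B₁ Bc 1 := by
  classical
  set W := WW X S ps with hW
  have hWpos : 0 < W := WW_pos X S ps
  have hWr : (0 : ℝ) < W := by exact_mod_cast hWpos
  have h1 := class_lam X hX PP (fun p hp => (hPP p hp).1) res hinj (W * 1) r (by omega)
    (by rw [mul_one]; exact hr) hPu (mq PP (W * 1))
    (fun i => by unfold mq; rw [mem_filter]; exact ⟨fun h => h.2, fun h => ⟨mem_univ _, h⟩⟩)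
    (fun i hi => absurd hi (mq_empty ps S hPP hyy i))
    (fun i _ k => hres _ (emb_mem PP i) k)
    G Q₁ B₁ hG (by push_cast; rw [mul_one]; exact hsize)
  set Ec := Pool.Agent.H256R2.SC.EE (gQ PP) (fun x => G (cut (mq PP (W * 1)) x)) with hEc
  set E0 := Pool.Agent.H256R2.SC.EE (gQ PP) G with hE0
  set A1 := ∑ n ∈ (Icc 1 ⌊3 * X⌋₊).filter (fun n => n ≡ r [MOD W]),
      Phi (n / X) * ArithmeticFunction.vonMangoldt n * G (colr PP res (n : ℤ)) with hA1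
  set A2 := ∑ n ∈ (Icc 1 ⌊3 * X⌋₊).filter (fun n => n ≡ r [MOD W]),
      Phi (n / X) * ArithmeticFunction.vonMangoldt n with hA2
  have eA1 : ∑ n ∈ (Icc 1 ⌊3 * X⌋₊).filter (fun n => n ≡ r [MOD W * 1]),
      Phi (n / X) * ArithmeticFunction.vonMangoldt n * G (colr PP res (n : ℤ)) = A1 := by
    rw [mul_one]
  have eA2 : ∑ n ∈ (Icc 1 ⌊3 * X⌋₊).filter (fun n => n ≡ r [MOD W * 1]),
      Phi (n / X) * ArithmeticFunction.vonMangoldt n = A2 := by
    rw [mul_one]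
  rw [eA1, eA2] at h1
  have hEP : EPhi X (W * 1) r = A2 - LPhi X * (1 / ((W * 1).totient : ℝ)) := by
    rw [EPhi_eq X (W * 1) r, eA2]
  have hLnn : 0 ≤ LPhi X := by
    unfold LPhi
    exact Finset.sum_nonneg fun n _ => mul_nonneg (Phi_nonneg _) ArithmeticFunction.vonMangoldt_nonneg
  have h6 : A1 - E0 * (LPhi X * (1 / (W.totient : ℝ))) =
      (A1 - A2 * Ec) + EPhi X (W * 1) r * Ec +
        LPhi X * (1 / (W.totient : ℝ)) * (1 / ((1 : ℕ).totient : ℝ)) * (Ec - E0) := by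
    rw [hEP, mul_one, Nat.totient_one]
    push_cast
    ring
  rw [h6]
  have hb1 := hBc 1 le_rfl r (by rw [mul_one]; exact hr)
  refine (abs_add_le _ _).trans ?_
  have h7 : |A1 - A2 * Ec + EPhi X (W * 1) r * Ec| ≤ |A1 - A2 * Ec| + |EPhi X (W * 1) (Bc 1)| * |Ec| := by
    refine (abs_add_le _ _).trans ?_
    rw [abs_mul]
    have := mul_le_mul_of_nonneg_right hb1 (abs_nonneg Ec)
    linarith
  have h8 : |LPhi X * (1 / (W.totient : ℝ)) * (1 / ((1 : ℕ).totient : ℝ)) * (Ec - E0)| =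
      LPhi X * (1 / (W.totient : ℝ)) * (1 / ((1 : ℕ).totient : ℝ)) * |Ec - E0| := by
    rw [abs_mul, abs_of_nonneg (by positivity)]
  rw [h8]
  unfold Pool.Agent.H312R2.RG.errB
  linarith

/-- the error of one class is part of the total error -/
theorem err_one_le (X : ℝ) (hX : 4 ≤ X) (W ps : ℕ) (err : ℕ → ℝ) (h0 : ∀ q, 0 ≤ err q) :
    err 1 ≤ tot 0 X W ps err := by
  unfold tot
  have h1 : 1 ∈ QQ W ps ⌊Real.exp (2 * LL X)⌋₊ := by
    rw [mem_QQ]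
    refine ⟨⟨le_rfl, ?_⟩, squarefree_one, Nat.coprime_one_left _⟩
    apply Nat.le_floor
    rw [exp_two_LL X (by linarith), Nat.cast_one]
    exact Real.one_le_rpow (by linarith) (by norm_num)
  have h2 := Finset.single_le_sum (f := fun q : ℕ => (q.divisors.card : ℝ) ^ (2 * 0) * err q)
    (fun q _ => mul_nonneg (by positivity) (h0 q)) h1
  simpa using h2

end Pool.Agent.TH101.RG
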