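import Pool.Graph.R_seed8.TH101.RG.Sh
import Pool.Agent.H99.GX.H312R2_RG_COV
import Pool.Agent.H99.GX.H312R2_RG_A1

set_option autoImplicit false
set_option maxHeartbeats 4000000

/-! # The covering for the window around `a n + b` -/

namespace Pool.Agent.TH101.RG

open Finset Filter Pool.Agent.H398R2.RK
open Pool.Agent.H378R2
open Pool.Agent.H312R2.RG (cov_ev ev_ff)
open Pool.Agent.H256R2.SC (ff)

open scoped Classical

theorem sum_union_le' {s t : Finset ℕ} (f : ℕ → ℝ) (hf : ∀ i, 0 ≤ f i) :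
    ∑ i ∈ s ∪ t, f i ≤ ∑ i ∈ s, f i + ∑ i ∈ t, f i := by
  rw [← sum_union_inter]
  have : 0 ≤ ∑ i ∈ s ∩ t, f i := sum_nonneg fun i _ => hf i
  linarith

theorem sum_biUnion_le' {ι : Type} (s : Finset ι) (t : ι → Finset ℕ) (f : ℕ → ℝ) (hf : ∀ i, 0 ≤ f i) :
    ∑ i ∈ s.biUnion t, f i ≤ ∑ j ∈ s, ∑ i ∈ t j, f i := by
  induction s using Finset.induction_on with
  | empty => simp
  | insert a s ha ih =>
    rw [biUnion_insert, sum_insert ha]
    exact (sum_union_le' f hf).trans (by linarith)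

theorem solve (p : ℕ) (hp : p.Prime) (a c : ℤ) (ha : ¬ (p : ℤ) ∣ a) : ∃ ρ : ℕ, (p : ℤ) ∣ a * ρ + c := by
  haveI := Fact.mk hp
  have ha' : (a : ZMod p) ≠ 0 := by
    rw [Ne, ZMod.intCast_zmod_eq_zero_iff_dvd]
    exact ha
  refine ⟨((-(c : ZMod p)) * (a : ZMod p)⁻¹).val, ?_⟩
  rw [← ZMod.intCast_zmod_eq_zero_iff_dvd]
  push_cast
  rw [ZMod.natCast_zmod_val]
  field_simp
  ring

end Pool.Agent.TH101.RG
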