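import Pool.Agent.H99.GX.TH101_RG_Cls
import Pool.Agent.H99.GX.TH101_RG_Par

set_option autoImplicit false
set_option maxHeartbeats 4000000

/-! # The repelling weights for arbitrary residues -/

open Finset Filter

namespace Pool.Agent.TH101.RG

open Pool.Agent.H312R2.RG
open Pool.Agent.H378R2
open Pool.Agent.H378R2.LSBV (QQ mem_QQ TT TT_nonneg sum_wt)
open Pool.Agent.H256R2.SC (Col emb colr Lv emb_mem emb_surj colr_eq qq Hyp Zs Zs_ge_one SS tail_bound second_lower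
  wt_nonneg)

/-- the main estimate at a single `X` (after `Pool.Agent.H312R2.RG.weights_at`) -/
theorem weightsG_at (B E D A : ℕ) (hE : E = 2 ^ (2 * 0 + 1)) (hD : D = E + B + 100) (hA : A = 4 * D)
    (C : ℝ) (hC : 0 ≤ C) (X : ℝ) (hX : 4 ≤ X) (hL : 100 ≤ Real.log X)
    (h9 : (9 : ℝ) ≤ X ^ (3 / 500 : ℝ))
    (hG1 : (100000 * 2 ^ E + 8 * C) * (Real.log X) ^ (E + B + 70) ≤ (Real.log X) ^ D)
    (hG2 : ∀ W : ℝ, 0 ≤ W → W ≤ Real.exp (Real.log X / 700) →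
      (100000 * 2 ^ E) * (Real.log X) ^ (E + B + 10) * X ^ (1 / 10 : ℝ) * W ≤ X)
    (hφ : ∀ (S : Finset ℕ) (ps : ℕ), (WW X S ps : ℝ) / Real.log X ≤ ((WW X S ps).totient : ℝ))
    (hDS : ∀ (Z ps : ℕ) (S : Finset ℕ), GoodP Z ps → ∀ (y₁ : ℝ) (F₂ : Finset ℕ), 1 ≤ y₁ →
    (∀ f ∈ F₂, 1 < f ∧ y₁ ≤ (f : ℝ) ∧ (f : ℝ) ≤ X ^ (1 / 200 : ℝ) ∧ Squarefree f ∧
      f.Coprime (WW X S ps * ps)) →
    ∑ q ∈ QQ (WW X S ps) ps ⌊X ^ (1 / 100 : ℝ)⌋₊, (q.divisors.card : ℝ) ^ (2 * 0) *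
      ((1 / (Nat.totient (WW X S ps * q) : ℝ)) *
        ∑ f₂ ∈ F₂.filter (fun f => f.Coprime q), (1 / (f₂ : ℝ) ^ (3 / 4 : ℝ)) *
          ∑ f ∈ (WW X S ps * q).divisors, TT X (f * f₂)) ≤
      X / (Nat.totient (WW X S ps) : ℝ) * (C * (Real.log X) ^ (2 ^ (2 * 0 + 1) + 8) / y₁ ^ (1 / 4 : ℝ)))
    (Z ps : ℕ) (S : Finset ℕ) (hps : GoodP Z ps) (hBV : BVat A X (WW X S ps) ps)
    (U : Finset ℕ) (hUne : U.Nonempty) (huL : (U.card : ℝ) ≤ Real.log X)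
    (PP : Finset ℕ) (h : Finset (Fin PP.card) → ℝ) (z Kc δ : ℝ) (J : ℕ)
    (hPP : ∀ p ∈ PP, p.Prime ∧ (Real.log X) ^ A < p ∧ (p : ℝ) ≤ z ∧ p ≠ ps)
    (H : Hyp (pP PP) (gP PP) h z Kc) (hJ : Even J) (hz : z ≤ X ^ (1 / 1000 : ℝ))
    (hzJ : z ^ J ≤ X ^ (1 / 1000 : ℝ)) (hnJ : ((PP.card : ℝ) + 1) ^ J ≤ X ^ (1 / 1000 : ℝ))
    (hsg : ∑ i, gP PP i ≤ Real.log (Real.log X)) (hsq : 4 * (U.card : ℝ) * ∑ i, (gP PP i) ^ 2 ≤ 1 / 4)
    (hδ : δ ≤ 2 / (Real.log X) ^ (A - 1))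
    (hδD : ∀ (κ : Type) [Fintype κ] [DecidableEq κ], ∀ D : Col PP.card κ, qq (pP PP) D ≤ X ^ (1 / 1000 : ℝ) →
        2 * ∑ i with D i ≠ none, gP PP i ≤ δ)
    (hη : ((U.card : ℝ) + 1) * (δ ^ 2 + Real.exp (2 * (U.card : ℝ) * Kc / Real.log z -
        Real.log (X ^ (1 / 1000 : ℝ) / z) / Real.log z) +
        (1 / 8) ^ J * Real.exp (50 * ∑ i, gP PP i)) ≤ 1 / (Real.log X) ^ (B + 1))
    (res : ℕ → ↥U → ℤ) (hinj : ∀ p ∈ PP, ∀ k l, k ≠ l → ¬ ((p : ℤ) ∣ res p k - res p l))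
    (hres : ∀ p ∈ PP, ∀ k, ¬ ((p : ℤ) ∣ res p k)) (r : ℕ) (hr : r.Coprime (WW X S ps)) :
  ∃ (V T : ℤ → ℝ) (Z₁ M M' M₂ : ℝ),
    (∀ a, 0 ≤ V a ∧ V a ≤ X ^ (1 / 100 : ℝ)) ∧ (∀ a, 0 ≤ T a) ∧
    (∀ a, T a < 1 → ∀ k : ↥U, ∃ p ∈ PP, (p : ℤ) ∣ a - res p k) ∧
    1 ≤ Z₁ ∧ 3 / 4 * Z₁ ≤ M ∧ M ≤ Z₁ ∧ 3 / 4 * M ≤ M' ∧ 0 ≤ M₂ ∧ M₂ ≤ Z₁ / (Real.log X) ^ B ∧
    |∑ n ∈ (Icc 1 ⌊3 * X⌋₊).filter (fun n => n ≡ r [MOD WW X S ps]), Phi (n / X) * (V (n : ℤ) * T (n : ℤ)) -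
      M₂ * (MPhi X * (1 / (WW X S ps : ℝ)))| ≤ Z₁ * (X / ((WW X S ps : ℝ) * (Real.log X) ^ B)) ∧
    |∑ n ∈ (Icc 1 ⌊3 * X⌋₊).filter (fun n => n ≡ r [MOD WW X S ps]),
        Phi (n / X) * ArithmeticFunction.vonMangoldt n * V (n : ℤ) -
      M' * (LPhi X * (1 / ((WW X S ps).totient : ℝ)))| ≤
      Z₁ * (X / ((WW X S ps : ℝ) * (Real.log X) ^ B)) := by
  classical
  have hX0 : 0 < X := by linarith
  set L := Real.log X with hLdef
  have hL0 : 0 < L := by linarith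
  have hL1 : 1 ≤ L := by linarith
  have hA2 : 12 ≤ A := by omega
  have hV : VHyp X A ps U PP h z Kc := by
    refine ⟨hL, hX, hA2, fun p hp => ?_, H, hUne, huL, hsg, hsq⟩
    obtain ⟨g1, g2, g3, g4⟩ := hPP p hp
    exact ⟨g1, g2, g4⟩
  -- powers of X
  set q1 := X ^ (1 / 1000 : ℝ) with hq1
  have hq1one : 1 ≤ q1 := Real.one_le_rpow (by linarith) (by norm_num)
  have hq10 : 0 < q1 := by linarith
  have hpow : ∀ k : ℕ, X ^ ((k : ℝ) / 1000) = q1 ^ k := by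
    intro k
    rw [hq1, ← Real.rpow_natCast, ← Real.rpow_mul hX0.le]
    congr 1
    ring
  have e10 : X ^ (1 / 100 : ℝ) = q1 ^ 10 := by
    rw [← hpow 10]; norm_num
  have e100 : X ^ (1 / 10 : ℝ) = q1 ^ 100 := by
    rw [← hpow 100]; norm_num
  have e5 : X ^ (1 / 200 : ℝ) = q1 ^ 5 := by
    rw [← hpow 5]; norm_num
  have hWpos : 0 < WW X S ps := WW_pos X S ps
  have hWr : (0 : ℝ) < (WW X S ps : ℝ) := by exact_mod_cast hWpos
  have hWle := WW_le X (by linarith) S ps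
  have hG2' := hG2 (WW X S ps) hWr.le hWle
  rw [e100] at hG2'
  set W := WW X S ps with hW
  have h2E : (1 : ℝ) ≤ 2 ^ E := one_le_pow₀ (by norm_num)
  have hyy : (yy X : ℝ) ≤ L ^ A := by
    have h1 : (yy X : ℝ) ≤ L / 1000 := Nat.floor_le (by positivity)
    have h2 : L ^ 1 ≤ L ^ A := pow_le_pow_right₀ hL1 (by omega)
    rw [pow_one] at h2
    linarith
  have hu0 : (0 : ℝ) ≤ U.card := Nat.cast_nonneg _
  have hg1 : ∀ i, gP PP i ≤ 1 := fun i => by linarith [hV.g1 i]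
  have hs : 2 * (Fintype.card ↥U : ℝ) * ∑ i, 1 / (pP PP i) ^ 2 ≤ 1 := by
    rw [cardU]
    have h1 : ∑ i, 1 / (pP PP i) ^ 2 = ∑ i, (gP PP i) ^ 2 := by
      apply Finset.sum_congr rfl
      intro i _
      rw [gP_eq, div_pow, one_pow]
    rw [h1]
    have h2 : 0 ≤ ∑ i, (gP PP i) ^ 2 := Finset.sum_nonneg fun i _ => sq_nonneg _
    have h3 : 0 ≤ (U.card : ℝ) * ∑ i, (gP PP i) ^ 2 := mul_nonneg hu0 h2
    linarith
  have hpz : ∀ i, pP PP i ≤ z := fun i => (hPP _ (emb_mem PP i)).2.2.1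
  have hz1 := H.z1
  have hZ := hV.Z1
  set Zv := Zs ↥U (gP PP) h with hZv
  have hZ0 : 0 ≤ Zv := by linarith
  -- levels
  have hLv1 : Lv (pP PP) (q1 * q1) (9 * q1 ^ 4) (fun x : Col PP.card ↥U => V2 (pP PP) (gP PP) h q1 x) :=
    V2_Lv H q1 hq10 hg1 hs
  have hLv2 := V2SS_Lv (κ := ↥U) H q1 hq10 hg1 hs hpz J
  rw [cardU] at hLv2
  set B₂ : ℝ := 9 * q1 ^ 4 * ((U.card : ℝ) * ((PP.card : ℝ) + 1) ^ J) with hB₂
  have hB₂0 : 0 ≤ B₂ := by rw [hB₂]; positivity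
  have hB₂le : B₂ ≤ 9 * q1 ^ 5 * L := by
    calc B₂ ≤ 9 * q1 ^ 4 * (L * q1) := by
          rw [hB₂]
          apply mul_le_mul_of_nonneg_left _ (by positivity)
          exact mul_le_mul huL hnJ (by positivity) (by linarith)
      _ = _ := by ring
  have hEBL : (1 : ℝ) ≤ L ^ (E + B + 10) := one_le_pow₀ hL1
  have hsz1 : (W : ℝ) * X ^ (1 / 100 : ℝ) * (q1 * q1) ≤ X := by
    rw [e10]
    calc (W : ℝ) * q1 ^ 10 * (q1 * q1) = 1 * 1 * q1 ^ 12 * W := by ring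
      _ ≤ (100000 * 2 ^ E) * L ^ (E + B + 10) * q1 ^ 100 * W := by
          have : q1 ^ 12 ≤ q1 ^ 100 := pow_le_pow_right₀ hq1one (by norm_num)
          have h5 : (1 : ℝ) ≤ 100000 * 2 ^ E := by linarith
          gcongr
      _ ≤ X := hG2'
  have hsz2 : (W : ℝ) * X ^ (1 / 100 : ℝ) * (q1 * q1 * z ^ J) ≤ X := by
    rw [e10]
    have hzJ0 : 0 ≤ z ^ J := by positivity
    calc (W : ℝ) * q1 ^ 10 * (q1 * q1 * z ^ J) ≤ (W : ℝ) * q1 ^ 10 * (q1 * q1 * q1) := by gcongr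
      _ = 1 * 1 * q1 ^ 13 * W := by ring
      _ ≤ (100000 * 2 ^ E) * L ^ (E + B + 10) * q1 ^ 100 * W := by
          have : q1 ^ 13 ≤ q1 ^ 100 := pow_le_pow_right₀ hq1one (by norm_num)
          have h5 : (1 : ℝ) ≤ 100000 * 2 ^ E := by linarith
          gcongr
      _ ≤ X := hG2'
  obtain ⟨Bc, hBc1, hBc2⟩ := Bc_exists X W hWpos
  have hPu : ∀ i, (Fintype.card ↥U : ℝ) * gQ PP i < 1 := fun i => by linarith [hV.hugQ i]
  -- the class sums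
  have hX100 : 1 ≤ X ^ (1 / 100 : ℝ) := Real.one_le_rpow (by linarith) (by norm_num)
  have hsz1' : (W : ℝ) * (q1 * q1) ≤ X := by
    refine le_trans ?_ hsz1
    have : (W : ℝ) * 1 ≤ (W : ℝ) * X ^ (1 / 100 : ℝ) := mul_le_mul_of_nonneg_left hX100 hWr.le
    rw [mul_one] at this
    exact mul_le_mul_of_nonneg_right this (by positivity)
  have hsz2' : (W : ℝ) * (q1 * q1 * z ^ J) ≤ X := by
    refine le_trans ?_ hsz2
    have : (W : ℝ) * 1 ≤ (W : ℝ) * X ^ (1 / 100 : ℝ) := mul_le_mul_of_nonneg_left hX100 hWr.le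
    rw [mul_one] at this
    have hz0' : 0 ≤ z ^ J := by positivity
    exact mul_le_mul_of_nonneg_right this (by positivity)
  have hcA2 := classA_res X hX U ps S (L ^ A) PP hV.med hyy res hinj r
    (fun x => V2 (pP PP) (gP PP) h q1 x * ∑ k, SS J k x) (q1 * q1 * z ^ J) B₂ hLv2 hsz2'
  have hcB := classB_res X hX U ps S (L ^ A) PP hV.med hyy res hinj hres r hr hPu Bc hBc2
    (fun x => V2 (pP PP) (gP PP) h q1 x) (q1 * q1) (9 * q1 ^ 4) hLv1 hsz1'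
  -- masses
  have hηpos : (0 : ℝ) < L ^ (B + 1) := by positivity
  have hLB1 : 1 / L ^ (B + 1) ≤ 1 / L ^ B := by
    apply one_div_le_one_div_of_le (by positivity)
    exact pow_le_pow_right₀ hL1 (by omega)
  have hLB100 : 1 / L ^ (B + 1) ≤ 1 / 100 := by
    apply one_div_le_one_div_of_le (by norm_num)
    calc (100 : ℝ) ≤ L := hL
      _ = L ^ 1 := (pow_one _).symm
      _ ≤ L ^ (B + 1) := pow_le_pow_right₀ hL1 (by omega)
  have hδD' : ∀ D : Col PP.card ↥U, qq (pP PP) D ≤ q1 → 2 * ∑ i with D i ≠ none, gP PP i ≤ δ :=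
    fun D hD => hδD ↥U D hD
  have htg : ∀ i, 24 * gP PP i ≤ 1 := fun i => by linarith [hV.g1 i]
  have hM2 := EE_SS_sum (κ := ↥U) H q1 δ J hJ hq10 htg hV.hug4 hδD' (1 / L ^ (B + 1)) (by rw [cardU]; exact hη)
  have hSSnn : ∀ x : Col PP.card ↥U, 0 ≤ V2 (pP PP) (gP PP) h q1 x * ∑ k, SS J k x := fun x =>
    mul_nonneg (V2_nonneg _ _ _ _ _) (Finset.sum_nonneg fun k _ => SS_nonneg' J hJ k x)
  have hM20 : 0 ≤ Pool.Agent.H256R2.SC.EE (gP PP) (fun x : Col PP.card ↥U =>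
      V2 (pP PP) (gP PP) h q1 x * ∑ k, SS J k x) := by
    unfold Pool.Agent.H256R2.SC.EE
    exact Finset.sum_nonneg fun x _ => mul_nonneg (Finset.prod_nonneg fun i _ =>
      Pool.Agent.H256R2.SC.wt_nonneg (hV.g0 i).le (hV.hug i) _) (hSSnn x)
  have hM2Z : Pool.Agent.H256R2.SC.EE (gP PP) (fun x : Col PP.card ↥U =>
      V2 (pP PP) (gP PP) h q1 x * ∑ k, SS J k x) ≤ Zv := by
    refine hM2.trans ?_
    calc Zv * (1 / L ^ (B + 1)) ≤ Zv * 1 := by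
          apply mul_le_mul_of_nonneg_left _ hZ0
          linarith
      _ = Zv := mul_one _
  have hMle := EEV_le (κ := ↥U) H q1 hV.hug
  -- the tail
  have hexp : Real.exp (2 * (U.card : ℝ) * Kc / Real.log z - Real.log (q1 / z) / Real.log z) ≤ 1 / 100 := by
    refine le_trans ?_ (hη.trans hLB100)
    set Ex := Real.exp (2 * (U.card : ℝ) * Kc / Real.log z - Real.log (q1 / z) / Real.log z) with hEx
    have h1 : 0 < Ex := Real.exp_pos _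
    have h2 : 0 ≤ (1 / 8 : ℝ) ^ J * Real.exp (50 * ∑ i, gP PP i) := by positivity
    have h3 : 0 ≤ δ ^ 2 := sq_nonneg _
    have h4 : Ex ≤ δ ^ 2 + Ex + (1 / 8) ^ J * Real.exp (50 * ∑ i, gP PP i) := by linarith
    calc Ex ≤ 1 * (δ ^ 2 + Ex + (1 / 8) ^ J * Real.exp (50 * ∑ i, gP PP i)) := by rw [one_mul]; exact h4
      _ ≤ ((U.card : ℝ) + 1) * (δ ^ 2 + Ex + (1 / 8) ^ J * Real.exp (50 * ∑ i, gP PP i)) := by
          apply mul_le_mul_of_nonneg_right (by linarith) (by linarith)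
  have htail := tail_bound (κ := ↥U) H (q1 / z) (by positivity)
  rw [cardU] at htail
  have huδ : (Fintype.card ↥U : ℝ) * δ ≤ 1 / 4 := by
    rw [cardU]
    have h1 : (U.card : ℝ) * δ ≤ (U.card : ℝ) * (2 / L ^ (A - 1)) := mul_le_mul_of_nonneg_left hδ hu0
    have h2 : (U.card : ℝ) * (2 / L ^ (A - 1)) ≤ L * (2 / L ^ (A - 1)) :=
      mul_le_mul_of_nonneg_right huL (by positivity)
    have h3 : L ^ 2 ≤ L ^ (A - 1) := pow_le_pow_right₀ hL1 (by omega)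
    have h4 : L * (2 / L ^ (A - 1)) ≤ 1 / 4 := by
      rw [mul_div_assoc', div_le_div_iff₀ (by positivity) (by norm_num)]
      have h5 : L * 8 ≤ L ^ 2 := by
        rw [pow_two]
        exact mul_le_mul_of_nonneg_left (by linarith) (by positivity)
      linarith
    linarith
  have hMge := second_lower H q1 δ _ hV.hug hδD' huδ hq10 htail (by
    have := mul_le_mul_of_nonneg_right hexp hZ0
    linarith)
  -- M'
  have hratio := ratio_lower (κ := ↥U) (gP PP) (gQ PP) (fun i => (hV.g0 i).le) hV.le_gQ hV.gQ_le hV.hug4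
    (fun x => V2 (pP PP) (gP PP) h q1 x) (fun x => V2_nonneg _ _ _ _ _)
  rw [cardU] at hratio
  have hMnn : 0 ≤ Pool.Agent.H256R2.SC.EE (gP PP) (fun x : Col PP.card ↥U => V2 (pP PP) (gP PP) h q1 x) := by
    have : (0 : ℝ) ≤ 3 / 4 * Zv := by positivity
    exact this.trans hMge
  have hM' : 3 / 4 * Pool.Agent.H256R2.SC.EE (gP PP) (fun x : Col PP.card ↥U => V2 (pP PP) (gP PP) h q1 x) ≤
      Pool.Agent.H256R2.SC.EE (gQ PP) (fun x : Col PP.card ↥U => V2 (pP PP) (gP PP) h q1 x) := by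
    refine le_trans ?_ hratio
    apply mul_le_mul_of_nonneg_right _ hMnn
    linarith
  -- growth
  have hGa : ∀ (c : ℝ) (m : ℕ), 0 ≤ c → c ≤ 100000 → m ≤ E + B + 70 →
      c * 2 ^ E * L ^ m ≤ L ^ A := by
    intro c m hc0 hc hm
    have h1 : L ^ m ≤ L ^ (E + B + 70) := pow_le_pow_right₀ hL1 hm
    have h2 : L ^ D ≤ L ^ A := pow_le_pow_right₀ hL1 (by omega)
    calc c * 2 ^ E * L ^ m ≤ (100000 * 2 ^ E + 8 * C) * L ^ (E + B + 70) := by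
          apply mul_le_mul _ h1 (by positivity) (by positivity)
          have : c * 2 ^ E ≤ 100000 * 2 ^ E := mul_le_mul_of_nonneg_right hc (by positivity)
          linarith
      _ ≤ L ^ D := hG1
      _ ≤ L ^ A := h2
  have hGb : ∀ (c : ℝ) (m k : ℕ), 0 ≤ c → c ≤ 100000 → m ≤ E + B + 10 → k ≤ 100 →
      c * 2 ^ E * L ^ m * q1 ^ k * W ≤ X := by
    intro c m k hc0 hc hm hk
    have h1 : L ^ m ≤ L ^ (E + B + 10) := pow_le_pow_right₀ hL1 hm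
    have h2 : q1 ^ k ≤ q1 ^ 100 := pow_le_pow_right₀ hq1one hk
    refine le_trans ?_ hG2'
    gcongr
  have hMP := MPhi_nonneg' X
  have hLP := LPhi_nonneg' X
  have hfw0 : ∀ (s : Finset (Fin PP.card)) (x : Col PP.card ↥U), 0 ≤ fw (gQ PP) s x := by
    intro s x
    unfold fw
    apply Finset.prod_nonneg
    intro i _
    split_ifs
    · have h4 := hV.hugQ i
      have h5 := hV.gQ0 i
      exact div_nonneg (by positivity) (by linarith)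
    · norm_num
  have herrB : ∀ q, 0 ≤ Pool.Agent.H312R2.RG.errB X W PP (fun x : Col PP.card ↥U => V2 (pP PP) (gP PP) h q1 x)
      (q1 * q1) (9 * q1 ^ 4) Bc q := by
    intro q
    unfold Pool.Agent.H312R2.RG.errB
    have h1 : ∀ s : Finset (Fin PP.card), 0 ≤ Pool.Agent.H256R2.SC.EE (gQ PP) (fun x : Col PP.card ↥U =>
        |V2 (pP PP) (gP PP) h q1 (cut (mq PP (W * q)) x)| * fw (gQ PP) s x) := fun s =>
      hV.EEQnn _ fun x => mul_nonneg (abs_nonneg _) (hfw0 s x)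
    have h2 : ∀ s : Finset (Fin PP.card), 0 ≤ ∑ f ∈ (W * q).divisors, TT X (f * ∏ i ∈ s, (emb PP i : ℕ)) :=
      fun s => Finset.sum_nonneg fun f _ => TT_nonneg X _
    have hLP0 : 0 ≤ LPhi X * (1 / (W.totient : ℝ)) * (1 / (q.totient : ℝ)) :=
      mul_nonneg (mul_nonneg hLP (by positivity)) (by positivity)
    refine add_nonneg (add_nonneg (add_nonneg (mul_nonneg (abs_nonneg _) (abs_nonneg _))
      (mul_nonneg hLP0 (abs_nonneg _))) ?_) (by positivity)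
    exact mul_nonneg (by positivity) (Finset.sum_nonneg fun s _ => mul_nonneg (h1 s) (h2 s))
  have htA := hV.totA 0 B E hE S (fun x => V2 (pP PP) (gP PP) h q1 x * ∑ k, SS J k x) B₂ (542 * L ^ 59) hB₂0
      (by positivity) (fun q hq1 hq => hV.devA2 q1 J hJ S hq1 hq hM2Z) (by
        have h1 := hGa (542 * 8) (E + B + 59) (by norm_num) (by norm_num) (by omega)
        refine le_trans (le_of_eq ?_) h1
        rw [mul_pow, pow_add, pow_add]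
        ring) (by
        rw [e10]
        have h1 := hGb 180 (E + B + 1) 15 (by norm_num) (by norm_num) (by omega) (by norm_num)
        refine le_trans ?_ h1
        calc 5 * B₂ * q1 ^ 10 * (2 * L) ^ E * (4 * L ^ B) * W ≤
            5 * (9 * q1 ^ 5 * L) * q1 ^ 10 * (2 * L) ^ E * (4 * L ^ B) * W := by gcongr
          _ = 180 * 2 ^ E * L ^ (E + B + 1) * q1 ^ 15 * W := by
            rw [mul_pow, pow_add, pow_add]
            ring)
  have htB := by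
    have hlog3 : Real.log (3 * X) ≤ 2 * L := by
      rw [Real.log_mul (by norm_num) hX0.ne']
      have : Real.log 3 ≤ Real.log X := Real.log_le_log (by norm_num) (by linarith)
      linarith
    have hlog30 : 0 ≤ Real.log (3 * X) := Real.log_nonneg (by linarith)
    exact hV.totB 0 B E D hE hA (by omega) S hps q1 (q1 * q1) (9 * q1 ^ 4) C (by positivity) hC
      (by
        rw [e5]
        calc q1 * q1 = q1 ^ 2 := by ring
          _ ≤ q1 ^ 5 := pow_le_pow_right₀ hq1one (by norm_num))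
      Bc hBc1 hBV (hφ S ps) (hDS Z ps S hps) (by
        have h1 := hGa 408 (E + B + 12) (by norm_num) (by norm_num) (by omega)
        refine le_trans (le_of_eq ?_) h1
        rw [mul_pow, pow_add, pow_add]
        ring) (by
        rw [e10]
        have h1 := hGb 1152 (E + B + 2) 14 (by norm_num) (by norm_num) (by omega) (by norm_num)
        refine le_trans ?_ h1
        calc (9 * q1 ^ 4 * (8 * (Real.log (3 * X)) ^ 2)) * q1 ^ 10 * (2 * L) ^ E * (4 * L ^ B) * W ≤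
            (9 * q1 ^ 4 * (8 * (2 * L) ^ 2)) * q1 ^ 10 * (2 * L) ^ E * (4 * L ^ B) * W := by gcongr
          _ = 1152 * 2 ^ E * L ^ (E + B + 2) * q1 ^ 14 * W := by
            rw [mul_pow, mul_pow, pow_add, pow_add]
            ring) (by
        have h1 := hGa 8 (9 + B) (by norm_num) (by norm_num) (by omega)
        refine le_trans ?_ h1
        have h3 : (8 : ℝ) * 1 * L ^ (9 + B) ≤ 8 * 2 ^ E * L ^ (9 + B) := by gcongr
        linarith) (by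
        have h3 : L ^ (E + 17 + B) ≤ L ^ (E + B + 70) := pow_le_pow_right₀ hL1 (by omega)
        calc 8 * C * L ^ (E + 17 + B) ≤ (100000 * 2 ^ E + 8 * C) * L ^ (E + B + 70) := by
              apply mul_le_mul _ h3 (by positivity) (by positivity)
              have : (0 : ℝ) ≤ 100000 * 2 ^ E := by positivity
              linarith
          _ ≤ L ^ D := hG1)
  refine ⟨fun a => V2 (pP PP) (gP PP) h q1 (colr PP res a), fun a => ∑ k, SS J k (colr PP res a),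
    Zv, _, _, _, ?_, ?_, ?_, hZ, hMge, hMle, hM', hM20, ?_, ?_, ?_⟩
  · intro a
    refine ⟨V2_nonneg _ _ _ _ _, ?_⟩
    have h1 := Lv_abs_le hLv1 (colr PP res a)
    rw [abs_of_nonneg (V2_nonneg _ _ _ _ _)] at h1
    refine h1.trans ?_
    rw [e10]
    have h3 : (9 : ℝ) * q1 ^ 4 ≤ q1 ^ 10 := by
      have h4 : (9 : ℝ) ≤ q1 ^ 6 := by
        rw [← hpow 6]
        norm_num
        exact h9
      calc (9 : ℝ) * q1 ^ 4 ≤ q1 ^ 6 * q1 ^ 4 := mul_le_mul_of_nonneg_right h4 (by positivity)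
        _ = q1 ^ 10 := by ring
    exact h3
  · intro a
    exact Finset.sum_nonneg fun k _ => SS_nonneg' J hJ k _
  · intro a ha k
    have h1 : SS J k (colr PP res a) < 1 := by
      refine lt_of_le_of_lt ?_ ha
      exact Finset.single_le_sum (f := fun k : ↥U => SS J k (colr PP res a))
        (fun k _ => SS_nonneg' J hJ k _) (Finset.mem_univ k)
    have h2 : ∃ i, colr PP res a i = some k := by
      by_contra hcon
      push Not at hcon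
      have h3 := Pool.Agent.H256R2.SC.SS_lower J hJ k (colr PP res a)
      rw [if_pos hcon] at h3
      linarith
    obtain ⟨i, hi⟩ := h2
    exact ⟨emb PP i, emb_mem PP i, (colr_eq hinj a i k).1 hi⟩
  · refine hM2.trans ?_
    rw [div_eq_mul_one_div Zv (L ^ B)]
    exact mul_le_mul_of_nonneg_left hLB1 hZ0
  · refine hcA2.trans ((err_one_le X hX W ps _ (fun q => ?_)).trans htA)
    positivity
  · exact hcB.trans ((err_one_le X hX W ps _ herrB).trans htB)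

/-- the repelling weights -/
theorem weightsG (B : ℕ) : ∃ (A : ℕ) (c₃ : ℝ), 4 ≤ A ∧ 0 < c₃ ∧ ∀ Z : ℕ, ∀ᶠ X : ℝ in atTop,
    ∀ (ps : ℕ) (S : Finset ℕ), GoodP Z ps → BVat A X (WW X S ps) ps →
    ∀ (Bx U : Finset ℕ), ps ∈ Bx → 2 * (Bx.card : ℝ) ≤ (Real.log X) ^ 4 → U.Nonempty →
    (U.card : ℝ) ≤ c₃ * Real.log X →
    ∃ PP : Finset ℕ, (∀ p ∈ PP, p.Prime ∧ (Real.log X) ^ A < p ∧ (p : ℝ) ≤ X ^ (1 / 1000 : ℝ) ∧ p ∉ Bx) ∧
    ∀ (res : ℕ → ↥U → ℤ), (∀ p ∈ PP, ∀ k l, k ≠ l → ¬ ((p : ℤ) ∣ res p k - res p l)) →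
    (∀ p ∈ PP, ∀ k, ¬ ((p : ℤ) ∣ res p k)) → ∀ r : ℕ, r.Coprime (WW X S ps) →
  ∃ (V T : ℤ → ℝ) (Z₁ M M' M₂ : ℝ),
    (∀ a, 0 ≤ V a ∧ V a ≤ X ^ (1 / 100 : ℝ)) ∧ (∀ a, 0 ≤ T a) ∧
    (∀ a, T a < 1 → ∀ k : ↥U, ∃ p ∈ PP, (p : ℤ) ∣ a - res p k) ∧
    1 ≤ Z₁ ∧ 3 / 4 * Z₁ ≤ M ∧ M ≤ Z₁ ∧ 3 / 4 * M ≤ M' ∧ 0 ≤ M₂ ∧ M₂ ≤ Z₁ / (Real.log X) ^ B ∧
    |∑ n ∈ (Icc 1 ⌊3 * X⌋₊).filter (fun n => n ≡ r [MOD WW X S ps]), Phi (n / X) * (V (n : ℤ) * T (n : ℤ)) -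
      M₂ * (MPhi X * (1 / (WW X S ps : ℝ)))| ≤ Z₁ * (X / ((WW X S ps : ℝ) * (Real.log X) ^ B)) ∧
    |∑ n ∈ (Icc 1 ⌊3 * X⌋₊).filter (fun n => n ≡ r [MOD WW X S ps]),
        Phi (n / X) * ArithmeticFunction.vonMangoldt n * V (n : ℤ) -
      M' * (LPhi X * (1 / ((WW X S ps).totient : ℝ)))| ≤
      Z₁ * (X / ((WW X S ps : ℝ) * (Real.log X) ^ B)) := by
  obtain ⟨C, X1, hC, hDS⟩ := large_total (2 * 0)
  obtain ⟨E, hE⟩ : ∃ E : ℕ, E = 2 ^ (2 * 0 + 1) := ⟨_, rfl⟩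
  obtain ⟨D, hD⟩ : ∃ D : ℕ, D = E + B + 100 := ⟨_, rfl⟩
  obtain ⟨A, hA⟩ : ∃ A : ℕ, A = 4 * D := ⟨_, rfl⟩
  obtain ⟨c₃, hc₃, hpar⟩ := paramsB A (B + 1) (by omega)
  refine ⟨A, min c₃ 1, by omega, lt_min hc₃ one_pos, ?_⟩
  intro Z
  have h9 : ∀ᶠ X : ℝ in atTop, (9 : ℝ) ≤ X ^ (3 / 500 : ℝ) :=
    (tendsto_rpow_atTop (by norm_num)).eventually_ge_atTop 9
  filter_upwards [hpar, ev_totient, eventually_ge_atTop 4, eventually_ge_atTop X1,
    Real.tendsto_log_atTop.eventually_ge_atTop 100, h9,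
    ev_pow_lt (100000 * 2 ^ E + 8 * C) (E + B + 70) D (by omega),
    ev_power (100000 * 2 ^ E) (by positivity) (E + B + 10)]
    with X hparX hφ hX4 hX1 hL h9X hG1 hG2
  intro ps S hps hBV Bx U hpsB hBx hUne hUc
  have hL0 : 0 < Real.log X := by linarith
  have hu1 : 1 ≤ U.card := Finset.card_pos.2 hUne
  have hmin1 : min c₃ 1 * Real.log X ≤ c₃ * Real.log X := mul_le_mul_of_nonneg_right (min_le_left _ _) hL0.le
  have hmin2 : min c₃ 1 * Real.log X ≤ 1 * Real.log X := mul_le_mul_of_nonneg_right (min_le_right _ _) hL0.le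
  obtain ⟨PP, h, z, Kc, δ, J, g1, g2, g3, g4, g5, g6, g7, g8, g9, g10, g11⟩ :=
    hparX Bx U.card hBx hu1 (hUc.trans hmin1)
  refine ⟨PP, fun p hp => ⟨(g1 p hp).1, (g1 p hp).2.1, (g1 p hp).2.2.1.trans g4, (g1 p hp).2.2.2⟩, ?_⟩
  intro res hinj hres r hr
  exact weightsG_at B E D A hE hD hA C hC.le X hX4 hL h9X hG1 hG2 hφ (hDS X hX1) Z ps S hps hBV U
    hUne (by linarith) PP h z Kc δ J
    (fun p hp => ⟨(g1 p hp).1, (g1 p hp).2.1, (g1 p hp).2.2.1, fun he => (g1 p hp).2.2.2 (he ▸ hpsB)⟩)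
    g2 g3 g4 g5 g6 g7 g8 g9 g10 g11 res hinj hres r hr

end Pool.Agent.TH101.RG
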