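import Pool.Agent.H99.GX.TH101_RG_Cov
import Pool.Agent.H99.GX.TH101_RG_Wts
import Pool.Agent.H99.GX.TH101_RG_Good
import Pool.Graph.R_seed8.H378R2.Final

set_option autoImplicit false
set_option maxHeartbeats 4000000

/-! # Record gaps around linear images of primes -/

namespace Pool.Agent.TH101.RG

open Finset Filter
open Pool.Agent.H378R2
open Pool.Agent.H312R2.RG (not_dvd_diff BVat)
open Pool.Agent.H256R2.SC (ff)

open scoped Classical

theorem goodP_mono {Z Z' ps : ℕ} (h : Z' ≤ Z) (hp : GoodP Z ps) : GoodP Z' ps := by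
  rcases hp with h1 | h1
  · exact Or.inl h1
  · exact Or.inr ⟨h1.1, lt_of_le_of_lt h h1.2⟩

theorem modEq_of_primes {d r h : ℕ} (hd : Squarefree d) (hp : ∀ p ∈ d.primeFactors, r ≡ h [MOD p]) :
    r ≡ h [MOD d] := by
  rw [Nat.modEq_iff_dvd, Int.natCast_dvd, ← Nat.prod_primeFactors_of_squarefree hd]
  apply Finset.prod_primes_dvd
  · intro p hp'
    exact (Nat.prime_of_mem_primeFactors hp').prime
  · intro p hp'
    rw [← Int.natCast_dvd]
    exact Nat.modEq_iff_dvd.1 (hp p hp')

end Pool.Agent.TH101.RG
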