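import Pool.Agent.H99.GX.TH101_RG_Main

set_option autoImplicit false
set_option maxHeartbeats 4000000

/-! # Record gaps around the rational multiples of linear images of primes -/

namespace Pool.Agent.TH101.RG

open Finset Filter
open Pool.Agent.H378R2
open Pool.Agent.H312R2.RG (ev_ff)
open Pool.Agent.H256R2.SC (ff)

open scoped Classical

theorem sum_inv_le_self (n : ℕ) : ∑ p ∈ n.primeFactors, (1 : ℝ) / p ≤ n := by
  have h1 : ∀ p ∈ n.primeFactors, (1 : ℝ) / p ≤ 1 := by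
    intro p hp
    have : (2 : ℝ) ≤ p := by exact_mod_cast (Nat.prime_of_mem_primeFactors hp).two_le
    rw [div_le_one (by linarith)]
    linarith
  refine (sum_le_card_nsmul _ _ _ h1).trans ?_
  rw [nsmul_eq_mul, mul_one]
  have h2 : n.primeFactors ⊆ Icc 1 n := by
    intro p hp
    rw [mem_Icc]
    exact ⟨(Nat.prime_of_mem_primeFactors hp).pos, Nat.le_of_mem_primeFactors hp⟩
  have h3 := card_le_card h2
  rw [Nat.card_Icc, Nat.add_sub_cancel] at h3
  exact_mod_cast h3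

theorem sum_inv_mul (m n : ℕ) (hm : m ≠ 0) (hn : n ≠ 0) :
    ∑ p ∈ (m * n).primeFactors, (1 : ℝ) / p ≤ ∑ p ∈ m.primeFactors, (1 : ℝ) / p + ∑ p ∈ n.primeFactors, (1 : ℝ) / p := by
  rw [Nat.primeFactors_mul hm hn]
  exact sum_union_le' _ fun i => by positivity

/-- few `n` with `a n + b` small -/
theorem few_small (a b : ℤ) (ha : a ≠ 0) (N : ℕ) (Y : ℝ) (hY : 0 ≤ Y) :
    (((Icc 1 N).filter (fun n : ℕ => |((a * n + b : ℤ) : ℝ)| ≤ Y)).card : ℝ) ≤ 2 * Y + 1 := by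
  have h1 : ((Icc 1 N).filter (fun n : ℕ => |((a * n + b : ℤ) : ℝ)| ≤ Y)).card ≤
      (Icc (-(⌊Y⌋₊ : ℤ)) ⌊Y⌋₊).card := by
    apply card_le_card_of_injOn (fun n : ℕ => a * n + b)
    · intro n hn
      rw [mem_coe, mem_filter] at hn
      rw [mem_coe, mem_Icc, ← abs_le]
      have h2 : ((|a * n + b| : ℤ) : ℝ) ≤ Y := by
        rw [Int.cast_abs]
        exact hn.2
      have h3 : ((a * n + b).natAbs : ℝ) ≤ Y := by
        rw [Nat.cast_natAbs]
        exact h2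
      have h4 : (a * n + b).natAbs ≤ ⌊Y⌋₊ := Nat.le_floor h3
      rw [Int.abs_eq_natAbs]
      exact_mod_cast h4
    · intro n _ m _ hnm
      simp only at hnm
      have h2 : a * (n : ℤ) = a * m := by linarith
      have := mul_left_cancel₀ ha h2
      exact_mod_cast this
  have h2 : ((Icc (-(⌊Y⌋₊ : ℤ)) ⌊Y⌋₊).card : ℝ) ≤ 2 * Y + 1 := by
    rw [Int.card_Icc]
    have h3 : (((⌊Y⌋₊ : ℤ) + 1 - -(⌊Y⌋₊ : ℤ)).toNat : ℝ) = 2 * (⌊Y⌋₊ : ℝ) + 1 := by
      have h4 : ((⌊Y⌋₊ : ℤ) + 1 - -(⌊Y⌋₊ : ℤ)).toNat = 2 * ⌊Y⌋₊ + 1 := by omega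
      rw [h4]
      push_cast
      ring
    rw [h3]
    have := Nat.floor_le hY
    linarith
  exact le_trans (by exact_mod_cast h1) h2

end Pool.Agent.TH101.RG
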