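import Pool.Agent.H99.GX.Y678_RG_Cov
import Pool.Agent.H99.GX.TH101_RG_Main

set_option autoImplicit false
set_option maxHeartbeats 4000000

/-! # Record gaps around linear images of primes with large leading coefficient

Adapted from `Pool.Agent.TH101.RG.Main` (helper101). -/

namespace Pool.Agent.Y678.RG

open Finset Filter
open Pool.Agent.H378R2
open Pool.Agent.H312R2.RG (not_dvd_diff BVat)
open Pool.Agent.H256R2.SC (ff)
open Pool.Agent.TH101.RG

open scoped Classical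

/-- one linear form -/
theorem one_formA (A0 : ℝ) (hA0 : 0 ≤ A0) (D : ℕ) : ∃ c : ℝ, 0 < c ∧ ∀ d : ℕ, Squarefree d → ∀ᶠ X : ℝ in atTop,
    ∀ (a : ℤ) (g : ℕ), a ≠ 0 → |(a : ℝ)| ≤ X ^ D → g ≠ 0 →
    (∀ p : ℕ, p.Prime → p ≤ yy X → (p : ℤ) ∣ a → p ∣ g) → d ∣ g →
    ∑ p ∈ g.primeFactors, (1 : ℝ) / p ≤ A0 → (g.primeFactors.card : ℝ) ≤ D * (Real.log (Real.log X)) ^ 2 →
    ∀ b : ℤ, |(b : ℝ)| ≤ X ^ D → ∀ h : ℕ, h.Coprime d → ∀ bad : Finset ℕ, (bad.card : ℝ) ≤ X ^ (9 / 10 : ℝ) →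
    ∃ p : ℕ, p.Prime ∧ X < p ∧ (p : ℝ) ≤ 3 * X ∧ p ∉ bad ∧ p ≡ h [MOD d] ∧
      ∀ m : ℤ, |(m : ℝ)| ≤ c * ff X → b + m ≠ 0 →
        ∃ q : ℕ, q.Prime ∧ (q : ℝ) ≤ X ^ (1 / 1000 : ℝ) ∧ ¬ q ∣ g ∧ (q : ℤ) ∣ a * p + b + m := by
  obtain ⟨A, c₃, hA4, hc₃, hw⟩ := weightsG 3
  obtain ⟨c, hc, hcov⟩ := coverA 1 D A0 hA0 (c₃ / 2) (by positivity)
  refine ⟨c, hc, fun d hd => ?_⟩
  obtain ⟨X1, hbv⟩ := bvrel_holds A (max 2 d)
  have t1 := Real.tendsto_log_atTop
  have t2 : Tendsto (fun y : ℝ => Real.log (Real.log y)) atTop atTop := t1.comp t1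
  filter_upwards [hw (max 2 d), hcov, exists_good, eventually_ge_atTop X1, eventually_ge_atTop 4,
    Real.tendsto_log_atTop.eventually_ge_atTop (2 / c₃),
    Real.tendsto_log_atTop.eventually_ge_atTop (100 + 8 * D + 4 * c₃ * (D + 1)),
    t1.eventually_ge_atTop (1000 * d), t2.eventually_ge_atTop (d + 1)]
    with X hwX hcovX hgX hX1 hX4 hL1 hL2 hLd hL2d
  intro a g ha haX hg0 hag hdg hgS hgD b hb hh hhd bad hbad
  obtain ⟨ps, S, hps, hS, hBV⟩ := hbv X hX1
  set u : ℕ → ℕ := fun p => if p ∣ d then hh else 1 with hu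
  obtain ⟨r, b', U0, hr0, hU0c, hU0, hbb', hrg, hmain⟩ := hcovX ps S (goodP_mono (le_max_left _ _) hps) hS a g hg0
    hag hgS hgD b (fun _ => 0) u (by
      intro p hp _ _
      rw [add_zero]
      simp only [hu]
      split_ifs with hpd
      · intro hph
        exact hp.one_lt.ne' (Nat.dvd_one.1 (hhd ▸ Nat.dvd_gcd hph hpd))
      · intro h1
        exact hp.one_lt.ne' (Nat.dvd_one.1 h1))
  have hr : r.Coprime (WW X S ps) := by simpa using hr0 0
  simp only [Nat.cast_zero, mul_zero] at hU0 hmain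
  set L := Real.log X with hL
  have hD0 : (0 : ℝ) ≤ D := Nat.cast_nonneg D
  have hL100 : 100 ≤ L := by
    have : 0 ≤ 4 * c₃ * ((D : ℝ) + 1) := by positivity
    linarith
  have hL0 : 0 < L := by linarith
  have hX0 : 0 < X := by linarith
  -- the survivors
  obtain ⟨k₀, hk₀1, hk₀⟩ : ∃ k₀ : ℕ, k₀ ≤ 1 ∧ b' + k₀ ≠ 0 := by
    by_cases h : b' = 0
    · exact ⟨1, le_rfl, by rw [h]; norm_num⟩
    · exact ⟨0, by norm_num, by simpa using h⟩
  set U : Finset ℕ := insert k₀ U0 with hU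
  have hUne : U.Nonempty := ⟨k₀, by rw [hU]; exact mem_insert_self _ _⟩
  have hUk : ∀ k ∈ U, (k : ℝ) ≤ L ^ 2 ∧ b' + k ≠ 0 := by
    intro k hk
    rw [hU, mem_insert] at hk
    rcases hk with rfl | hk
    · refine ⟨?_, hk₀⟩
      have : (k : ℝ) ≤ 1 := by exact_mod_cast hk₀1
      exact this.trans (one_le_pow₀ (by linarith))
    · exact ⟨(hU0 k hk).1, (hU0 k hk).2 0⟩
  have hUc : (U.card : ℝ) ≤ c₃ * L := by
    have h1 : (U.card : ℝ) ≤ U0.card + 1 := by
      rw [hU]
      exact_mod_cast card_insert_le k₀ U0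
    rw [div_le_iff₀ hc₃] at hL1
    linarith
  -- the excluded primes
  set Bx : Finset ℕ := insert ps ((g.primeFactors ∪ a.natAbs.primeFactors) ∪
      U.biUnion (fun k : ℕ => (b' + k).natAbs.primeFactors)) with hBx
  have hBxc : 2 * (Bx.card : ℝ) ≤ L ^ 4 := by
    have h1 : (Bx.card : ℝ) ≤ g.primeFactors.card + a.natAbs.primeFactors.card +
        ∑ k ∈ U, ((b' + (k : ℕ)).natAbs.primeFactors.card : ℝ) + 1 := by
      have h2 : Bx.card ≤ g.primeFactors.card + a.natAbs.primeFactors.card +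
          ∑ k ∈ U, (b' + (k : ℕ)).natAbs.primeFactors.card + 1 := by
        rw [hBx]
        refine (card_insert_le _ _).trans ?_
        apply Nat.add_le_add_right
        refine (card_union_le _ _).trans ?_
        exact Nat.add_le_add (card_union_le _ _) card_biUnion_le
      exact_mod_cast h2
    have h2a : (g.primeFactors.card : ℝ) ≤ 2 * (D * L) := by
      refine hgD.trans ?_
      have h3 : (Real.log L) ^ 2 ≤ 2 * L := by
        have h4 : 0 ≤ Real.log L := Real.log_nonneg (by linarith)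
        have h5 := Real.quadratic_le_exp_of_nonneg h4
        rw [Real.exp_log hL0] at h5
        linarith
      have h4 : (D : ℝ) * (Real.log L) ^ 2 ≤ D * (2 * L) := mul_le_mul_of_nonneg_left h3 hD0
      linarith
    have h2b : (a.natAbs.primeFactors.card : ℝ) ≤ 2 * (D * L) := by
      refine (Pool.Agent.H398R2.RK.card_primeFactors_le _ (Int.natAbs_pos.2 ha)).trans ?_
      apply mul_le_mul_of_nonneg_left _ (by norm_num)
      have h3 : ((a.natAbs : ℕ) : ℝ) ≤ X ^ D := by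
        rw [Nat.cast_natAbs, Int.cast_abs]
        exact haX
      have h4 := Real.log_le_log (by exact_mod_cast Int.natAbs_pos.2 ha) h3
      rwa [Real.log_pow] at h4
    have h3 : ∀ k ∈ U, ((b' + (k : ℕ)).natAbs.primeFactors.card : ℝ) ≤ 2 * ((D + 1) * L) := by
      intro k hk
      obtain ⟨hk1, hk2⟩ := hUk k hk
      refine (Pool.Agent.H398R2.RK.card_primeFactors_le _ (Int.natAbs_pos.2 hk2)).trans ?_
      apply mul_le_mul_of_nonneg_left _ (by norm_num)
      have h4 : (((b' + (k : ℕ)).natAbs : ℕ) : ℝ) ≤ X ^ (D + 1) := by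
        have h5 : (((b' + (k : ℕ)).natAbs : ℕ) : ℝ) = |((b' + (k : ℕ) : ℤ) : ℝ)| := by
          rw [Nat.cast_natAbs, Int.cast_abs]
        rw [h5]
        have h6 : ((b' + (k : ℕ) : ℤ) : ℝ) = ((b' - b : ℤ) : ℝ) + (b : ℝ) + k := by
          push_cast; ring
        rw [h6]
        have h7 : |((b' - b : ℤ) : ℝ) + (b : ℝ) + k| ≤ |((b' - b : ℤ) : ℝ)| + |(b : ℝ)| + |(k : ℝ)| :=
          abs_add_three _ _ _
        rw [abs_of_nonneg (Nat.cast_nonneg k : (0 : ℝ) ≤ k)] at h7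
        have h8 : 4 * L ^ 2 ≤ X := by
          have h9 := Real.quadratic_le_exp_of_nonneg hL0.le
          have h10 := Real.exp_log hX0
          rw [← hL] at h10
          have h11 : L ^ 4 / 24 ≤ Real.exp L := by
            have := Real.pow_div_factorial_le_exp L hL0.le 4
            simpa [Nat.factorial] using this
          have h12 : 96 * L ^ 2 ≤ L ^ 4 := by
            have h13 : (96 : ℝ) ≤ L ^ 2 := by
              calc (96 : ℝ) ≤ 10 ^ 2 := by norm_num
                _ ≤ L ^ 2 := pow_le_pow_left₀ (by norm_num) (by linarith) 2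
            calc 96 * L ^ 2 ≤ L ^ 2 * L ^ 2 := mul_le_mul_of_nonneg_right h13 (by positivity)
              _ = L ^ 4 := by ring
          linarith
        have h9 : (1 : ℝ) ≤ X ^ D := one_le_pow₀ (by linarith)
        have h10 : X ^ (D + 1) = X ^ D * X := pow_succ _ _
        have h11 : 0 ≤ (X ^ D - 1) * (X - 1) := mul_nonneg (by linarith) (by linarith)
        rw [h10]
        have h12 : (X ^ D - 1) * (X - 1) = X ^ D * X - X ^ D - X + 1 := by ring
        linarith
      have h5 := Real.log_le_log (by exact_mod_cast Int.natAbs_pos.2 hk2) h4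
      rw [Real.log_pow] at h5
      push_cast at h5
      exact h5
    have h4 : ∑ k ∈ U, ((b' + (k : ℕ)).natAbs.primeFactors.card : ℝ) ≤ (c₃ * L) * (2 * ((D + 1) * L)) := by
      refine (sum_le_card_nsmul U _ _ h3).trans ?_
      rw [nsmul_eq_mul]
      exact mul_le_mul_of_nonneg_right hUc (by positivity)
    have h5 : 2 + 8 * D * L + 4 * c₃ * (D + 1) * L ^ 2 ≤ L ^ 4 := by
      have h6 : 1 ≤ L := by linarith
      have h7 : 2 + 8 * D * L + 4 * c₃ * (D + 1) * L ^ 2 ≤ (2 + 8 * D + 4 * c₃ * (D + 1)) * L ^ 2 := by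
        have e1 : (1 : ℝ) ≤ L ^ 2 := one_le_pow₀ h6
        have e2 : L ≤ L ^ 2 := by
          rw [pow_two]
          exact le_mul_of_one_le_left (by linarith) h6
        have e3 : 8 * (D : ℝ) * L ≤ 8 * D * L ^ 2 := by gcongr
        have e4 : (2 + 8 * (D : ℝ) + 4 * c₃ * (D + 1)) * L ^ 2 =
            2 * L ^ 2 + 8 * D * L ^ 2 + 4 * c₃ * (D + 1) * L ^ 2 := by ring
        rw [e4]
        linarith
      refine h7.trans ?_
      calc (2 + 8 * D + 4 * c₃ * (D + 1)) * L ^ 2 ≤ L * L ^ 2 := by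
            apply mul_le_mul_of_nonneg_right _ (by positivity)
            linarith
        _ = L ^ 3 := by ring
        _ ≤ L ^ 4 := pow_le_pow_right₀ h6 (by norm_num)
    have h6 : 2 * (Bx.card : ℝ) ≤ 2 * (2 * (D * L) + 2 * (D * L) + (c₃ * L) * (2 * ((D + 1) * L)) + 1) := by
      linarith
    refine h6.trans (le_trans (le_of_eq ?_) h5)
    ring
  obtain ⟨PP, hPP, hres⟩ := hwX ps S hps hBV Bx U (by rw [hBx]; exact mem_insert_self _ _) hBxc hUne hUc
  have hPg : ∀ q ∈ PP, ¬ q ∣ g := by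
    intro q hq hd
    apply (hPP q hq).2.2.2
    rw [hBx, mem_insert, mem_union, mem_union]
    right; left; left
    rw [Nat.mem_primeFactors]
    exact ⟨(hPP q hq).1, hd, hg0⟩
  have hPa : ∀ q ∈ PP, ¬ (q : ℤ) ∣ a := by
    intro q hq hd
    apply (hPP q hq).2.2.2
    rw [hBx, mem_insert, mem_union, mem_union]
    right; left; right
    rw [Nat.mem_primeFactors]
    exact ⟨(hPP q hq).1, Int.natCast_dvd.1 hd, Int.natAbs_ne_zero.2 ha⟩
  have hPb : ∀ q ∈ PP, ∀ k ∈ U, ¬ (q : ℤ) ∣ b' + k := by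
    intro q hq k hk hd
    apply (hPP q hq).2.2.2
    rw [hBx, mem_insert, mem_union]
    right; right
    rw [mem_biUnion]
    refine ⟨k, hk, ?_⟩
    rw [Nat.mem_primeFactors]
    exact ⟨(hPP q hq).1, Int.natCast_dvd.1 hd, Int.natAbs_ne_zero.2 (hUk k hk).2⟩
  -- the residues
  have hex : ∀ (q : ℕ) (k : ↥U), ∃ ρ : ℤ, q ∈ PP → (q : ℤ) ∣ a * ρ + (b' + ((k : ℕ) : ℤ)) := by
    intro q k
    by_cases hq : q ∈ PP
    · obtain ⟨ρ, hρ⟩ := solve q (hPP q hq).1 a (b' + ((k : ℕ) : ℤ)) (hPa q hq)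
      exact ⟨ρ, fun _ => hρ⟩
    · exact ⟨0, fun h => absurd h hq⟩
  choose res hresd using hex
  have hLA : L ^ 2 ≤ L ^ A := pow_le_pow_right₀ (by linarith) (by omega)
  obtain ⟨V, T, Z₁, M, M', M₂, w1, w2, w3, w4, w5, w6, w7, w8, w9, w10, w11⟩ := hres res
    (by
      intro q hq k l hkl hd
      have h1 := hresd q k hq
      have h2 := hresd q l hq
      have h3 : (q : ℤ) ∣ ((k : ℕ) : ℤ) - ((l : ℕ) : ℤ) := by
        have h4 : ((k : ℕ) : ℤ) - ((l : ℕ) : ℤ) = (a * res q k + (b' + ((k : ℕ) : ℤ))) -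
            (a * res q l + (b' + ((l : ℕ) : ℤ))) - a * (res q k - res q l) := by ring
        rw [h4]
        exact dvd_sub (dvd_sub h1 h2) (hd.mul_left a)
      exact not_dvd_diff (((hUk k k.2).1).trans hLA) (((hUk l l.2).1).trans hLA) (hPP q hq).2.1
        (fun h => hkl (Subtype.ext h)) h3)
    (by
      intro q hq k hd
      have h1 := hresd q k hq
      apply hPb q hq k k.2
      have h2 := dvd_sub h1 (hd.mul_left a)
      rwa [add_sub_cancel_left] at h2) r hr
  obtain ⟨n, hnp, hXn, hn3, hnb, hnr, hTn⟩ := hgX (WW X S ps) r (WW_pos X S ps) (WW_le X (by linarith) S ps)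
    V T Z₁ M M' M₂ w1 w2 w4 w5 w7 w8 w9 w10 w11 bad hbad
  refine ⟨n, hnp, hXn, hn3, hnb, ?_, fun m hm hbm => ?_⟩
  · apply modEq_of_primes hd
    intro p hp
    have hpp := Nat.prime_of_mem_primeFactors hp
    have hpd := Nat.dvd_of_mem_primeFactors hp
    have hd0 : 0 < d := Nat.pos_of_ne_zero hd.ne_zero
    have hpled : p ≤ d := Nat.le_of_dvd hd0 hpd
    have hpPW : p ∈ PW X S ps := by
      refine mem_PW.2 ⟨?_, hpp, ?_, ?_⟩
      · refine hpled.trans ?_
        apply Nat.le_floor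
        rw [le_div_iff₀ (by norm_num)]
        linarith
      · intro hpS
        have h1 := (hS.1 p hpS).2.1
        have h2 : Real.log (Real.log X) ^ 3 ≤ (z2 X : ℝ) := Nat.le_ceil _
        have h3 : (z2 X : ℝ) < p := by exact_mod_cast h1
        have h4 : (p : ℝ) ≤ d := by exact_mod_cast hpled
        have h5 : (0 : ℝ) ≤ d := Nat.cast_nonneg d
        have h6 : Real.log (Real.log X) ≤ Real.log (Real.log X) ^ 3 := by
          have h7 : 1 ≤ Real.log (Real.log X) := by linarith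
          calc Real.log (Real.log X) = Real.log (Real.log X) ^ 1 := (pow_one _).symm
            _ ≤ _ := pow_le_pow_right₀ h7 (by norm_num)
        linarith
      · rintro rfl
        rcases hps with h1 | h1
        · rw [h1] at hpp
          exact Nat.not_prime_one hpp
        · have := h1.2
          have := le_max_right 2 d
          omega
    have h1 := hrg p hpPW (hpd.trans hdg)
    have h2 : u p = hh := by simp only [hu]; rw [if_pos hpd]
    rw [h2] at h1
    exact (hnr.of_dvd ((prime_dvd_WW hpp).2 hpPW)).trans h1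
  rcases hmain m hm (fun _ => hbm) with ⟨k, hk, hbk⟩ | ⟨p, hp, hpy, hpa, hpd⟩
  · have hkU : k ∈ U := by rw [hU]; exact mem_insert_of_mem hk
    obtain ⟨q, hq, hqd⟩ := w3 n hTn ⟨k, hkU⟩
    refine ⟨q, (hPP q hq).1, (hPP q hq).2.2.1, hPg q hq, ?_⟩
    have h1 := hresd q ⟨k, hkU⟩ hq
    have h2 : a * (n : ℤ) + b + m = a * ((n : ℤ) - res q ⟨k, hkU⟩) +
        (a * res q ⟨k, hkU⟩ + (b' + (k : ℤ))) := by
      have : a * (n : ℤ) + b + m = a * n + (b + m) := by ring
      rw [this, hbk]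
      ring
    rw [h2]
    exact dvd_add (hqd.mul_left a) h1
  · refine ⟨p, hp, ?_, hpa, hpd n hnr⟩
    have h1 : (p : ℝ) ≤ yy X := by exact_mod_cast hpy
    have h2 : (yy X : ℝ) ≤ L / 1000 := Nat.floor_le (by positivity)
    have h3 : X ^ (1 / 1000 : ℝ) = Real.exp (L / 1000) := by
      rw [Real.rpow_def_of_pos hX0, ← hL]
      congr 1
      ring
    rw [h3]
    have h4 := Real.add_one_le_exp (L / 1000)
    linarith

end Pool.Agent.Y678.RG
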