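import Pool.Agent.H99.GX.Y678_RG_Main
import Pool.Agent.H99.GX.TH101_RG_Mult

set_option autoImplicit false
set_option maxHeartbeats 4000000

/-! # Record gaps around the rational multiples of `a p + b`, `a` large

Adapted from `Pool.Agent.TH101.RG.Mult` (helper101). -/

namespace Pool.Agent.Y678.RG

open Finset Filter
open Pool.Agent.H378R2
open Pool.Agent.H312R2.RG (ev_ff)
open Pool.Agent.H256R2.SC (ff)
open Pool.Agent.TH101.RG

open scoped Classical

theorem card_primeFactors_self (n : ℕ) : n.primeFactors.card ≤ n := by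
  have h2 : n.primeFactors ⊆ Icc 1 n := by
    intro p hp
    rw [mem_Icc]
    exact ⟨(Nat.prime_of_mem_primeFactors hp).pos, Nat.le_of_mem_primeFactors hp⟩
  have h3 := card_le_card h2
  rwa [Nat.card_Icc, Nat.add_sub_cancel] at h3

/-- record gaps around the rational multiples of height at most `J` of `a p + b` -/
theorem multiplesA (J D : ℕ) (A₀ : ℝ) (d : ℕ) (hd : Squarefree d) : ∃ c : ℝ, 0 < c ∧ ∀ᶠ X : ℝ in atTop,
    ∀ a b : ℤ, a ≠ 0 → |(a : ℝ)| ≤ X ^ D →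
    ((a.natAbs.primeFactors.filter (fun p : ℕ => (p : ℝ) ≤ Real.log X)).card : ℝ) ≤
      D * (Real.log (Real.log X)) ^ 2 →
    ∑ p ∈ a.natAbs.primeFactors.filter (fun p : ℕ => (p : ℝ) ≤ Real.log X), (1 : ℝ) / p ≤ A₀ →
    |(b : ℝ)| ≤ X ^ D → ∀ h : ℕ, h.Coprime d → ∀ bad : Finset ℕ, (bad.card : ℝ) ≤ X ^ (7 / 8 : ℝ) →
    ∃ p : ℕ, p.Prime ∧ X < p ∧ (p : ℝ) ≤ 3 * X ∧ p ∉ bad ∧ p ≡ h [MOD d] ∧
      ∀ i j : ℤ, 1 ≤ |i| → |i| ≤ J → 1 ≤ |j| → |j| ≤ J → ∀ q : ℕ, q.Prime →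
        |((j * q - i * (a * p + b) : ℤ) : ℝ)| ≤ c * ff X → q = p := by
  obtain ⟨ℓ, hℓ⟩ : ∃ ℓ : ℕ, ℓ = J.factorial := ⟨_, rfl⟩
  have hℓ0 : 0 < ℓ := by rw [hℓ]; exact Nat.factorial_pos J
  have hℓr : (1 : ℝ) ≤ ℓ := by exact_mod_cast hℓ0
  have hd0 : d ≠ 0 := hd.ne_zero
  obtain ⟨c₁, hc₁, hone⟩ := one_formA (ℓ + |A₀| + d) (by positivity) (D + 1)
  refine ⟨c₁ / ℓ, by positivity, ?_⟩
  have t1 := Real.tendsto_log_atTop
  have t2 : Tendsto (fun y : ℝ => Real.log (Real.log y)) atTop atTop := t1.comp t1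
  filter_upwards [hone d hd, ev_ff c₁ hc₁, Real.tendsto_log_atTop.eventually_ge_atTop ((ℓ : ℝ) * d),
    Real.tendsto_log_atTop.eventually_ge_atTop ((J : ℝ) + 2), eventually_ge_atTop (ℓ : ℝ), eventually_ge_atTop 4,
    Real.tendsto_log_atTop.eventually (Pool.Agent.H378R2.ev_pow_exp (D + 3) (1 / 40) 1 (by norm_num)),
    t2.eventually_ge_atTop ((ℓ : ℝ) + d + 1), eventually_ge_atTop ((ℓ : ℝ) * J + 1)]
    with X hX hff hLd hLJ hXℓ hX4 hE hLL hXJ
  intro a b ha haX haD haφ hb h hh bad hbad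
  set L := Real.log X with hL
  have hX0 : 0 < X := by linarith
  have hJ0 : (0 : ℝ) ≤ J := Nat.cast_nonneg J
  have hL1 : 1 ≤ L := by linarith
  have hL0 : 0 < L := by linarith
  set E := Real.exp (1 / 40 * L) with hEd
  rw [one_mul] at hE
  have hE0 : 0 < E := Real.exp_pos _
  have hELJ : (J : ℝ) + 2 ≤ E := by
    have h1 : L ^ 1 ≤ L ^ (D + 3) := pow_le_pow_right₀ hL1 (by omega)
    rw [pow_one] at h1
    linarith
  have hpowE : ∀ k : ℕ, X ^ ((k : ℝ) / 40) = E ^ k := by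
    intro k
    rw [hEd, ← Real.exp_nat_mul, Real.rpow_def_of_pos hX0, ← hL]
    congr 1
    ring
  have e10 : X ^ (1 / 10 : ℝ) = E ^ 4 := by rw [← hpowE 4]; norm_num
  have e78 : X ^ (7 / 8 : ℝ) = E ^ 35 := by rw [← hpowE 35]; norm_num
  have e910 : X ^ (9 / 10 : ℝ) = E ^ 36 := by rw [← hpowE 36]; norm_num
  have hE1 : 1 ≤ E := by linarith
  have e1000 : X ^ (1 / 1000 : ℝ) ≤ E := by
    have h1 := hpowE 1
    rw [pow_one] at h1
    rw [← h1]
    exact Real.rpow_le_rpow_of_exponent_le (by linarith) (by norm_num)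
  -- the data
  set Fa : Finset ℕ := a.natAbs.primeFactors.filter (fun p : ℕ => (p : ℝ) ≤ L) with hFa
  have hFap : ∀ p ∈ Fa, p.Prime := fun p hp => Nat.prime_of_mem_primeFactors (mem_filter.1 hp).1
  set P : ℕ := ∏ p ∈ Fa, p with hP
  have hP0 : P ≠ 0 := prod_ne_zero_iff.2 fun p hp => (hFap p hp).ne_zero
  have hPf : P.primeFactors = Fa := Nat.primeFactors_prod hFap
  set ga : ℕ := ℓ * (P * d) with hga
  have hga0 : ga ≠ 0 := by
    rw [hga]
    exact mul_ne_zero hℓ0.ne' (mul_ne_zero hP0 hd0)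
  have hgsum : ∑ p ∈ ga.primeFactors, (1 : ℝ) / p ≤ ℓ + |A₀| + d := by
    have h1 := sum_inv_mul ℓ (P * d) hℓ0.ne' (mul_ne_zero hP0 hd0)
    have h2 := sum_inv_mul P d hP0 hd0
    have h3 := sum_inv_le_self ℓ
    have h4 := sum_inv_le_self d
    have h5 : ∑ p ∈ P.primeFactors, (1 : ℝ) / p ≤ A₀ := by rw [hPf]; exact haφ
    have h6 := le_abs_self A₀
    rw [← hga] at h1
    linarith
  have hgcard : (ga.primeFactors.card : ℝ) ≤ ((D + 1 : ℕ) : ℝ) * (Real.log (Real.log X)) ^ 2 := by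
    have h1 : ga.primeFactors.card ≤ ℓ.primeFactors.card + (P.primeFactors.card + d.primeFactors.card) := by
      rw [hga, Nat.primeFactors_mul hℓ0.ne' (mul_ne_zero hP0 hd0), Nat.primeFactors_mul hP0 hd0]
      exact (card_union_le _ _).trans (Nat.add_le_add_left (card_union_le _ _) _)
    have h2 : (ga.primeFactors.card : ℝ) ≤ ℓ + (P.primeFactors.card + d) := by
      have h3 := card_primeFactors_self ℓ
      have h4 := card_primeFactors_self d
      have h5 : ga.primeFactors.card ≤ ℓ + (P.primeFactors.card + d) := by omega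
      exact_mod_cast h5
    rw [hPf] at h2
    push_cast
    rw [← hL]
    have h6 : (ℓ : ℝ) + d + 1 ≤ (Real.log L) ^ 2 := by
      have h7 : (1 : ℝ) ≤ Real.log L := by
        have : (0 : ℝ) ≤ d := Nat.cast_nonneg d
        linarith
      have h8 : Real.log L ≤ (Real.log L) ^ 2 := by
        rw [pow_two]
        exact le_mul_of_one_le_left (by linarith) h7
      linarith
    have h9 : ((D : ℝ) + 1) * (Real.log L) ^ 2 = D * (Real.log L) ^ 2 + (Real.log L) ^ 2 := by ring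
    rw [h9]
    linarith
  set bad' : Finset ℕ := bad ∪ (Icc 1 ⌊3 * X⌋₊).filter (fun n : ℕ => |((a * n + b : ℤ) : ℝ)| ≤ X ^ (1 / 10 : ℝ))
    with hbad'
  have hbadc : (bad'.card : ℝ) ≤ X ^ (9 / 10 : ℝ) := by
    have h1 : (bad'.card : ℝ) ≤ bad.card +
        (((Icc 1 ⌊3 * X⌋₊).filter (fun n : ℕ => |((a * n + b : ℤ) : ℝ)| ≤ X ^ (1 / 10 : ℝ))).card : ℝ) := by
      rw [hbad', ← Nat.cast_add]
      exact Nat.cast_le.2 (card_union_le _ _)
    have h2 := few_small a b ha ⌊3 * X⌋₊ (X ^ (1 / 10 : ℝ)) (by positivity)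
    rw [e10] at h2 h1
    rw [e78] at hbad
    rw [e910]
    have h3 : E ^ 4 ≤ E ^ 35 := pow_le_pow_right₀ hE1 (by norm_num)
    have h4 : 1 ≤ E ^ 35 := one_le_pow₀ hE1
    have h5 : E ^ 36 = E * E ^ 35 := by ring
    have h6 : 4 ≤ E := by
      have h7 : L ^ 3 ≤ L ^ (D + 3) := pow_le_pow_right₀ hL1 (by omega)
      have h8 : (2 : ℝ) ≤ L := by linarith
      have h9 : (4 : ℝ) ≤ L ^ 3 := by
        calc (4 : ℝ) ≤ 2 ^ 3 := by norm_num
          _ ≤ L ^ 3 := pow_le_pow_left₀ (by norm_num) h8 3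
      linarith
    have h7 : 4 * E ^ 35 ≤ E * E ^ 35 := mul_le_mul_of_nonneg_right h6 (by positivity)
    rw [h5]
    linarith
  obtain ⟨p, hp, hXp, hp3, hpb, hpd, hmain⟩ := hX (ℓ * a) ga
    (mul_ne_zero (by exact_mod_cast hℓ0.ne') ha)
    (by
      push_cast
      rw [abs_mul, abs_of_nonneg (by positivity : (0 : ℝ) ≤ ℓ), pow_succ, mul_comm]
      exact mul_le_mul haX hXℓ (by positivity) (by positivity)) hga0
    (by
      intro q hq hqy hqa
      have h1 : (q : ℝ) ≤ L := by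
        have h2 : (q : ℝ) ≤ yy X := by exact_mod_cast hqy
        have h3 : (yy X : ℝ) ≤ L / 1000 := Nat.floor_le (by positivity)
        linarith
      rw [hga]
      rcases (Nat.prime_iff_prime_int.1 hq).dvd_mul.1 hqa with h3 | h3
      · exact (Int.natCast_dvd_natCast.1 h3).mul_right _
      · apply Dvd.dvd.mul_left
        apply Dvd.dvd.mul_right
        apply dvd_prod_of_mem (fun p => p)
        rw [hFa, mem_filter, Nat.mem_primeFactors]
        exact ⟨⟨hq, Int.natCast_dvd.1 h3, Int.natAbs_ne_zero.2 ha⟩, h1⟩)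
    (by
      rw [hga]
      exact Dvd.dvd.mul_left (Dvd.dvd.mul_left (dvd_refl d) _) _) hgsum hgcard (ℓ * b)
    (by
      push_cast
      rw [abs_mul, abs_of_nonneg (by positivity : (0 : ℝ) ≤ ℓ), pow_succ, mul_comm]
      exact mul_le_mul hb hXℓ (by positivity) (by positivity)) h hh bad' hbadc
  rw [hbad', mem_union, not_or] at hpb
  have hpbig : E ^ 4 < |((a * p + b : ℤ) : ℝ)| := by
    by_contra hcon
    push Not at hcon
    apply hpb.2
    rw [mem_filter, mem_Icc, e10]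
    exact ⟨⟨hp.pos, Nat.le_floor hp3⟩, hcon⟩
  refine ⟨p, hp, hXp, hp3, hpb.1, hpd, ?_⟩
  intro i j hi1 hiJ hj1 hjJ q hq hqd
  set k : ℤ := j * q - i * (a * p + b) with hk
  have hffX : 0 ≤ ff X := hff.2.1
  have hcff : c₁ / ℓ * ff X ≤ E := by
    have h1 : c₁ / ℓ * ff X ≤ c₁ * ff X := by
      apply mul_le_mul_of_nonneg_right _ hffX
      exact div_le_self hc₁.le hℓr
    have h2 : L ^ 2 ≤ L ^ (D + 3) := pow_le_pow_right₀ hL1 (by omega)
    linarith [hff.1]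
  -- a small `q` is impossible
  have hsmall : ¬ ((q : ℝ) ≤ E) := by
    intro hqE
    have h1 : |(i : ℝ)| * |((a * p + b : ℤ) : ℝ)| ≤ (J : ℝ) * E + E := by
      have h2 : (i : ℝ) * ((a * p + b : ℤ) : ℝ) = j * q - ((k : ℤ) : ℝ) := by
        rw [hk]
        push_cast
        ring
      rw [← abs_mul, h2]
      refine (abs_sub _ _).trans ?_
      rw [abs_mul, abs_of_nonneg (Nat.cast_nonneg q : (0 : ℝ) ≤ q)]
      have h3 : |(j : ℝ)| ≤ J := by exact_mod_cast hjJ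
      have h4 : |(j : ℝ)| * q ≤ J * E := mul_le_mul h3 hqE (Nat.cast_nonneg q) hJ0
      linarith
    have h2 : (1 : ℝ) ≤ |(i : ℝ)| := by exact_mod_cast hi1
    have h3 : |((a * p + b : ℤ) : ℝ)| ≤ |(i : ℝ)| * |((a * p + b : ℤ) : ℝ)| :=
      le_mul_of_one_le_left (abs_nonneg _) h2
    have h4 : (J : ℝ) * E + E ≤ E ^ 4 := by
      calc (J : ℝ) * E + E = (J + 1) * E := by ring
        _ ≤ E * E := mul_le_mul_of_nonneg_right (by linarith) hE0.le
        _ = E ^ 2 := by ring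
        _ ≤ E ^ 4 := pow_le_pow_right₀ hE1 (by norm_num)
    linarith
  have hdivℓ : ∀ x : ℤ, 1 ≤ |x| → |x| ≤ J → x ∣ (ℓ : ℤ) := by
    intro x h1 h2
    rw [Int.abs_eq_natAbs] at h1 h2
    rw [← Int.natAbs_dvd_natAbs, Int.natAbs_natCast, hℓ]
    apply Nat.dvd_factorial
    · exact_mod_cast h1
    · exact_mod_cast h2
  obtain ⟨i₁, hi₁⟩ := hdivℓ i hi1 hiJ
  have hi₁ℓ : i₁ ∣ (ℓ : ℤ) := ⟨i, by rw [hi₁]; ring⟩
  have hi₁le : |(i₁ : ℝ)| ≤ ℓ := by
    have h1 : |i₁| ≤ (ℓ : ℤ) := by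
      rw [Int.abs_eq_natAbs]
      have := Nat.le_of_dvd hℓ0 (Int.natCast_dvd_natCast.1 ((Int.natAbs_dvd).2 hi₁ℓ))
      exact_mod_cast this
    exact_mod_cast h1
  have hid : (ℓ : ℤ) * a * p + ℓ * b + i₁ * k = i₁ * j * q := by
    rw [hk, hi₁]
    ring
  by_cases hz : (ℓ : ℤ) * b + i₁ * k = 0
  · have h1 : (ℓ : ℤ) * a * p = i₁ * j * q := by rw [← hid]; linarith
    have h2 : (p : ℤ) ∣ i₁ * j * q := by rw [← h1]; exact dvd_mul_left _ _
    have hsz : ∀ x : ℤ, x ≠ 0 → |(x : ℝ)| ≤ (ℓ : ℝ) * J → ¬ (p : ℤ) ∣ x := by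
      intro x hx0 hx hpx
      have h3 : (p : ℤ) ≤ |x| := Int.le_of_dvd (abs_pos.2 hx0) ((dvd_abs _ _).2 hpx)
      have h4 : (p : ℝ) ≤ |(x : ℝ)| := by exact_mod_cast h3
      linarith
    have hi₁0 : i₁ ≠ 0 := by
      rintro rfl
      rw [mul_zero] at hi₁
      exact hℓ0.ne' (by exact_mod_cast hi₁)
    have hj0 : j ≠ 0 := by
      rintro rfl
      simp at hj1
    have hJ1 : (1 : ℝ) ≤ J := by
      have : (1 : ℤ) ≤ J := hj1.trans hjJ
      exact_mod_cast this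
    rcases (Nat.prime_iff_prime_int.1 hp).dvd_mul.1 h2 with h3 | h3
    · exfalso
      rcases (Nat.prime_iff_prime_int.1 hp).dvd_mul.1 h3 with h4 | h4
      · exact hsz i₁ hi₁0 (hi₁le.trans (le_mul_of_one_le_right (Nat.cast_nonneg _) hJ1)) h4
      · have h5 : |(j : ℝ)| ≤ J := by exact_mod_cast hjJ
        have hℓ1 : (1 : ℝ) ≤ ℓ := by exact_mod_cast Nat.one_le_iff_ne_zero.mpr hℓ0.ne'
        exact hsz j hj0 (h5.trans (le_mul_of_one_le_left (by linarith) hℓ1)) h4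
    · exact ((Nat.prime_dvd_prime_iff_eq hp hq).1 (by exact_mod_cast h3)).symm
  · exfalso
    obtain ⟨q', hq', hq'X, hq'g, hq'd⟩ := hmain (i₁ * k) (by
      push_cast
      rw [abs_mul]
      have h1 : |(k : ℝ)| ≤ c₁ / ℓ * ff X := hqd
      calc |(i₁ : ℝ)| * |(k : ℝ)| ≤ ℓ * (c₁ / ℓ * ff X) := mul_le_mul hi₁le h1 (abs_nonneg _) (by positivity)
        _ = c₁ * ff X := by field_simp) hz
    rw [hid] at hq'd
    have hq'ℓ : ¬ (q' : ℤ) ∣ (ℓ : ℤ) := by
      intro h1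
      apply hq'g
      rw [hga]
      exact (Int.natCast_dvd_natCast.1 h1).mul_right _
    have hqq : q' = q := by
      rcases (Nat.prime_iff_prime_int.1 hq').dvd_mul.1 hq'd with h1 | h1
      · rcases (Nat.prime_iff_prime_int.1 hq').dvd_mul.1 h1 with h2 | h2
        · exact absurd (h2.trans hi₁ℓ) hq'ℓ
        · exact absurd (h2.trans (hdivℓ j hj1 hjJ)) hq'ℓ
      · exact (Nat.prime_dvd_prime_iff_eq hq' hq).1 (by exact_mod_cast h1)
    apply hsmall
    rw [← hqq]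
    exact hq'X.trans e1000

end Pool.Agent.Y678.RG
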