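import Pool.Agent.H99.GX.Y678_RG_Mult
import Mathlib.NumberTheory.Chebyshev

set_option autoImplicit false
set_option maxHeartbeats 4000000

/-! # Products of `k` primes in the middle of record gaps -/

namespace Pool.Agent.Y678.RG

open Finset Filter
open Pool.Agent.H256R2.SC (ff)

open scoped Classical

/-- the counting form of `multiplesA` -/
theorem multA (J D : ℕ) (A₀ : ℝ) (d : ℕ) (hd : Squarefree d) : ∃ c : ℝ, 0 < c ∧ ∃ X₀ : ℝ, ∀ X : ℝ, X₀ ≤ X →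
    ∀ a b : ℤ, a ≠ 0 → |(a : ℝ)| ≤ X ^ D → |(b : ℝ)| ≤ X ^ D →
    ({p : ℕ | p.Prime ∧ (p : ℤ) ∣ a ∧ (p : ℝ) ≤ Real.log X}.ncard : ℝ) ≤ D * (Real.log (Real.log X)) ^ 2 →
    (∑ᶠ p ∈ {p : ℕ | p.Prime ∧ (p : ℤ) ∣ a ∧ (p : ℝ) ≤ Real.log X}, (1 : ℝ) / p) ≤ A₀ →
    ∀ h : ℕ, h.Coprime d →
    X ^ (7 / 8 : ℝ) ≤ ({p : ℕ | p.Prime ∧ X < p ∧ (p : ℝ) ≤ 3 * X ∧ p ≡ h [MOD d] ∧
      ∀ i j : ℤ, 1 ≤ |i| → |i| ≤ J → 1 ≤ |j| → |j| ≤ J → ∀ q : ℕ, q.Prime → q ≠ p →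
        c * ff X < |((j * q - i * (a * p + b) : ℤ) : ℝ)|}.ncard : ℝ) := by
  obtain ⟨c, hc, hX⟩ := multiplesA J D A₀ d hd
  obtain ⟨X₀, hX₀⟩ := eventually_atTop.1 hX
  refine ⟨c, hc, X₀, fun X hXX a b ha haX hb hcard hsum h hh => ?_⟩
  have hset : {p : ℕ | p.Prime ∧ (p : ℤ) ∣ a ∧ (p : ℝ) ≤ Real.log X} =
      ((a.natAbs.primeFactors.filter (fun p : ℕ => (p : ℝ) ≤ Real.log X) : Finset ℕ) : Set ℕ) := by
    ext p
    rw [mem_coe, mem_filter, Nat.mem_primeFactors]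
    constructor
    · rintro ⟨h1, h2, h3⟩
      exact ⟨⟨h1, Int.natCast_dvd.1 h2, Int.natAbs_ne_zero.2 ha⟩, h3⟩
    · rintro ⟨⟨h1, h2, -⟩, h3⟩
      exact ⟨h1, Int.natCast_dvd.2 h2, h3⟩
  rw [hset, Set.ncard_coe_finset] at hcard
  rw [hset, finsum_mem_coe_finset] at hsum
  set S := {p : ℕ | p.Prime ∧ X < p ∧ (p : ℝ) ≤ 3 * X ∧ p ≡ h [MOD d] ∧
      ∀ i j : ℤ, 1 ≤ |i| → |i| ≤ J → 1 ≤ |j| → |j| ≤ J → ∀ q : ℕ, q.Prime → q ≠ p →
        c * ff X < |((j * q - i * (a * p + b) : ℤ) : ℝ)|} with hS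
  have hfin : S.Finite := by
    apply (Set.finite_Iic ⌊3 * X⌋₊).subset
    intro p hp
    exact Set.mem_Iic.2 (Nat.le_floor hp.2.2.1)
  by_contra hcon
  push Not at hcon
  rw [Set.ncard_eq_toFinset_card S hfin] at hcon
  obtain ⟨p, hp, hXp, hp3, hpb, hpd, hmain⟩ := hX₀ X hXX a b ha haX hcard hsum hb h hh hfin.toFinset hcon.le
  apply hpb
  rw [Set.Finite.mem_toFinset]
  refine ⟨hp, hXp, hp3, hpd, fun i j hi1 hiJ hj1 hjJ q hq hqp => ?_⟩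
  by_contra hle
  push Not at hle
  exact hqp (hmain i j hi1 hiJ hj1 hjJ q hq hle)

/-- the form with finite sets of primes -/
theorem multB (J D : ℕ) (A₀ : ℝ) (d : ℕ) (hd : Squarefree d) : ∃ c : ℝ, 0 < c ∧ ∃ X₀ : ℝ, ∀ X : ℝ, X₀ ≤ X →
    ∀ a b : ℤ, a ≠ 0 → |(a : ℝ)| ≤ X ^ D → |(b : ℝ)| ≤ X ^ D →
    (∀ s : Finset ℕ, (∀ p ∈ s, p.Prime ∧ (p : ℤ) ∣ a ∧ (p : ℝ) ≤ Real.log X) →
      (s.card : ℝ) ≤ D * (Real.log (Real.log X)) ^ 2 ∧ ∑ p ∈ s, (1 : ℝ) / p ≤ A₀) →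
    ∀ h : ℕ, h.Coprime d →
    X ^ (7 / 8 : ℝ) ≤ ({p : ℕ | p.Prime ∧ X < p ∧ (p : ℝ) ≤ 3 * X ∧ p ≡ h [MOD d] ∧
      ∀ i j : ℤ, 1 ≤ |i| → |i| ≤ J → 1 ≤ |j| → |j| ≤ J → ∀ q : ℕ, q.Prime → q ≠ p →
        c * ff X < |((j * q - i * (a * p + b) : ℤ) : ℝ)|}.ncard : ℝ) := by
  obtain ⟨c, hc, X₀, hX₀⟩ := multA J D A₀ d hd
  refine ⟨c, hc, X₀, fun X hXX a b ha haX hb hs h hh => ?_⟩
  have hset : {p : ℕ | p.Prime ∧ (p : ℤ) ∣ a ∧ (p : ℝ) ≤ Real.log X} =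
      ((a.natAbs.primeFactors.filter (fun p : ℕ => (p : ℝ) ≤ Real.log X) : Finset ℕ) : Set ℕ) := by
    ext p
    rw [mem_coe, mem_filter, Nat.mem_primeFactors]
    constructor
    · rintro ⟨h1, h2, h3⟩
      exact ⟨⟨h1, Int.natCast_dvd.1 h2, Int.natAbs_ne_zero.2 ha⟩, h3⟩
    · rintro ⟨⟨h1, h2, -⟩, h3⟩
      exact ⟨h1, Int.natCast_dvd.2 h2, h3⟩
  obtain ⟨h1, h2⟩ := hs (a.natAbs.primeFactors.filter (fun p : ℕ => (p : ℝ) ≤ Real.log X)) (by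
    intro p hp
    have : p ∈ {p : ℕ | p.Prime ∧ (p : ℤ) ∣ a ∧ (p : ℝ) ≤ Real.log X} := by
      rw [hset]
      exact hp
    exact this)
  exact hX₀ X hXX a b ha haX hb (by rw [hset, Set.ncard_coe_finset]; exact h1)
    (by rw [hset, finsum_mem_coe_finset]; exact h2) h hh

/-- the record scale does not grow much from `X` to a power of `X` -/
theorem ff_pow_le (k : ℕ) (hk : 1 ≤ k) : ∀ᶠ X : ℝ in atTop, ∀ n : ℝ, X ≤ n → n ≤ (3 * X) ^ k →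
    ff n ≤ 16 * k * ff X := by
  have t1 := Real.tendsto_log_atTop
  have t2 : Tendsto (fun y : ℝ => Real.log (Real.log y)) atTop atTop := t1.comp t1
  have t3 : Tendsto (fun y : ℝ => Real.log (Real.log (Real.log y))) atTop atTop := t1.comp t2
  have t4 : Tendsto (fun y : ℝ => Real.log (Real.log (Real.log (Real.log y)))) atTop atTop := t1.comp t3
  filter_upwards [eventually_ge_atTop 3, t1.eventually_ge_atTop 10, t2.eventually_ge_atTop (10 + 2 * k),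
    t3.eventually_ge_atTop 10, t4.eventually_ge_atTop 10] with X hX h1 h2 h3 h4
  intro n hn1 hn2
  have hX0 : 0 < X := by linarith
  have hk0 : (1 : ℝ) ≤ k := by exact_mod_cast hk
  have hn0 : 0 < n := by linarith
  set L := Real.log X with hL
  set M := Real.log n with hM
  have a1 : L ≤ M := Real.log_le_log hX0 hn1
  have a2 : M ≤ 2 * k * L := by
    have h5 := Real.log_le_log hn0 hn2
    rw [Real.log_pow, Real.log_mul (by norm_num) hX0.ne'] at h5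
    have h6 : Real.log 3 ≤ 2 := by
      have := Real.log_le_sub_one_of_pos (show (0 : ℝ) < 3 by norm_num)
      linarith
    have h7 : (k : ℝ) * (Real.log 3 + Real.log X) ≤ k * (L + L) := by
      apply mul_le_mul_of_nonneg_left _ (by linarith)
      rw [← hL]
      linarith
    linarith
  have hL0 : 0 < L := by linarith
  have hM0 : 0 < M := by linarith
  set L2 := Real.log L with hL2
  set M2 := Real.log M with hM2
  have b1 : L2 ≤ M2 := Real.log_le_log hL0 a1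
  have b2 : M2 ≤ 2 * L2 := by
    have h5 := Real.log_le_log hM0 a2
    rw [Real.log_mul (by positivity) hL0.ne'] at h5
    have h6 : Real.log (2 * (k : ℝ)) ≤ 2 * k := (Real.log_le_sub_one_of_pos (by positivity)).trans (by linarith)
    linarith
  have hL20 : 0 < L2 := by linarith
  have hM20 : 0 < M2 := by linarith
  set L3 := Real.log L2 with hL3
  set M3 := Real.log M2 with hM3
  have c1 : L3 ≤ M3 := Real.log_le_log hL20 b1
  have c2 : M3 ≤ 2 * L3 := by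
    have h5 := Real.log_le_log hM20 b2
    rw [Real.log_mul (by norm_num) hL20.ne'] at h5
    have h6 : Real.log (2 : ℝ) ≤ 1 := by
      have := Real.log_le_sub_one_of_pos (show (0 : ℝ) < 2 by norm_num)
      linarith
    linarith
  have hL30 : 0 < L3 := by linarith
  have hM30 : 0 < M3 := by linarith
  set L4 := Real.log L3 with hL4
  set M4 := Real.log M3 with hM4
  have d1 : L4 ≤ M4 := Real.log_le_log hL30 c1
  have d2 : M4 ≤ 2 * L4 := by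
    have h5 := Real.log_le_log hM30 c2
    rw [Real.log_mul (by norm_num) hL30.ne'] at h5
    have h6 : Real.log (2 : ℝ) ≤ 1 := by
      have := Real.log_le_sub_one_of_pos (show (0 : ℝ) < 2 by norm_num)
      linarith
    linarith
  have hL40 : 0 < L4 := by linarith
  have hM40 : 0 < M4 := by linarith
  have e1 : ff n = M * M2 ^ 2 * M4 / M3 ^ 2 := rfl
  have e2 : ff X = L * L2 ^ 2 * L4 / L3 ^ 2 := rfl
  rw [e1, e2]
  calc M * M2 ^ 2 * M4 / M3 ^ 2 ≤ (2 * k * L) * (2 * L2) ^ 2 * (2 * L4) / L3 ^ 2 := by gcongr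
    _ = 16 * k * (L * L2 ^ 2 * L4 / L3 ^ 2) := by ring

end Pool.Agent.Y678.RG
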